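import Mathlib

namespace Pool.Agent.Lib.MP_55068a_an

/-- `InHR c` : `c` is the Taylor coefficient sequence at `0` of a nonconstant rational function `f`
with real Taylor coefficients, without poles in the closed unit disc, with bounded integral means
on the circles of radius `r < 1`, and with `‖f‖ ≤ 1` on the unit circle. -/
def InHR (c : ℕ → ℝ) : Prop :=
  ∃ f : RatFunc ℂ,
    (∀ z : ℂ, ‖z‖ ≤ 1 → f.denom.eval z ≠ 0) ∧
    (∃ B : ℝ, ∀ r : ℝ, 0 < r → r < 1 →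
      ∫ t in (0 : ℝ)..1,
        ‖f.eval (RingHom.id ℂ) (r * Complex.exp (2 * Real.pi * Complex.I * t))‖ ≤ B) ∧
    (∀ z : ℂ, ‖z‖ = 1 → ‖f.eval (RingHom.id ℂ) z‖ ≤ 1) ∧
    (∀ z : ℂ, ‖z‖ < 1 → HasSum (fun n => (c n : ℂ) * z ^ n) (f.eval (RingHom.id ℂ) z)) ∧
    (∀ w : ℂ, f ≠ RatFunc.C w)

/-- The set of values of `c ℓ` on the class, given `c 0 = a` and `c k = b`. -/
def Vals (k l : ℕ) (a b : ℝ) : Set ℝ :=
  {x | ∃ c : ℕ → ℝ, InHR c ∧ c 0 = a ∧ c k = b ∧ c l = x}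

end Pool.Agent.Lib.MP_55068a_an
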