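import Mathlib
import Pool.Agent.Lib.MP_55068a_an.Defs

namespace Pool.Agent.Lib.MP_55068a_an

open Polynomial Metric

theorem hasSum_mul_poly (φ : PowerSeries ℂ) (z S : ℂ)
    (h : HasSum (fun n => PowerSeries.coeff n φ * z ^ n) S) (q : ℂ[X]) :
    HasSum (fun n => PowerSeries.coeff n (φ * (q : PowerSeries ℂ)) * z ^ n) (S * q.eval z) := by
  induction q using Polynomial.induction_on with
  | C a =>
    simp only [Polynomial.coe_C, PowerSeries.coeff_mul_C, eval_C]
    have e : (fun n => PowerSeries.coeff n φ * a * z ^ n)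
        = fun n => PowerSeries.coeff n φ * z ^ n * a := by ext n; ring
    rw [e]; exact h.mul_right a
  | add p q hp hq =>
    simp only [Polynomial.coe_add, mul_add, map_add, add_mul, eval_add]
    exact hp.add hq
  | monomial n a ih =>
    have e : ((C a * X ^ (n + 1) : ℂ[X]) : PowerSeries ℂ)
        = ((C a * X ^ n : ℂ[X]) : PowerSeries ℂ) * PowerSeries.X := by
      simp [pow_succ, mul_assoc]
    rw [e, ← mul_assoc]
    rw [← hasSum_nat_add_iff' 1]
    simp only [PowerSeries.coeff_succ_mul_X, Finset.range_one, Finset.sum_singleton,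
      PowerSeries.coeff_zero_mul_X, zero_mul, sub_zero]
    have e1 : S * eval z (C a * X ^ (n + 1)) = S * eval z (C a * X ^ n) * z := by
      simp [pow_succ]; ring
    rw [e1]
    have e2 := ih.mul_right z
    simp only [mul_assoc, ← pow_succ] at e2 ⊢
    exact e2

theorem coeff_eq_zero_of_hasSum (d : ℕ → ℂ)
    (h : ∀ z : ℂ, ‖z‖ < 1 → HasSum (fun n => d n * z ^ n) 0) : d = 0 := by
  have h1 : HasFPowerSeriesAt (0 : ℂ → ℂ) (FormalMultilinearSeries.ofScalars ℂ d) 0 := by
    rw [hasFPowerSeriesAt_iff]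
    filter_upwards [Metric.ball_mem_nhds (0 : ℂ) one_pos] with z hz
    have := h z (by simpa using hz)
    simpa [FormalMultilinearSeries.coeff_ofScalars, mul_comm] using this
  have h2 := h1.eq_zero
  ext n
  have := congrArg (fun p => FormalMultilinearSeries.coeff p n) h2
  simp only [FormalMultilinearSeries.coeff_ofScalars] at this
  rw [this]; simp [FormalMultilinearSeries.coeff]

theorem formal_of_hasSum (c : ℕ → ℂ) (F : ℂ → ℂ) (p q : ℂ[X])
    (h : ∀ z : ℂ, ‖z‖ < 1 → HasSum (fun n => c n * z ^ n) (F z))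
    (hF : ∀ z : ℂ, ‖z‖ < 1 → F z * q.eval z = p.eval z) :
    PowerSeries.mk c * (q : PowerSeries ℂ) = (p : PowerSeries ℂ) := by
  have key : (fun n => PowerSeries.coeff n
      (PowerSeries.mk c * (q : PowerSeries ℂ) - (p : PowerSeries ℂ))) = 0 := by
    apply coeff_eq_zero_of_hasSum
    intro z hz
    have h1 := hasSum_mul_poly (PowerSeries.mk c) z (F z) (by simpa using h z hz) q
    have h0 : HasSum (fun n => PowerSeries.coeff n (1 : PowerSeries ℂ) * z ^ n) 1 := by
      have := hasSum_single (f := fun n => PowerSeries.coeff n (1 : PowerSeries ℂ) * z ^ n) 0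
        (by intro b hb; simp [PowerSeries.coeff_one, hb])
      simpa using this
    have h2 := hasSum_mul_poly 1 z 1 h0 p
    have h3 := h1.sub h2
    rw [hF z hz] at h3
    simpa [sub_mul] using h3
  rw [← sub_eq_zero]
  ext n
  simpa using congrFun key n

/-- Algebraic form of the (real, rational) Schur class. -/
def Sch (c : ℕ → ℝ) : Prop :=
  ∃ p q : ℝ[X], (∀ z : ℂ, ‖z‖ ≤ 1 → aeval z q ≠ 0) ∧
    (∀ z : ℂ, ‖z‖ = 1 → ‖aeval z p‖ ≤ ‖aeval z q‖) ∧
    PowerSeries.mk c * (q : PowerSeries ℝ) = (p : PowerSeries ℝ)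

theorem diffContOnCl_div (p q : ℂ[X]) (hq : ∀ z : ℂ, ‖z‖ ≤ 1 → q.eval z ≠ 0) :
    DiffContOnCl ℂ (fun z => p.eval z / q.eval z) (ball 0 1) := by
  apply DifferentiableOn.diffContOnCl
  rw [closure_ball _ one_ne_zero]
  intro z hz
  exact ((p.differentiableAt).div (q.differentiableAt)
    (hq z (by simpa using hz))).differentiableWithinAt

theorem norm_le_one_of_sphere {F : ℂ → ℂ} (hF : DiffContOnCl ℂ F (ball 0 1))
    (h : ∀ z : ℂ, ‖z‖ = 1 → ‖F z‖ ≤ 1) {z : ℂ} (hz : ‖z‖ ≤ 1) : ‖F z‖ ≤ 1 := by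
  apply Complex.norm_le_of_forall_mem_frontier_norm_le isBounded_ball hF
  · intro w hw
    rw [frontier_ball _ one_ne_zero] at hw
    exact h w (by simpa using hw)
  · rw [closure_ball _ one_ne_zero]; simpa using hz

theorem re_nonneg_of_sphere {F : ℂ → ℂ} (hF : DiffContOnCl ℂ F (ball 0 1))
    (h : ∀ z : ℂ, ‖z‖ = 1 → 0 ≤ (F z).re) {z : ℂ} (hz : ‖z‖ ≤ 1) : 0 ≤ (F z).re := by
  have h1 : DiffContOnCl ℂ (fun z => Complex.exp (-F z)) (ball 0 1) :=
    Complex.differentiable_exp.comp_diffContOnCl hF.neg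
  have h2 := norm_le_one_of_sphere h1 (fun w hw => by
    rw [Complex.norm_exp, Real.exp_le_one_iff]; simpa using h w hw) hz
  rw [Complex.norm_exp, Real.exp_le_one_iff] at h2
  simpa using h2

theorem aeval_eq_eval_map (p : ℝ[X]) (z : ℂ) :
    aeval z p = (p.map (algebraMap ℝ ℂ)).eval z := by
  rw [eval_map_algebraMap]

theorem map_coe (p : ℝ[X]) :
    PowerSeries.map (algebraMap ℝ ℂ) (p : PowerSeries ℝ)
      = ((p.map (algebraMap ℝ ℂ) : ℂ[X]) : PowerSeries ℂ) := by
  ext n; simp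

theorem map_mk (c : ℕ → ℝ) :
    PowerSeries.map (algebraMap ℝ ℂ) (PowerSeries.mk c)
      = PowerSeries.mk (fun n => (c n : ℂ)) := by
  ext n; simp

theorem ratFunc_eval_eq (f : RatFunc ℂ) (z : ℂ) :
    f.eval (RingHom.id ℂ) z = f.num.eval z / f.denom.eval z := by
  simp [RatFunc.eval, eval₂_id]

theorem sch_of_inHR {c : ℕ → ℝ} (h : InHR c) : Sch c ∧ ∃ n, 0 < n ∧ c n ≠ 0 := by
  obtain ⟨f, hd, -, hb, hs, hn⟩ := h
  have hform := formal_of_hasSum (fun n => (c n : ℂ)) _ f.num f.denom hs (fun z hz => by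
    rw [ratFunc_eval_eq, div_mul_cancel₀ _ (hd z hz.le)])
  constructor
  · set qb : ℂ[X] := f.denom.map (starRingEnd ℂ) with hqb
    have hqbe : ∀ z : ℂ, qb.eval z = (starRingEnd ℂ) (f.denom.eval ((starRingEnd ℂ) z)) := by
      intro z
      rw [hqb, eval_map, ← eval₂_id, hom_eval₂]
      simp
    have hQ : f.denom * qb ∈ lifts (algebraMap ℝ ℂ) := by
      rw [lifts_iff_coeff_lifts]
      intro n
      have e : (f.denom * qb).map (starRingEnd ℂ) = f.denom * qb := by
        rw [Polynomial.map_mul, hqb, Polynomial.map_map, mul_comm]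
        have : (starRingEnd ℂ).comp (starRingEnd ℂ) = RingHom.id ℂ := by ext; simp
        rw [this, Polynomial.map_id]
      have e2 := congrArg (fun p => coeff p n) e
      simp only [coeff_map] at e2
      obtain ⟨r, hr⟩ := Complex.conj_eq_iff_real.1 e2
      exact ⟨r, hr.symm⟩
    obtain ⟨Q, hQ⟩ := (mem_lifts _).1 hQ
    have hform2 : PowerSeries.map (algebraMap ℝ ℂ) (PowerSeries.mk c * (Q : PowerSeries ℝ))
        = ((f.num * qb : ℂ[X]) : PowerSeries ℂ) := by
      rw [map_mul, map_mk, map_coe, hQ, Polynomial.coe_mul, Polynomial.coe_mul, ← mul_assoc, hform]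
    have hP : f.num * qb ∈ lifts (algebraMap ℝ ℂ) := by
      rw [lifts_iff_coeff_lifts]
      intro n
      have := congrArg (PowerSeries.coeff n) hform2
      rw [PowerSeries.coeff_map, Polynomial.coeff_coe] at this
      exact ⟨_, this⟩
    obtain ⟨P, hP⟩ := (mem_lifts _).1 hP
    refine ⟨P, Q, ?_, ?_, ?_⟩
    · intro z hz
      rw [aeval_eq_eval_map, hQ, eval_mul, hqbe]
      refine mul_ne_zero (hd z hz) ?_
      simpa using hd _ (by simpa using hz)
    · intro z hz
      rw [aeval_eq_eval_map, aeval_eq_eval_map, hQ, hP, eval_mul, eval_mul, norm_mul, norm_mul]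
      refine mul_le_mul_of_nonneg_right ?_ (norm_nonneg _)
      have := hb z hz
      rw [ratFunc_eval_eq, norm_div, div_le_one (norm_pos_iff.2 (hd z hz.le))] at this
      exact this
    · apply PowerSeries.map_injective (algebraMap ℝ ℂ) (algebraMap ℝ ℂ).injective
      rw [hform2, map_coe, hP]
  · by_contra hcon
    push Not at hcon
    apply hn (c 0)
    have e : (PowerSeries.mk fun n => (c n : ℂ)) = ((C (c 0 : ℂ) : ℂ[X]) : PowerSeries ℂ) := by
      ext n
      rcases Nat.eq_zero_or_pos n with rfl | hn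
      · simp
      · simp [hcon n hn, PowerSeries.coeff_C, hn.ne']
    rw [e, ← Polynomial.coe_mul, Polynomial.coe_inj] at hform
    rw [← RatFunc.num_div_denom f, ← hform, map_mul, mul_div_assoc,
      div_self (by simpa using f.denom_ne_zero), mul_one, RatFunc.algebraMap_C]

theorem inHR_of_sch {c : ℕ → ℝ} (h : Sch c) (hn : ∃ n, 0 < n ∧ c n ≠ 0) : InHR c := by
  obtain ⟨p, q, hq, hpq, hform⟩ := h
  set P : ℂ[X] := p.map (algebraMap ℝ ℂ) with hP
  set Q : ℂ[X] := q.map (algebraMap ℝ ℂ) with hQ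
  have hq' : ∀ z : ℂ, ‖z‖ ≤ 1 → Q.eval z ≠ 0 := fun z hz => by
    rw [hQ, ← aeval_eq_eval_map]; exact hq z hz
  have hQ0 : Q ≠ 0 := by
    intro h0; exact hq' 0 (by simp) (by simp [h0])
  have hform' : PowerSeries.mk (fun n => (c n : ℂ)) * (Q : PowerSeries ℂ) = (P : PowerSeries ℂ) := by
    rw [← map_mk, hQ, hP, ← map_coe, ← map_coe, ← map_mul, hform]
  set f : RatFunc ℂ := algebraMap ℂ[X] (RatFunc ℂ) P / algebraMap ℂ[X] (RatFunc ℂ) Q with hf
  have hdvd : f.denom ∣ Q := RatFunc.denom_div_dvd P Q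
  have hd : ∀ z : ℂ, ‖z‖ ≤ 1 → f.denom.eval z ≠ 0 := fun z hz h0 => by
    obtain ⟨g, hg⟩ := hdvd
    apply hq' z hz
    rw [hg, eval_mul, h0, zero_mul]
  have hcross : f.num * Q = P * f.denom := (RatFunc.num_mul_eq_mul_denom_iff hQ0).2 hf
  have hev : ∀ z : ℂ, ‖z‖ ≤ 1 → f.eval (RingHom.id ℂ) z = P.eval z / Q.eval z := fun z hz => by
    rw [ratFunc_eval_eq, div_eq_div_iff (hd z hz) (hq' z hz), ← eval_mul, ← eval_mul, hcross]
  have hsph : ∀ z : ℂ, ‖z‖ = 1 → ‖P.eval z / Q.eval z‖ ≤ 1 := fun z hz => by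
    rw [norm_div, div_le_one (norm_pos_iff.2 (hq' z hz.le)), hP, hQ, ← aeval_eq_eval_map,
      ← aeval_eq_eval_map]
    exact hpq z hz
  have hdc := diffContOnCl_div P Q hq'
  refine ⟨f, hd, ⟨1, fun r hr0 hr1 => ?_⟩, fun z hz => ?_, ?_, ?_⟩
  · have hb : ∀ t ∈ Set.uIoc (0 : ℝ) 1,
        ‖‖f.eval (RingHom.id ℂ) (r * Complex.exp (2 * Real.pi * Complex.I * t))‖‖ ≤ 1 := by
      intro t _
      have hz : ‖(r : ℂ) * Complex.exp (2 * Real.pi * Complex.I * t)‖ ≤ 1 := by
        have : (2 * Real.pi * Complex.I * t : ℂ) = ((2 * Real.pi * t : ℝ) : ℂ) * Complex.I := by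
          push_cast; ring
        rw [norm_mul, this, Complex.norm_exp_ofReal_mul_I]
        simp [abs_of_pos hr0, hr1.le]
      rw [norm_norm, hev _ hz]
      exact norm_le_one_of_sphere hdc hsph hz
    have := intervalIntegral.norm_integral_le_of_norm_le_const hb
    exact (le_abs_self _).trans (by simpa using this)
  · rw [hev z hz.le]; exact hsph z hz
  · have hps := hdc.hasFPowerSeriesOnBall (R := 1) one_pos
    set ps := cauchyPowerSeries (fun z => P.eval z / Q.eval z) 0 ((1 : NNReal) : ℝ) with hpsd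
    have hs : ∀ z : ℂ, ‖z‖ < 1 →
        HasSum (fun n => ps.coeff n * z ^ n) (P.eval z / Q.eval z) := by
      intro z hz
      have := hps.hasSum (y := z) (by
        have h1 : ‖z‖₊ < 1 := by exact_mod_cast hz
        have h2 : ‖z‖ₑ < 1 := by rw [enorm_eq_nnnorm]; exact_mod_cast h1
        simpa [Metric.mem_eball] using h2)
      simpa [FormalMultilinearSeries.apply_eq_pow_smul_coeff, mul_comm] using this
    have hform2 := formal_of_hasSum _ _ P Q hs (fun z hz => div_mul_cancel₀ _ (hq' z hz.le))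
    have hQ0' : (Q : PowerSeries ℂ) ≠ 0 := by simpa using hQ0
    have heq : PowerSeries.mk (fun n => ps.coeff n) = PowerSeries.mk (fun n => (c n : ℂ)) :=
      mul_right_cancel₀ hQ0' (hform2.trans hform'.symm)
    have heq' : ∀ n, ps.coeff n = (c n : ℂ) := fun n => by
      simpa using congrArg (PowerSeries.coeff n) heq
    intro z hz
    rw [hev z hz.le]
    simpa [heq'] using hs z hz
  · intro w hw
    obtain ⟨n, hn0, hn⟩ := hn
    rw [hw, RatFunc.num_C, RatFunc.denom_C, mul_one] at hcross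
    have hQ0' : (Q : PowerSeries ℂ) ≠ 0 := by simpa using hQ0
    rw [← hcross, Polynomial.coe_mul] at hform'
    have := congrArg (PowerSeries.coeff n) (mul_right_cancel₀ hQ0' hform')
    simp [PowerSeries.coeff_C, hn0.ne', hn] at this

end Pool.Agent.Lib.MP_55068a_an
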