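import Mathlib
import Pool.Agent.Lib.MP_55068a_an.Core

namespace Pool.Agent.Lib.MP_55068a_an

open Polynomial Metric ComplexConjugate

theorem conj_mul_self_of_norm {z : ℂ} (hz : ‖z‖ = 1) : conj z * z = 1 := by
  rw [mul_comm, Complex.mul_conj, Complex.normSq_eq_norm_sq, hz]; simp

theorem ne_zero_of_norm {z : ℂ} (hz : ‖z‖ = 1) : z ≠ 0 := by
  rintro rfl; simp at hz

theorem inv_eq_conj_of_norm {z : ℂ} (hz : ‖z‖ = 1) : z⁻¹ = conj z :=
  inv_eq_of_mul_eq_one_left (conj_mul_self_of_norm hz)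

theorem aeval_reflect (s : ℝ[X]) {N : ℕ} (hs : s.natDegree ≤ N) {z : ℂ} (hz : ‖z‖ = 1) :
    aeval z (reflect N s) = z ^ N * conj (aeval z s) := by
  have h1 := conj_mul_self_of_norm hz
  let _ : Invertible (conj z) := ⟨z, by rw [mul_comm]; exact h1, h1⟩
  have h2 := eval₂_reflect_mul_pow (algebraMap ℝ ℂ) (conj z) N s hs
  have h3 : (⅟(conj z) : ℂ) = z := rfl
  rw [h3, ← aeval_def, ← aeval_def, aeval_conj] at h2
  rw [← h2, mul_comm (aeval z _), ← mul_assoc, ← mul_pow, mul_comm z, h1, one_pow, one_mul]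

theorem norm_aeval_reflect (s : ℝ[X]) {N : ℕ} (hs : s.natDegree ≤ N) {z : ℂ} (hz : ‖z‖ = 1) :
    ‖aeval z (reflect N s)‖ = ‖aeval z s‖ := by
  rw [aeval_reflect s hs hz, norm_mul, norm_pow, hz, one_pow, one_mul, Complex.norm_conj]

theorem differentiable_aeval (p : ℝ[X]) : Differentiable ℂ (fun z : ℂ => aeval z p) := by
  have : (fun z : ℂ => aeval z p) = fun z => (p.map (algebraMap ℝ ℂ)).eval z := by
    ext z; exact aeval_eq_eval_map p z
  rw [this]; exact Polynomial.differentiable _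

theorem diffContOnCl_div' (p q : ℝ[X]) (hq : ∀ z : ℂ, ‖z‖ ≤ 1 → aeval z q ≠ 0) :
    DiffContOnCl ℂ (fun z : ℂ => aeval z p / aeval z q) (ball 0 1) := by
  apply DifferentiableOn.diffContOnCl
  rw [closure_ball _ one_ne_zero]
  intro z hz
  exact ((differentiable_aeval p z).div (differentiable_aeval q z)
    (hq z (by simpa using hz))).differentiableWithinAt

theorem exists_Phi {c : ℕ → ℝ} {p q : ℝ[X]} (hq : ∀ z : ℂ, ‖z‖ ≤ 1 → aeval z q ≠ 0)
    (hform : PowerSeries.mk c * (q : PowerSeries ℝ) = (p : PowerSeries ℝ))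
    (Q T : ℝ[X]) (l : ℕ) :
    ∃ Φ : ℂ → ℂ, DiffContOnCl ℂ Φ (ball 0 1) ∧
      (Φ 0).re = T.coeff l - PowerSeries.coeff l (PowerSeries.mk c * (Q : PowerSeries ℝ)) ∧
      ∀ z : ℂ, ‖z‖ = 1 →
        (Φ z).re = ((aeval z T - aeval z p / aeval z q * aeval z Q) * (z ^ l)⁻¹).re := by
  set g : PowerSeries ℝ := (T : PowerSeries ℝ) - PowerSeries.mk c * (Q : PowerSeries ℝ) with hg
  set G : ℝ[X] := PowerSeries.trunc (l + 1) g with hG
  have hGdeg : G.natDegree ≤ l := Nat.lt_succ_iff.1 (PowerSeries.natDegree_trunc_lt g l)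
  have hdvd : X ^ (l + 1) ∣ T * q - p * Q - q * G := by
    rw [Polynomial.X_pow_dvd_iff]
    have h1 : (PowerSeries.X : PowerSeries ℝ) ^ (l + 1) ∣ g - (G : PowerSeries ℝ) := by
      rw [PowerSeries.X_pow_dvd_iff]
      intro m hm
      simp [hG, PowerSeries.coeff_trunc, hm]
    have h2 : ((T * q - p * Q - q * G : ℝ[X]) : PowerSeries ℝ) = (g - G) * q := by
      simp only [Polynomial.coe_sub, Polynomial.coe_mul, hg]
      rw [← hform]; ring
    have h3 := PowerSeries.X_pow_dvd_iff.1 (h1.mul_right (q : PowerSeries ℝ))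
    intro d hd
    rw [← Polynomial.coeff_coe, h2]
    exact h3 d hd
  obtain ⟨H, hH⟩ := hdvd
  refine ⟨fun z => aeval z (reflect l G) + aeval z (X * H) / aeval z q, ?_, ?_, ?_⟩
  · exact (differentiable_aeval _).diffContOnCl.add (diffContOnCl_div' _ _ hq)
  · have : aeval (0 : ℂ) (reflect l G) = ((G.coeff l : ℝ) : ℂ) := by
      rw [aeval_eq_eval_map, ← coeff_zero_eq_eval_zero]; simp
    simp only [this, map_mul, aeval_X, zero_mul, zero_div, add_zero, Complex.ofReal_re]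
    simp [hG, PowerSeries.coeff_trunc, hg]
  · intro z hz
    have hz0 := ne_zero_of_norm hz
    have hqz := hq z hz.le
    have e1 := congrArg (aeval z) hH
    simp only [map_sub, map_mul, map_pow, aeval_X] at e1
    have e2 : (aeval z T - aeval z p / aeval z q * aeval z Q) * (z ^ l)⁻¹
        = aeval z G * (z ^ l)⁻¹ + aeval z (X * H) / aeval z q := by
      simp only [map_mul, aeval_X]
      field_simp
      linear_combination e1
    rw [e2, Complex.add_re, Complex.add_re, aeval_reflect G hGdeg hz]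
    congr 1
    rw [← Complex.conj_re]
    congr 1
    rw [map_mul, Complex.conj_conj, map_pow, ← inv_eq_conj_of_norm hz, inv_pow, mul_comm]

/-- Dual bound. -/
theorem dual_bound {c : ℕ → ℝ} (hc : Sch c) (Q T : ℝ[X]) (l : ℕ)
    (h : ∀ z : ℂ, ‖z‖ = 1 → ‖aeval z Q‖ ≤ (aeval z T * (z ^ l)⁻¹).re) :
    PowerSeries.coeff l (PowerSeries.mk c * (Q : PowerSeries ℝ)) ≤ T.coeff l := by
  obtain ⟨p, q, hq, hpq, hform⟩ := hc
  obtain ⟨Φ, hΦ, h0, h1⟩ := exists_Phi hq hform Q T l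
  have := re_nonneg_of_sphere hΦ (fun z hz => by
    rw [h1 z hz, sub_mul, Complex.sub_re, sub_nonneg]
    refine le_trans ((Complex.re_le_norm _).trans ?_) (h z hz)
    rw [norm_mul, norm_mul, norm_inv, norm_pow, hz, one_pow, inv_one, mul_one]
    refine mul_le_of_le_one_left (norm_nonneg _) ?_
    rw [norm_div, div_le_one (norm_pos_iff.2 (hq z hz.le))]
    exact hpq z hz) (z := 0) (by simp)
  rw [h0] at this
  linarith

theorem sq_le_of_sphere {h Φ : ℂ → ℂ} (hh : DiffContOnCl ℂ h (ball 0 1))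
    (hΦ : DiffContOnCl ℂ Φ (ball 0 1)) {K : ℝ}
    (hK : ∀ z : ℂ, ‖z‖ = 1 → ‖h z‖ ^ 2 ≤ K * (Φ z).re) {w : ℂ} (hw : ‖w‖ < 1) :
    (1 - ‖w‖) * ‖h w‖ ^ 2 ≤ K * (Φ 0).re := by
  have habs : |(1 : ℝ)| = 1 := abs_one
  set u : ℂ := h w ^ 2 with hu
  have hh2 : DiffContOnCl ℂ (fun z => conj u * h z ^ 2) (ball 0 |(1 : ℝ)|) := by
    rw [habs]
    exact ⟨(hh.1.pow 2).const_mul _, continuousOn_const.mul (hh.2.pow 2)⟩
  have a1 := hh2.circleAverage_smul_div (w := w) (by simpa using hw)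
  have hΦ' : DiffContOnCl ℂ Φ (ball 0 |(1 : ℝ)|) := by rwa [habs]
  have a2 := hΦ'.circleAverage
  have hsub : sphere (0 : ℂ) 1 ⊆ closure (ball 0 1) := by
    rw [closure_ball _ one_ne_zero]; exact sphere_subset_closedBall
  have hne : ∀ z : ℂ, ‖z‖ = 1 → 1 - ‖w‖ ≤ ‖z - w‖ := fun z hz => by
    have := norm_sub_norm_le z w
    linarith
  have k1 : ContinuousOn (fun z => ((z - 0) / (z - w)) • (conj u * h z ^ 2)) (sphere 0 1) := by
    have k0 : ContinuousOn (fun z : ℂ => (z - 0) / (z - w)) (sphere 0 1) := by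
      refine ContinuousOn.div (by fun_prop) (by fun_prop) ?_
      intro z hz h0
      have := hne z (by simpa using hz)
      rw [h0] at this
      simp at this
      linarith
    exact k0.smul (continuousOn_const.mul ((hh.2.mono hsub).pow 2))
  have i1 := ContinuousOn.circleIntegrable zero_le_one k1
  have i2 : CircleIntegrable Φ 0 1 :=
    ContinuousOn.circleIntegrable zero_le_one (hΦ.2.mono hsub)
  have b1 := Complex.reCLM.circleAverage_comp_comm i1
  have b2 := Complex.reCLM.circleAverage_comp_comm i2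
  rw [a1] at b1
  rw [a2] at b2
  have hpos : 0 < 1 - ‖w‖ := by linarith
  have j1 : CircleIntegrable
      (Complex.reCLM ∘ fun z => ((z - 0) / (z - w)) • (conj u * h z ^ 2)) 0 1 :=
    ContinuousOn.circleIntegrable zero_le_one (Complex.reCLM.continuous.comp_continuousOn k1)
  have j2 : CircleIntegrable (Complex.reCLM ∘ Φ) 0 1 :=
    ContinuousOn.circleIntegrable zero_le_one
      (Complex.reCLM.continuous.comp_continuousOn (hΦ.2.mono hsub))
  have j3 : CircleIntegrable ((‖u‖ * K / (1 - ‖w‖)) • (Complex.reCLM ∘ Φ)) 0 1 :=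
    j2.const_smul
  have m := Real.circleAverage_mono j1 j3 (fun z hz => by
    have hz' : ‖z‖ = 1 := by simpa using hz
    simp only [Function.comp, Complex.reCLM_apply, Pi.smul_apply, smul_eq_mul]
    refine (Complex.re_le_norm _).trans ?_
    rw [norm_mul, norm_mul, norm_div, sub_zero, hz', Complex.norm_conj, norm_pow (h z)]
    have h1 := hK z hz'
    have h2 := hne z hz'
    calc 1 / ‖z - w‖ * (‖u‖ * ‖h z‖ ^ 2) ≤ 1 / (1 - ‖w‖) * (‖u‖ * (K * (Φ z).re)) := by
          gcongr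
      _ = _ := by ring)
  rw [b1, Real.circleAverage_smul, b2] at m
  simp only [Complex.reCLM_apply, smul_eq_mul] at m
  rw [← hu, mul_comm (conj u), Complex.mul_conj, Complex.ofReal_re, Complex.normSq_eq_norm_sq]
    at m
  have hun : ‖u‖ = ‖h w‖ ^ 2 := by rw [hu, norm_pow]
  rw [← hun]
  rcases (norm_nonneg u).eq_or_lt with h0 | h0
  · rw [← h0, mul_zero]
    have := re_nonneg_of_sphere (F := fun z => (K : ℂ) * Φ z)
      ⟨hΦ.1.const_mul _, continuousOn_const.mul hΦ.2⟩ (fun z hz => by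
        have := hK z hz
        simp only [Complex.re_ofReal_mul]
        exact le_trans (by positivity) this) (z := 0) (by simp)
    simpa using this
  · have : ‖u‖ * ((1 - ‖w‖) * ‖u‖) ≤ ‖u‖ * (K * (Φ 0).re) := by
      have := mul_le_mul_of_nonneg_left m hpos.le
      calc ‖u‖ * ((1 - ‖w‖) * ‖u‖) = (1 - ‖w‖) * ‖u‖ ^ 2 := by ring
        _ ≤ (1 - ‖w‖) * (‖u‖ * K / (1 - ‖w‖) * (Φ 0).re) := this
        _ = _ := by field_simp
    exact le_of_mul_le_mul_left this h0

theorem le_of_mul_le_sphere (g : ℝ[X]) (hg0 : g ≠ 0) {N1 D1 : ℝ[X]}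
    (hND : ∀ z : ℂ, ‖z‖ = 1 → ‖aeval z (g * N1)‖ ≤ ‖aeval z (g * D1)‖) :
    ∀ z : ℂ, ‖z‖ = 1 → ‖aeval z N1‖ ≤ ‖aeval z D1‖ := by
  have hcount : (circleMap 0 1 ⁻¹' (g.rootSet ℂ)).Countable :=
    (g.rootSet_finite ℂ).countable.preimage_circleMap 0 one_ne_zero
  have hdense := hcount.dense_compl ℝ
  have hclosed : IsClosed {t : ℝ | ‖aeval (circleMap 0 1 t) N1‖ ≤ ‖aeval (circleMap 0 1 t) D1‖} :=
    isClosed_le
      (((differentiable_aeval N1).continuous.comp (continuous_circleMap 0 1)).norm)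
      (((differentiable_aeval D1).continuous.comp (continuous_circleMap 0 1)).norm)
  have hsub : (circleMap 0 1 ⁻¹' (g.rootSet ℂ))ᶜ ⊆
      {t : ℝ | ‖aeval (circleMap 0 1 t) N1‖ ≤ ‖aeval (circleMap 0 1 t) D1‖} := by
    intro t ht
    have ht' : aeval (circleMap 0 1 t) g ≠ 0 := by
      intro h0
      exact ht (mem_rootSet.2 ⟨hg0, h0⟩)
    have := hND (circleMap 0 1 t) (by simp)
    rw [map_mul, map_mul, norm_mul, norm_mul] at this
    exact le_of_mul_le_mul_left this (norm_pos_iff.2 ht')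
  have hall := hclosed.closure_subset_iff.2 hsub
  rw [hdense.closure_eq] at hall
  intro z hz
  have hz' : z ∈ Set.range (circleMap 0 1) := by
    rw [range_circleMap]; simpa using hz
  obtain ⟨t, rfl⟩ := hz'
  exact hall (Set.mem_univ t)

/-- Attainment, with cancellation of common zeros on the unit circle. -/
theorem exists_sch (N D : ℝ[X]) (hD : ∀ z : ℂ, ‖z‖ < 1 → aeval z D ≠ 0)
    (hND : ∀ z : ℂ, ‖z‖ = 1 → ‖aeval z N‖ ≤ ‖aeval z D‖) :
    ∃ c : ℕ → ℝ, Sch c ∧ PowerSeries.mk c * (D : PowerSeries ℝ) = (N : PowerSeries ℝ) := by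
  classical
  have hD0 : D ≠ 0 := by
    rintro rfl; exact hD 0 (by simp) (by simp)
  set g := EuclideanDomain.gcd N D with hg
  have hg0 : g ≠ 0 := by
    intro h; exact hD0 (EuclideanDomain.gcd_eq_zero_iff.1 h).2
  obtain ⟨N1, hN1⟩ : g ∣ N := EuclideanDomain.gcd_dvd_left N D
  obtain ⟨D1, hD1⟩ : g ∣ D := EuclideanDomain.gcd_dvd_right N D
  have hcop : IsCoprime N1 D1 := by
    refine ⟨EuclideanDomain.gcdA N D, EuclideanDomain.gcdB N D, mul_left_cancel₀ hg0 ?_⟩
    have := EuclideanDomain.gcd_eq_gcd_ab N D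
    rw [← hg] at this
    rw [mul_one]
    conv_rhs => rw [this]
    conv_rhs => rw [hN1, hD1]
    rw [← hN1, ← hD1]
    linear_combination (EuclideanDomain.gcdA N D) * (-hN1) + (EuclideanDomain.gcdB N D) * (-hD1)
  have hle : ∀ z : ℂ, ‖z‖ = 1 → ‖aeval z N1‖ ≤ ‖aeval z D1‖ :=
    le_of_mul_le_sphere g hg0 (by rw [← hN1, ← hD1]; exact hND)
  have hD1ne : ∀ z : ℂ, ‖z‖ ≤ 1 → aeval z D1 ≠ 0 := by
    intro z hz h0
    rcases hz.eq_or_lt with h1 | h1
    · have h2 := hle z h1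
      rw [h0, norm_zero, norm_le_zero_iff] at h2
      obtain ⟨a, b, hab⟩ := hcop
      have := congrArg (aeval z) hab
      simp [h0, h2] at this
    · apply hD z h1
      rw [hD1, map_mul, h0, mul_zero]
  have hc0 : PowerSeries.constantCoeff (D1 : PowerSeries ℝ) ≠ 0 := by
    intro h0
    apply hD1ne 0 (by simp)
    rw [aeval_eq_eval_map, ← coeff_zero_eq_eval_zero]
    simpa using h0
  have hmk : PowerSeries.mk (fun n => PowerSeries.coeff n
      ((N1 : PowerSeries ℝ) * (D1 : PowerSeries ℝ)⁻¹)) * (D1 : PowerSeries ℝ) = N1 := by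
    have : PowerSeries.mk (fun n => PowerSeries.coeff n
      ((N1 : PowerSeries ℝ) * (D1 : PowerSeries ℝ)⁻¹)) =
        (N1 : PowerSeries ℝ) * (D1 : PowerSeries ℝ)⁻¹ := by ext n; simp
    rw [this, mul_assoc, PowerSeries.inv_mul_cancel _ hc0, mul_one]
  refine ⟨_, ⟨N1, D1, hD1ne, hle, hmk⟩, ?_⟩
  rw [hN1, hD1, Polynomial.coe_mul, Polynomial.coe_mul, mul_left_comm, hmk]

end Pool.Agent.Lib.MP_55068a_an
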