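import Mathlib
import Pool.Agent.Lib.MP_55068a_an.Dual

namespace Pool.Agent.Lib.MP_55068a_an

open Polynomial Metric ComplexConjugate

theorem coeff_three (c : ℕ → ℝ) (Q : PowerSeries ℝ) {k m l : ℕ} (hk : 0 < k) (hm : 0 < m)
    (hl : m + k = l) (h0 : PowerSeries.coeff 0 Q = 1)
    (hz : ∀ j, 0 < j → j < l → j ≠ m → PowerSeries.coeff j Q = 0) :
    PowerSeries.coeff l (PowerSeries.mk c * Q)
      = c l + PowerSeries.coeff m Q * c k + PowerSeries.coeff l Q * c 0 := by
  have h1 : (PowerSeries.X : PowerSeries ℝ) ^ (l + 1) ∣ Q - (1 +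
      PowerSeries.C (PowerSeries.coeff m Q) * PowerSeries.X ^ m +
      PowerSeries.C (PowerSeries.coeff l Q) * PowerSeries.X ^ l) := by
    rw [PowerSeries.X_pow_dvd_iff]
    intro j hj
    simp only [map_sub, map_add, PowerSeries.coeff_one, PowerSeries.coeff_C_mul,
      PowerSeries.coeff_X_pow]
    by_cases j0 : j = 0
    · subst j0
      rw [if_pos rfl, if_neg (by omega), if_neg (by omega), h0]; ring
    by_cases jm : j = m
    · subst jm
      rw [if_neg j0, if_pos rfl, if_neg (by omega)]; ring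
    by_cases jl : j = l
    · subst jl
      rw [if_neg j0, if_neg jm, if_pos rfl]; ring
    rw [if_neg j0, if_neg jm, if_neg jl, hz j (by omega) (by omega) jm]; ring
  obtain ⟨H, hH⟩ := h1
  have h2 : PowerSeries.mk c * Q = PowerSeries.mk c +
      PowerSeries.C (PowerSeries.coeff m Q) * (PowerSeries.mk c * PowerSeries.X ^ m) +
      PowerSeries.C (PowerSeries.coeff l Q) * (PowerSeries.mk c * PowerSeries.X ^ l) +
      (PowerSeries.mk c * H) * PowerSeries.X ^ (l + 1) := by
    linear_combination (PowerSeries.mk c) * hH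
  rw [h2]
  simp only [map_add, PowerSeries.coeff_C_mul, PowerSeries.coeff_mul_X_pow', PowerSeries.coeff_mk]
  rw [if_pos (by omega), if_pos le_rfl, if_neg (by omega), Nat.sub_self,
    show l - m = k by omega, add_zero]

theorem cert_bound {c : ℕ → ℝ} (hc : Sch c) (s R : ℝ[X]) {n r l : ℕ} (hn : s.natDegree ≤ n)
    (hl : n + r = l) {ε : ℝ} (hε : |ε| = 1)
    (hR : ∀ z : ℂ, ‖z‖ = 1 → ∃ ρ : ℝ, 0 ≤ ρ ∧ (ε : ℂ) * aeval z R = ρ * z ^ r) :
    PowerSeries.coeff l (PowerSeries.mk c * ((R * s ^ 2 : ℝ[X]) : PowerSeries ℝ))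
      ≤ (C ε * reflect n s * (R * s)).coeff l := by
  apply dual_bound hc
  intro z hz
  obtain ⟨ρ, hρ, h⟩ := hR z hz
  have hz0 := ne_zero_of_norm hz
  have e1 : aeval z (C ε * reflect n s * (R * s)) * (z ^ l)⁻¹
      = ((ρ * ‖aeval z s‖ ^ 2 : ℝ) : ℂ) := by
    simp only [map_mul, aeval_C, aeval_reflect s hn hz]
    rw [← hl, pow_add]
    push_cast
    rw [← Complex.conj_mul']
    have : (algebraMap ℝ ℂ) ε = (ε : ℂ) := rfl
    rw [this]
    field_simp
    linear_combination (conj (aeval z s) * aeval z s) * h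
  rw [e1, Complex.ofReal_re, map_mul, map_pow, norm_mul, norm_pow]
  have e2 := congrArg norm h
  rw [norm_mul, norm_mul, norm_pow, hz, one_pow, mul_one, Complex.norm_real, Complex.norm_real,
    Real.norm_eq_abs, Real.norm_eq_abs, hε, one_mul, abs_of_nonneg hρ] at e2
  rw [e2]

theorem cert_eq {c : ℕ → ℝ} (s R : ℝ[X]) {n : ℕ} {ε : ℝ}
    (h : PowerSeries.mk c * (s : PowerSeries ℝ) = ((C ε * reflect n s : ℝ[X]) : PowerSeries ℝ))
    (l : ℕ) :
    PowerSeries.coeff l (PowerSeries.mk c * ((R * s ^ 2 : ℝ[X]) : PowerSeries ℝ))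
      = (C ε * reflect n s * (R * s)).coeff l := by
  rw [← Polynomial.coeff_coe, Polynomial.coe_mul (C ε * reflect n s), ← h]
  congr 1
  simp only [Polynomial.coe_mul, Polynomial.coe_pow]
  ring

/-- The rational function `s*/s` has no pole in the open unit disc. -/
theorem exists_of_poleFree (s : ℝ[X]) {n : ℕ} (hn : s.natDegree ≤ n) (hs : s ≠ 0)
    (h : ∀ z : ℂ, ‖z‖ < 1 → aeval z (algebraMap ℝ[X] (RatFunc ℝ) (reflect n s) /
      algebraMap ℝ[X] (RatFunc ℝ) s).denom ≠ 0) :
    ∃ c : ℕ → ℝ, Sch c ∧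
      PowerSeries.mk c * (s : PowerSeries ℝ) = ((reflect n s : ℝ[X]) : PowerSeries ℝ) := by
  set f := algebraMap ℝ[X] (RatFunc ℝ) (reflect n s) / algebraMap ℝ[X] (RatFunc ℝ) s with hf
  have hcross : f.num * s = reflect n s * f.denom := (RatFunc.num_mul_eq_mul_denom_iff hs).2 hf
  obtain ⟨g, hg⟩ : f.denom ∣ s := RatFunc.denom_div_dvd _ _
  have hN : reflect n s = f.num * g := by
    apply mul_right_cancel₀ f.denom_ne_zero
    rw [← hcross]; conv_lhs => rw [hg]
    ring
  have hg0 : g ≠ 0 := by rintro rfl; simp at hg; exact hs hg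
  have hle : ∀ z : ℂ, ‖z‖ = 1 → ‖aeval z f.num‖ ≤ ‖aeval z f.denom‖ := by
    apply le_of_mul_le_sphere g hg0
    intro z hz
    rw [mul_comm g, mul_comm g, ← hN, ← hg, norm_aeval_reflect s hn hz]
  obtain ⟨c, hc, hform⟩ := exists_sch f.num f.denom h hle
  refine ⟨c, hc, ?_⟩
  rw [hN]
  conv_lhs => rw [hg]
  rw [Polynomial.coe_mul, Polynomial.coe_mul, ← mul_assoc, hform]

theorem gap_of_pole (s : ℝ[X]) {l : ℕ} (hn : s.natDegree ≤ l) (hs : s ≠ 0) {w : ℂ} (hw : ‖w‖ < 1)
    (h : aeval w (algebraMap ℝ[X] (RatFunc ℝ) (reflect l s) /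
      algebraMap ℝ[X] (RatFunc ℝ) s).denom = 0) :
    ∃ δ : ℝ, 0 < δ ∧ ∀ c : ℕ → ℝ, Sch c →
      PowerSeries.coeff l (PowerSeries.mk c * ((s ^ 2 : ℝ[X]) : PowerSeries ℝ)) + δ
        ≤ (reflect l s * s).coeff l := by
  set f := algebraMap ℝ[X] (RatFunc ℝ) (reflect l s) / algebraMap ℝ[X] (RatFunc ℝ) s with hf
  have hcross : f.num * s = reflect l s * f.denom := (RatFunc.num_mul_eq_mul_denom_iff hs).2 hf
  obtain ⟨g, hg⟩ : f.denom ∣ s := RatFunc.denom_div_dvd _ _
  have hN : reflect l s = f.num * g := by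
    apply mul_right_cancel₀ f.denom_ne_zero
    rw [← hcross]; conv_lhs => rw [hg]
    ring
  have hg0 : g ≠ 0 := by rintro rfl; simp at hg; exact hs hg
  have hNw : aeval w f.num ≠ 0 := by
    intro h0
    obtain ⟨a, b, hab⟩ := RatFunc.isCoprime_num_denom f
    have := congrArg (aeval w) hab
    simp [h0, h] at this
  have hgc : g.map (algebraMap ℝ ℂ) ≠ 0 := by simpa using hg0
  obtain ⟨g1, hg1, hg1'⟩ := exists_eq_pow_rootMultiplicity_mul_and_not_dvd _ hgc w
  set ν := rootMultiplicity w (g.map (algebraMap ℝ ℂ))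
  have hg1w : g1.eval w ≠ 0 := by rwa [dvd_iff_isRoot] at hg1'
  have hpos : 0 < 1 - ‖w‖ := by linarith
  set K : ℝ := 2 / (1 - ‖w‖) ^ (2 * ν) with hK
  have hKpos : 0 < K := by positivity
  refine ⟨(1 - ‖w‖) * ‖g1.eval w * aeval w f.num‖ ^ 2 / K, ?_, ?_⟩
  · have : 0 < ‖g1.eval w * aeval w f.num‖ := norm_pos_iff.2 (mul_ne_zero hg1w hNw)
    positivity
  rintro c ⟨p, q, hq, hpq, hform⟩
  obtain ⟨Φ, hΦ, h0, h1⟩ := exists_Phi hq hform (s ^ 2) (reflect l s * s) l
  have hh : DiffContOnCl ℂ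
      (fun z : ℂ => g1.eval z * (aeval z p / aeval z q * aeval z f.denom - aeval z f.num))
      (ball 0 1) := by
    have d1 := diffContOnCl_div' p q hq
    have d2 := differentiable_aeval f.denom
    have d3 := differentiable_aeval f.num
    exact ⟨g1.differentiable.differentiableOn.mul
        ((d1.1.mul d2.differentiableOn).sub d3.differentiableOn),
      g1.differentiable.continuous.continuousOn.mul
        ((d1.2.mul d2.continuous.continuousOn).sub d3.continuous.continuousOn)⟩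
  have key := sq_le_of_sphere hh hΦ (K := K) (fun z hz => by
    rw [h1 z hz]
    set F := aeval z p / aeval z q with hF
    have hF1 : ‖F‖ ≤ 1 := by
      rw [hF, norm_div, div_le_one (norm_pos_iff.2 (hq z hz.le))]; exact hpq z hz
    set S := aeval z s with hS
    have hz0 := ne_zero_of_norm hz
    have e1 : (aeval z (reflect l s * s) - F * aeval z (s ^ 2)) * (z ^ l)⁻¹
        = ((Complex.normSq S : ℝ) : ℂ) - F * S * conj (aeval z (reflect l s)) := by
      rw [map_mul, map_pow, aeval_reflect s hn hz, ← hS, map_mul, map_pow, Complex.conj_conj,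
        ← inv_eq_conj_of_norm hz, Complex.normSq_eq_conj_mul_self, inv_pow]
      field_simp
    have e2 : Complex.normSq (F * S - aeval z (reflect l s))
        ≤ 2 * (((Complex.normSq S : ℝ) : ℂ) - F * S * conj (aeval z (reflect l s))).re := by
      rw [Complex.normSq_sub, Complex.sub_re, Complex.ofReal_re, Complex.normSq_mul,
        Complex.normSq_eq_norm_sq (aeval z (reflect l s)), norm_aeval_reflect s hn hz, ← hS,
        ← Complex.normSq_eq_norm_sq]
      have : Complex.normSq F ≤ 1 := by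
        rw [Complex.normSq_eq_norm_sq]; exact pow_le_one₀ (norm_nonneg _) hF1
      nlinarith [Complex.normSq_nonneg S]
    have e3 : F * S - aeval z (reflect l s)
        = (z - w) ^ ν * (g1.eval z * (F * aeval z f.denom - aeval z f.num)) := by
      have e4 : aeval z g = (z - w) ^ ν * g1.eval z := by
        rw [aeval_eq_eval_map, hg1]; simp
      rw [hN, hS]
      conv_lhs => rw [hg]
      rw [map_mul, map_mul, e4]; ring
    rw [e1]
    rw [e3, Complex.normSq_eq_norm_sq, norm_mul, norm_pow, mul_pow] at e2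
    have e5 : 1 - ‖w‖ ≤ ‖z - w‖ := by
      have := norm_sub_norm_le z w
      linarith
    have e6 : (1 - ‖w‖) ^ (2 * ν) ≤ (‖z - w‖ ^ ν) ^ 2 := by
      rw [← pow_mul, mul_comm ν 2]; gcongr
    change ‖g1.eval z * (F * aeval z f.denom - aeval z f.num)‖ ^ 2 ≤ _
    rw [hK, div_mul_eq_mul_div 2, le_div_iff₀ (by positivity)]
    refine le_trans ?_ e2
    rw [mul_comm]; gcongr) hw
  rw [h, mul_zero, zero_sub, mul_neg, norm_neg, h0] at key
  rw [← le_sub_iff_add_le', div_le_iff₀ hKpos, mul_comm _ K]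
  exact key

end Pool.Agent.Lib.MP_55068a_an
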