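import Mathlib
import Pool.Agent.Lib.MP_55068a_an.Defs

namespace Pool.Agent.Lib.MP_55068a_an

open Polynomial

/-- The finite algebraic system that characterises the extremal values. -/
def Extremal (k l : ℕ) (a b x : ℝ) (R : ℝ[X]) : Prop :=
  ∃ (n r : ℕ) (ε : ℝ) (s : ℝ[X]), n + r = l ∧ (ε = 1 ∨ ε = -1) ∧
    s.natDegree ≤ n ∧ s.coeff 0 = 1 ∧ (∀ z : ℂ, ‖z‖ ≤ 1 → aeval z s ≠ 0) ∧
    R ≠ 0 ∧ R.natDegree ≤ 2 * r ∧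
    (∀ z : ℂ, ‖z‖ = 1 → ∃ ρ : ℝ, 0 ≤ ρ ∧ (ε : ℂ) * aeval z R = ρ * z ^ r) ∧
    (∀ j, 0 < j → j < l → j ≠ l - k → (R * s ^ 2).coeff j = 0) ∧
    PowerSeries.coeff 0 (((C ε * reflect n s : ℝ[X]) : PowerSeries ℝ) * (s : PowerSeries ℝ)⁻¹) = a ∧
    PowerSeries.coeff k (((C ε * reflect n s : ℝ[X]) : PowerSeries ℝ) * (s : PowerSeries ℝ)⁻¹) = b ∧
    PowerSeries.coeff l (((C ε * reflect n s : ℝ[X]) : PowerSeries ℝ) * (s : PowerSeries ℝ)⁻¹) = x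

end Pool.Agent.Lib.MP_55068a_an
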