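import Mathlib
import Pool.Agent.Lib.MP_55068a_an.Defs

namespace Pool.Agent.Lib.MP_55068a_an

open Polynomial

/-- `s(z) = ∑_{j ≥ 0, (l-k) j < l} binom(1/2, j) u^j z^((l-k) j) + a z^l`. -/
noncomputable def sPoly (k l : ℕ) (a u : ℝ) : ℝ[X] :=
  ∑ j ∈ (Finset.range l).filter (fun j => (l - k) * j < l),
    C (Ring.choose (1 / 2 : ℝ) j * u ^ j) * X ^ ((l - k) * j) + C a * X ^ l

/-- `h(u) = ∑_{j ≥ 0, (l-k) j < l} binom(1/2, j)^2 u^(2j) + [l-k ∣ l] 2 a binom(1/2, J) u^J - a^2`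
with `J = l / (l-k)`. -/
noncomputable def hFun (k l : ℕ) (a u : ℝ) : ℝ :=
  ∑ j ∈ (Finset.range l).filter (fun j => (l - k) * j < l),
      (Ring.choose (1 / 2 : ℝ) j * u ^ j) ^ 2
    + (if (l - k) ∣ l then 2 * a * (Ring.choose (1 / 2 : ℝ) (l / (l - k)) * u ^ (l / (l - k)))
        else 0)
    - a ^ 2

/-- The rational function `z^n s(1/z) / s(z)` has no pole in the open unit disc. -/
def PoleFree (n : ℕ) (s : ℝ[X]) : Prop :=
  ∀ z : ℂ, ‖z‖ < 1 →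
    aeval z (algebraMap ℝ[X] (RatFunc ℝ) (reflect n s) / algebraMap ℝ[X] (RatFunc ℝ) s).denom ≠ 0

end Pool.Agent.Lib.MP_55068a_an
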