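import Mathlib
import Pool.Agent.Lib.MP_55068a_an.Cert
import Pool.Agent.Lib.MP_55068a_an.DefsMain

namespace Pool.Agent.Lib.MP_55068a_an

open Polynomial Metric ComplexConjugate

theorem Sch.neg {c : ℕ → ℝ} (h : Sch c) : Sch (fun n => - c n) := by
  obtain ⟨p, q, hq, hpq, hform⟩ := h
  refine ⟨-p, q, hq, fun z hz => by simpa using hpq z hz, ?_⟩
  have : PowerSeries.mk (fun n => - c n) = - PowerSeries.mk c := by ext n; simp
  rw [this, neg_mul, hform, Polynomial.coe_neg]

theorem inHR_iff {c : ℕ → ℝ} : InHR c ↔ Sch c ∧ ∃ n, 0 < n ∧ c n ≠ 0 :=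
  ⟨sch_of_inHR, fun h => inHR_of_sch h.1 h.2⟩

theorem InHR.neg {c : ℕ → ℝ} (h : InHR c) : InHR (fun n => - c n) := by
  rw [inHR_iff] at h ⊢
  obtain ⟨h1, n, hn, h2⟩ := h
  exact ⟨h1.neg, n, hn, neg_ne_zero.2 h2⟩

theorem vals_neg (k l : ℕ) (a b : ℝ) : Vals k l (-a) (-b) = - Vals k l a b := by
  ext x
  constructor
  · rintro ⟨c, hc, h0, hk, hl⟩
    exact ⟨_, hc.neg, by simp [h0], by simp [hk], by simp [hl]⟩
  · rintro ⟨c, hc, h0, hk, hl⟩
    exact ⟨_, hc.neg, by simp [h0], by simp [hk], by simp [hl]⟩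

theorem isGLB_vals_neg (k l : ℕ) (a b x : ℝ) :
    IsGLB (Vals k l (-a) (-b)) (-x) ↔ IsLUB (Vals k l a b) x := by
  rw [vals_neg, isGLB_neg']

/-- The series `(1 + u X^m)^(1/2)`. -/
noncomputable def sqrtSeries (m : ℕ) (hm : m ≠ 0) (u : ℝ) : PowerSeries ℝ :=
  PowerSeries.expand m hm (PowerSeries.rescale u (PowerSeries.binomialSeries ℝ (1 / 2 : ℝ)))

theorem coeff_sqrtSeries (m : ℕ) (hm : m ≠ 0) (u : ℝ) (n : ℕ) :
    PowerSeries.coeff n (sqrtSeries m hm u)
      = if m ∣ n then Ring.choose (1 / 2 : ℝ) (n / m) * u ^ (n / m) else 0 := by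
  rw [sqrtSeries, PowerSeries.coeff_expand]
  split_ifs
  · simp [mul_comm]
  · rfl

theorem sqrtSeries_sq (m : ℕ) (hm : m ≠ 0) (u : ℝ) :
    sqrtSeries m hm u ^ 2 = 1 + PowerSeries.C u * PowerSeries.X ^ m := by
  rw [sqrtSeries, ← map_pow, ← map_pow, pow_two, ← PowerSeries.binomialSeries_add]
  have : (1 / 2 + 1 / 2 : ℝ) = ((1 : ℕ) : ℝ) := by norm_num
  rw [this, PowerSeries.binomialSeries_nat, pow_one, map_add, map_one, PowerSeries.rescale_X,
    map_add, map_one, map_mul, PowerSeries.expand_C, PowerSeries.expand_X]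

theorem coeff_sPoly {k l : ℕ} (hkl : k < l) (a u : ℝ) (n : ℕ) :
    (sPoly k l a u).coeff n = if n < l then
      PowerSeries.coeff n (sqrtSeries (l - k) (by omega) u) else if n = l then a else 0 := by
  rw [sPoly, coeff_add, finsetSum_coeff, coeff_sqrtSeries]
  simp only [coeff_C_mul_X_pow]
  have hm : 0 < l - k := by omega
  by_cases hn : n < l
  · rw [if_pos hn, if_neg hn.ne, add_zero]
    by_cases hd : (l - k) ∣ n
    · obtain ⟨j, rfl⟩ := hd
      rw [if_pos (dvd_mul_right _ _), Nat.mul_div_cancel_left _ hm, Finset.sum_eq_single j]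
      · simp
      · intro i _ hij
        rw [if_neg]
        intro h
        exact hij (Nat.eq_of_mul_eq_mul_left hm h).symm
      · intro hj
        exfalso
        apply hj
        simp only [Finset.mem_filter, Finset.mem_range]
        exact ⟨lt_of_le_of_lt (Nat.le_mul_of_pos_left j hm) hn, hn⟩
    · rw [if_neg hd]
      apply Finset.sum_eq_zero
      intro i _
      rw [if_neg]
      rintro rfl
      exact hd (dvd_mul_right _ _)
  · rw [if_neg hn, Finset.sum_eq_zero, zero_add]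
    intro i hi
    rw [if_neg]
    rintro rfl
    exact hn (Finset.mem_filter.1 hi).2

theorem natDegree_sPoly {k l : ℕ} (hkl : k < l) (a u : ℝ) : (sPoly k l a u).natDegree ≤ l := by
  rw [natDegree_le_iff_coeff_eq_zero]
  intro n hn
  rw [coeff_sPoly hkl, if_neg (by omega), if_neg (by omega)]

theorem coeff_zero_sPoly {k l : ℕ} (hkl : k < l) (a u : ℝ) : (sPoly k l a u).coeff 0 = 1 := by
  rw [coeff_sPoly hkl, if_pos (by omega), coeff_sqrtSeries]; simp

theorem coeff_top_sPoly {k l : ℕ} (hkl : k < l) (a u : ℝ) : (sPoly k l a u).coeff l = a := by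
  rw [coeff_sPoly hkl, if_neg (by omega), if_pos rfl]

theorem sPoly_ne_zero {k l : ℕ} (hkl : k < l) (a u : ℝ) : sPoly k l a u ≠ 0 := by
  intro h
  have := coeff_zero_sPoly hkl a u
  rw [h] at this
  simp at this

theorem coeff_reflect_mul (s : ℝ[X]) {l i : ℕ} (hi : i ≤ l) (p : ℝ) :
    (reflect l s * (C p * X ^ i)).coeff l = p * s.coeff i := by
  rw [mul_left_comm, coeff_C_mul, coeff_mul_X_pow', if_pos hi, coeff_reflect,
    revAt_le (Nat.sub_le _ _), Nat.sub_sub_self hi]

theorem norm_sPoly {k l : ℕ} (hkl : k < l) (a u : ℝ) :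
    (reflect l (sPoly k l a u) * sPoly k l a u).coeff l
      = ∑ j ∈ (Finset.range l).filter (fun j => (l - k) * j < l),
        (Ring.choose (1 / 2 : ℝ) j * u ^ j) ^ 2 + a ^ 2 := by
  have hm : 0 < l - k := by omega
  conv_lhs => arg 1; arg 2; rw [sPoly]
  rw [mul_add, Finset.mul_sum, coeff_add, finsetSum_coeff, coeff_reflect_mul _ le_rfl,
    coeff_top_sPoly hkl, ← pow_two]
  congr 1
  apply Finset.sum_congr rfl
  intro j hj
  have hj' := (Finset.mem_filter.1 hj).2
  rw [coeff_reflect_mul _ hj'.le, coeff_sPoly hkl, if_pos hj', coeff_sqrtSeries,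
    if_pos (dvd_mul_right _ _), Nat.mul_div_cancel_left _ hm, pow_two]

theorem coeff_mul_sPoly_sq {k l : ℕ} (hk : 0 < k) (hkl : k < l) (a u : ℝ) (c : ℕ → ℝ) :
    PowerSeries.coeff l (PowerSeries.mk c * ((sPoly k l a u ^ 2 : ℝ[X]) : PowerSeries ℝ))
      = c l + u * c k + 2 * (a - if (l - k) ∣ l then
          Ring.choose (1 / 2 : ℝ) (l / (l - k)) * u ^ (l / (l - k)) else 0) * c 0 := by
  have hm : l - k ≠ 0 := by omega
  set W := sqrtSeries (l - k) hm u with hW
  set δ := PowerSeries.coeff l W with hδ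
  have hδ' : δ = if (l - k) ∣ l then
      Ring.choose (1 / 2 : ℝ) (l / (l - k)) * u ^ (l / (l - k)) else 0 := by
    rw [hδ, hW, coeff_sqrtSeries]
  rw [← hδ']
  have h1 : (PowerSeries.X : PowerSeries ℝ) ^ (l + 1) ∣ (sPoly k l a u : PowerSeries ℝ) -
      (W + PowerSeries.C (a - δ) * PowerSeries.X ^ l) := by
    rw [PowerSeries.X_pow_dvd_iff]
    intro j hj
    rw [map_sub, map_add, Polynomial.coeff_coe, coeff_sPoly hkl, PowerSeries.coeff_C_mul,
      PowerSeries.coeff_X_pow]
    by_cases h : j < l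
    · rw [if_pos h, if_neg h.ne]; simp [hW]
    · have : j = l := by omega
      subst this
      rw [if_neg h, if_pos rfl, if_pos rfl]; simp [hδ]
  obtain ⟨H, hH⟩ := h1
  have h2 : (PowerSeries.X : PowerSeries ℝ) ∣ W - 1 := by
    rw [PowerSeries.X_dvd_iff, ← PowerSeries.coeff_zero_eq_constantCoeff_apply, map_sub, hW,
      coeff_sqrtSeries]
    simp
  obtain ⟨W1, hW1⟩ := h2
  have hW2 := sqrtSeries_sq (l - k) hm u
  rw [← hW] at hW2
  obtain ⟨l', hl'⟩ : ∃ l', l = l' + 1 := ⟨l - 1, by omega⟩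
  have h3 : ∃ H' : PowerSeries ℝ, ((sPoly k l a u ^ 2 : ℝ[X]) : PowerSeries ℝ)
      = 1 + PowerSeries.C u * PowerSeries.X ^ (l - k)
        + PowerSeries.C (2 * (a - δ)) * PowerSeries.X ^ l + H' * PowerSeries.X ^ (l + 1) := by
    refine ⟨2 * PowerSeries.C (a - δ) * W1 + PowerSeries.C (a - δ) ^ 2 * PowerSeries.X ^ l'
      + 2 * (W + PowerSeries.C (a - δ) * PowerSeries.X ^ l) * H + PowerSeries.X ^ (l + 1) * H ^ 2,
      ?_⟩
    have e0 : (sPoly k l a u : PowerSeries ℝ) = W + PowerSeries.C (a - δ) * PowerSeries.X ^ l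
        + PowerSeries.X ^ (l + 1) * H := by linear_combination hH
    have e1 : (PowerSeries.X : PowerSeries ℝ) ^ l = PowerSeries.X ^ l' * PowerSeries.X := by
      rw [hl', pow_succ]
    have e2 : (PowerSeries.C (2 * (a - δ)) : PowerSeries ℝ) = 2 * PowerSeries.C (a - δ) := by
      rw [map_mul]; rfl
    rw [Polynomial.coe_pow, e0, ← hW2, e2, pow_succ PowerSeries.X l]
    linear_combination (2 * PowerSeries.C (a - δ) * PowerSeries.X ^ l) * hW1
      + (PowerSeries.C (a - δ) ^ 2 * PowerSeries.X ^ l) * e1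
  obtain ⟨H', hH'⟩ := h3
  have hco : ∀ j, j ≤ l → PowerSeries.coeff j ((sPoly k l a u ^ 2 : ℝ[X]) : PowerSeries ℝ)
      = (if j = 0 then 1 else 0) + u * (if j = l - k then 1 else 0)
        + 2 * (a - δ) * (if j = l then 1 else 0) := by
    intro j hj
    rw [hH']
    rw [map_add, map_add, map_add, PowerSeries.coeff_one, PowerSeries.coeff_C_mul,
      PowerSeries.coeff_C_mul, PowerSeries.coeff_X_pow, PowerSeries.coeff_X_pow,
      PowerSeries.coeff_mul_X_pow', if_neg (by omega : ¬ l + 1 ≤ j), add_zero]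
  rw [coeff_three c _ hk (Nat.pos_of_ne_zero hm) (by omega : l - k + k = l)]
  · rw [hco _ (Nat.sub_le _ _), hco _ le_rfl, if_neg hm, if_pos rfl, if_neg (by omega),
      if_neg (by omega), if_neg (by omega), if_pos rfl]
    ring
  · rw [hco 0 (Nat.zero_le _), if_pos rfl, if_neg (by omega), if_neg (by omega)]; ring
  · intro j h0 hl hj
    rw [hco j hl.le, if_neg (by omega), if_neg hj, if_neg (by omega)]; ring

theorem main_identity {k l : ℕ} (hk : 0 < k) (hkl : k < l) (u : ℝ) (c : ℕ → ℝ) :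
    (reflect l (sPoly k l (c 0) u) * sPoly k l (c 0) u).coeff l -
      PowerSeries.coeff l (PowerSeries.mk c * ((sPoly k l (c 0) u ^ 2 : ℝ[X]) : PowerSeries ℝ))
      = hFun k l (c 0) u - u * c k - c l := by
  rw [norm_sPoly hkl, coeff_mul_sPoly_sq hk hkl, hFun]
  split_ifs <;> ring

theorem main_bound {k l : ℕ} (hk : 0 < k) (hkl : k < l) (u : ℝ) {c : ℕ → ℝ} (hc : Sch c) :
    c l ≤ hFun k l (c 0) u - u * c k := by
  have h1 := cert_bound hc (sPoly k l (c 0) u) 1 (natDegree_sPoly hkl _ _) (add_zero l)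
    (ε := 1) abs_one (fun z _ => ⟨1, zero_le_one, by simp⟩)
  have h2 := main_identity hk hkl u c
  simp only [one_mul, map_one] at h1
  linarith

theorem differentiable_hFun (k l : ℕ) (a : ℝ) : Differentiable ℝ (hFun k l a) := by
  unfold hFun
  split_ifs <;> fun_prop

theorem main_attained {k l : ℕ} (hk : 0 < k) (hkl : k < l) {a : ℝ} (ha : |a| < 1) (u : ℝ)
    (h : PoleFree l (sPoly k l a u)) :
    hFun k l a u - u * deriv (hFun k l a) u ∈ Vals k l a (deriv (hFun k l a) u) := by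
  obtain ⟨c, hc, hform⟩ := exists_of_poleFree _ (natDegree_sPoly hkl a u) (sPoly_ne_zero hkl a u) h
  have h0 : c 0 = a := by
    have := congrArg (PowerSeries.coeff 0) hform
    simpa [PowerSeries.coeff_zero_mul_X, coeff_zero_sPoly hkl, coeff_top_sPoly hkl] using this
  have heq : c l = hFun k l a u - u * c k := by
    have h1 := cert_eq (c := c) (sPoly k l a u) 1 (n := l) (ε := 1) (by simpa using hform) l
    have h2 := main_identity hk hkl u c
    simp only [one_mul, map_one] at h1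
    rw [h0] at h2
    linarith
  have hmin : IsLocalMin (fun v => hFun k l a v - v * c k) u := by
    apply Filter.Eventually.of_forall
    intro v
    have := main_bound hk hkl v hc
    rw [h0] at this
    simp only
    linarith
  have hd : HasDerivAt (fun v => hFun k l a v - v * c k) (deriv (hFun k l a) u - 1 * c k) u :=
    (differentiable_hFun k l a u).hasDerivAt.sub ((hasDerivAt_id u).mul_const _)
  have hb : c k = deriv (hFun k l a) u := by
    have := hmin.hasDerivAt_eq_zero hd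
    linarith
  refine ⟨c, inHR_of_sch hc ?_, h0, hb, by rw [heq, hb]⟩
  by_contra hcon
  push Not at hcon
  have e : PowerSeries.mk c = PowerSeries.C a := by
    ext n
    rcases Nat.eq_zero_or_pos n with rfl | hn
    · simp [h0]
    · simp [hcon n hn, PowerSeries.coeff_C, hn.ne']
  have := congrArg (PowerSeries.coeff l) hform
  rw [e, PowerSeries.coeff_C_mul, Polynomial.coeff_coe, Polynomial.coeff_coe, coeff_top_sPoly hkl,
    coeff_reflect, revAt_le le_rfl, Nat.sub_self, coeff_zero_sPoly hkl] at this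
  have h2 : |a| * |a| < 1 := mul_lt_one_of_nonneg_of_lt_one_left (abs_nonneg a) ha ha.le
  rw [abs_mul_abs_self] at h2
  linarith

theorem main_isLUB_iff {k l : ℕ} (hk : 0 < k) (hkl : k < l) {a : ℝ} (ha : |a| < 1) (u : ℝ) :
    IsLUB (Vals k l a (deriv (hFun k l a) u)) (hFun k l a u - u * deriv (hFun k l a) u)
      ↔ PoleFree l (sPoly k l a u) := by
  constructor
  · intro h w hw h0
    obtain ⟨δ, hδ, hgap⟩ := gap_of_pole _ (natDegree_sPoly hkl a u) (sPoly_ne_zero hkl a u) hw h0
    have : hFun k l a u - u * deriv (hFun k l a) u - δ ∈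
        upperBounds (Vals k l a (deriv (hFun k l a) u)) := by
      rintro x ⟨c, hc, h0, hb, rfl⟩
      have h1 := hgap c (sch_of_inHR hc).1
      have h2 := main_identity hk hkl u c
      rw [h0, hb] at h2
      linarith
    have := h.2 this
    linarith
  · intro h
    refine IsGreatest.isLUB ⟨main_attained hk hkl ha u h, ?_⟩
    rintro x ⟨c, hc, h0, hb, rfl⟩
    have := main_bound hk hkl u (sch_of_inHR hc).1
    rwa [h0, hb] at this

end Pool.Agent.Lib.MP_55068a_an
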