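import Mathlib
import Pool.Agent.Lib.MP_55068a_an.Main

namespace Pool.Agent.Lib.MP_55068a_an

open Polynomial Metric ComplexConjugate

theorem norm_le_on_disc {p q : ℝ[X]} (hq : ∀ z : ℂ, ‖z‖ ≤ 1 → aeval z q ≠ 0)
    (hpq : ∀ z : ℂ, ‖z‖ = 1 → ‖aeval z p‖ ≤ ‖aeval z q‖) {z : ℂ} (hz : ‖z‖ ≤ 1) :
    ‖aeval z p‖ ≤ ‖aeval z q‖ := by
  have := norm_le_one_of_sphere (diffContOnCl_div' p q hq) (fun w hw => by
    rw [norm_div, div_le_one (norm_pos_iff.2 (hq w hw.le))]; exact hpq w hw) hz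
  rwa [norm_div, div_le_one (norm_pos_iff.2 (hq z hz))] at this

theorem Sch.abs_le {c : ℕ → ℝ} (hc : Sch c) (j : ℕ) : |c j| ≤ 1 := by
  have key : ∀ c : ℕ → ℝ, Sch c → c j ≤ 1 := by
    intro c hc
    have := dual_bound hc 1 (X ^ j) j (fun z hz => by
      have hz0 := ne_zero_of_norm hz
      simp [mul_inv_cancel₀ (pow_ne_zero j hz0)])
    simpa using this
  have h1 := key c hc
  have h2 := key _ hc.neg
  rw [_root_.abs_le]
  constructor <;> linarith

theorem poly_eq_zero_of_disc {P : ℝ[X]} (h : ∀ z : ℂ, ‖z‖ < 1 → aeval z P = 0) : P = 0 := by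
  apply Polynomial.eq_zero_of_infinite_isRoot
  apply Set.Infinite.mono _ (Set.Ioo_infinite (zero_lt_one' ℝ))
  intro x hx
  have := h x (by simp [abs_of_pos hx.1, hx.2])
  have h2 : aeval (x : ℂ) P = ((eval x P : ℝ) : ℂ) := aeval_ofReal P x
  rw [h2] at this
  exact_mod_cast this

/-- Equality in the dual bound forces `f = ε s*/s`. -/
theorem cert_unique {c : ℕ → ℝ} (hc : Sch c) (s R : ℝ[X]) {n r l : ℕ} (hn : s.natDegree ≤ n)
    (hl : n + r = l) {ε : ℝ} (hε : |ε| = 1) (hR0 : R ≠ 0)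
    (hR : ∀ z : ℂ, ‖z‖ = 1 → ∃ ρ : ℝ, 0 ≤ ρ ∧ (ε : ℂ) * aeval z R = ρ * z ^ r)
    (heq : PowerSeries.coeff l (PowerSeries.mk c * ((R * s ^ 2 : ℝ[X]) : PowerSeries ℝ))
      = (C ε * reflect n s * (R * s)).coeff l) :
    PowerSeries.mk c * (s : PowerSeries ℝ) = ((C ε * reflect n s : ℝ[X]) : PowerSeries ℝ) := by
  obtain ⟨p, q, hq, hpq, hform⟩ := hc
  obtain ⟨Φ, hΦ, h0, h1⟩ := exists_Phi hq hform (R * s ^ 2) (C ε * reflect n s * (R * s)) l
  rw [heq, sub_self] at h0
  obtain ⟨M, hM⟩ : ∃ M : ℝ, ∀ z : ℂ, ‖z‖ = 1 → ‖aeval z R‖ ≤ M := by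
    obtain ⟨M, hM⟩ := (isCompact_sphere (0 : ℂ) 1).exists_bound_of_continuousOn
      (differentiable_aeval R).continuous.continuousOn
    exact ⟨M, fun z hz => hM z (by simpa using hz)⟩
  have hh := diffContOnCl_div' (R * (p * s - C ε * reflect n s * q)) q hq
  have hε2 : (ε : ℂ) * ε = 1 := by
    have : ε * ε = 1 := by rw [← abs_mul_abs_self, hε, one_mul]
    exact_mod_cast this
  have key : ∀ w : ℂ, ‖w‖ < 1 → aeval w (R * (p * s - C ε * reflect n s * q)) = 0 := by
    intro w hw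
    have := sq_le_of_sphere hh hΦ (K := 2 * M) (fun z hz => by
      rw [h1 z hz]
      obtain ⟨ρ, hρ, hρ'⟩ := hR z hz
      have hqz := hq z hz.le
      set F := aeval z p / aeval z q with hF
      have hF1 : ‖F‖ ≤ 1 := by
        rw [hF, norm_div, div_le_one (norm_pos_iff.2 hqz)]; exact hpq z hz
      set S := aeval z s with hS
      have hz0 := ne_zero_of_norm hz
      have hRz : aeval z R = ε * (ρ * z ^ r) := by rw [← hρ', ← mul_assoc, hε2, one_mul]
      have hRn : ‖aeval z R‖ = ρ := by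
        rw [hRz, norm_mul, norm_mul, norm_pow, hz, one_pow, mul_one, Complex.norm_real,
          Complex.norm_real, Real.norm_eq_abs, Real.norm_eq_abs, hε, one_mul, abs_of_nonneg hρ]
      set B : ℂ := ε * aeval z (reflect n s) with hB
      have e1 : (aeval z (C ε * reflect n s * (R * s)) - F * aeval z (R * s ^ 2)) * (z ^ l)⁻¹
          = (ρ : ℂ) * (((Complex.normSq S : ℝ) : ℂ) - F * S * conj B) := by
        simp only [map_mul, map_pow, aeval_C, hB]
        rw [aeval_reflect s hn hz, ← hS, map_mul, map_pow, Complex.conj_conj, Complex.conj_ofReal,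
          ← inv_eq_conj_of_norm hz, Complex.normSq_eq_conj_mul_self, inv_pow, hRz, ← hl, pow_add]
        have : (algebraMap ℝ ℂ) ε = (ε : ℂ) := rfl
        rw [this]
        field_simp
        linear_combination (ρ * z ^ n * conj S * S) * hε2
      have hBn : Complex.normSq B = Complex.normSq S := by
        rw [Complex.normSq_eq_norm_sq, Complex.normSq_eq_norm_sq, hB, norm_mul,
          norm_aeval_reflect s hn hz, Complex.norm_real, Real.norm_eq_abs, hε, one_mul]
      have e2 : Complex.normSq (F * S - B)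
          ≤ 2 * (((Complex.normSq S : ℝ) : ℂ) - F * S * conj B).re := by
        rw [Complex.normSq_sub, Complex.sub_re, Complex.ofReal_re, Complex.normSq_mul, hBn]
        have : Complex.normSq F ≤ 1 := by
          rw [Complex.normSq_eq_norm_sq]; exact pow_le_one₀ (norm_nonneg _) hF1
        nlinarith [Complex.normSq_nonneg S]
      have e3 : aeval z (R * (p * s - C ε * reflect n s * q)) / aeval z q
          = aeval z R * (F * S - B) := by
        simp only [map_mul, map_sub, aeval_C, hB, hF, hS]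
        have : (algebraMap ℝ ℂ) ε = (ε : ℂ) := rfl
        rw [this]
        field_simp
      rw [e1, e3, norm_mul, hRn, mul_pow, Complex.re_ofReal_mul, ← Complex.normSq_eq_norm_sq]
      have hρM : ρ ≤ M := hRn ▸ hM z hz
      have h3 := Complex.normSq_nonneg (F * S - B)
      have hM0 : 0 ≤ M := hρ.trans hρM
      calc ρ ^ 2 * Complex.normSq (F * S - B) = ρ * (ρ * Complex.normSq (F * S - B)) := by ring
        _ ≤ M * (ρ * (2 * (((Complex.normSq S : ℝ) : ℂ) - F * S * conj B).re)) := by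
          gcongr
        _ = _ := by ring) hw
    rw [h0, mul_zero] at this
    have hpos : 0 < 1 - ‖w‖ := by linarith
    have h2 : ‖aeval w (R * (p * s - C ε * reflect n s * q)) / aeval w q‖ ^ 2 ≤ 0 := by
      by_contra hcon
      push Not at hcon
      have := mul_pos hpos hcon
      linarith
    have h3 := pow_eq_zero_iff (two_ne_zero) |>.1 (le_antisymm h2 (by positivity))
    rw [norm_eq_zero, div_eq_zero_iff] at h3
    exact h3.resolve_right (hq w hw.le)
  have h4 := (mul_eq_zero.1 (poly_eq_zero_of_disc key)).resolve_left hR0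
  have hq0 : (q : PowerSeries ℝ) ≠ 0 := by
    intro h
    have : q = 0 := by simpa using h
    exact hq 0 (by simp) (by simp [this])
  apply mul_right_cancel₀ hq0
  rw [mul_right_comm, hform, ← Polynomial.coe_mul, ← Polynomial.coe_mul, sub_eq_zero.1 h4]

theorem Sch.const_of_abs {c : ℕ → ℝ} (hc : Sch c) (h : |c 0| = 1) :
    PowerSeries.mk c = PowerSeries.C (c 0) := by
  have := cert_unique hc 1 (C (c 0)) (n := 0) (r := 0) (l := 0) (by simp) rfl h
    (by intro h0; rw [C_eq_zero] at h0; simp [h0] at h)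
    (fun z _ => ⟨c 0 * c 0, mul_self_nonneg _, by simp⟩) (by simp)
  simpa using this

theorem normSq_step (γ : ℝ) (P Q : ℂ) :
    ‖Q + γ * P‖ ^ 2 - ‖γ * Q + P‖ ^ 2 = (1 - γ ^ 2) * (‖Q‖ ^ 2 - ‖P‖ ^ 2) := by
  simp only [← Complex.normSq_eq_norm_sq, Complex.normSq_apply, Complex.add_re, Complex.add_im,
    Complex.re_ofReal_mul, Complex.im_ofReal_mul]
  ring

theorem norm_step_le {γ : ℝ} (hγ : |γ| ≤ 1) {P Q : ℂ} (h : ‖P‖ ≤ ‖Q‖) :
    ‖γ * Q + P‖ ≤ ‖Q + γ * P‖ := by
  have h1 := normSq_step γ P Q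
  have h2 : 0 ≤ 1 - γ ^ 2 := by rw [← sq_abs]; nlinarith [abs_nonneg γ]
  have h3 : 0 ≤ ‖Q‖ ^ 2 - ‖P‖ ^ 2 := by nlinarith [norm_nonneg P]
  have h4 := mul_nonneg h2 h3
  exact abs_le_of_sq_le_sq' (by linarith) (norm_nonneg _) |>.2

theorem norm_step_lt {γ : ℝ} (hγ : |γ| < 1) {P Q : ℂ} (h : ‖P‖ < ‖Q‖) :
    ‖γ * Q + P‖ < ‖Q + γ * P‖ := by
  have h1 := normSq_step γ P Q
  have h2 : 0 < 1 - γ ^ 2 := by rw [← sq_abs]; nlinarith [abs_nonneg γ]
  have h3 : 0 < ‖Q‖ ^ 2 - ‖P‖ ^ 2 := by nlinarith [norm_nonneg P]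
  have h4 := mul_pos h2 h3
  exact abs_lt_of_sq_lt_sq' (by linarith) (norm_nonneg _) |>.2

theorem step_ne_zero {γ : ℝ} (hγ : |γ| < 1) {P Q : ℂ} (hQ : Q ≠ 0) (h : ‖P‖ ≤ ‖Q‖) :
    Q + γ * P ≠ 0 := by
  intro h0
  have h1 : Q = -(γ * P) := by linear_combination h0
  have h2 : ‖Q‖ = |γ| * ‖P‖ := by rw [h1, norm_neg, norm_mul, Complex.norm_real, Real.norm_eq_abs]
  have h3 : 0 < ‖Q‖ := norm_pos_iff.2 hQ
  nlinarith [norm_nonneg P, abs_nonneg γ]

/-- The Schur relation `f (1 + γ z g) = γ + z g` between formal series. -/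
noncomputable def Rel (γ : ℝ) (f g : PowerSeries ℝ) : PowerSeries ℝ :=
  f * (1 + PowerSeries.C γ * (PowerSeries.X * g)) - (PowerSeries.C γ + PowerSeries.X * g)

theorem Sch.backward {c : ℕ → ℝ} (hc : Sch c) :
    ∃ φ : ℕ → ℝ, Sch φ ∧ Rel (c 0) (PowerSeries.mk c) (PowerSeries.mk φ) = 0 := by
  rcases (hc.abs_le 0).eq_or_lt with h1 | h1
  · refine ⟨0, ⟨0, 1, by simp, by simp, ?_⟩, ?_⟩
    · ext n; simp
    · have : PowerSeries.mk (0 : ℕ → ℝ) = 0 := by ext n; simp
      rw [Rel, this, hc.const_of_abs h1]; simp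
  obtain ⟨p, q, hq, hpq, hform⟩ := hc
  set γ := c 0 with hγ
  have hdvd : X ∣ p - C γ * q := by
    rw [X_dvd_iff]
    have := congrArg (PowerSeries.coeff 0) hform
    simp only [PowerSeries.coeff_zero_eq_constantCoeff, map_mul, Polynomial.constantCoeff_coe,
      PowerSeries.constantCoeff_mk] at this
    simp [← this, hγ]
  obtain ⟨p1, hp1⟩ := hdvd
  have hneg : |-γ| < 1 := by rwa [abs_neg]
  have hq1 : ∀ z : ℂ, ‖z‖ ≤ 1 → aeval z (q - C γ * p) ≠ 0 := by
    intro z hz
    have := step_ne_zero hneg (hq z hz) (norm_le_on_disc hq hpq hz)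
    simpa [sub_eq_add_neg] using this
  obtain ⟨φ, hφ, hφ'⟩ := exists_sch p1 (q - C γ * p) (fun z hz => hq1 z hz.le) (fun z hz => by
    have h2 := norm_step_le hneg.le (hpq z hz)
    have h3 := congrArg (aeval z) hp1
    simp only [map_sub, map_mul, aeval_C, aeval_X] at h3 ⊢
    have : (algebraMap ℝ ℂ) γ = (γ : ℂ) := rfl
    rw [this] at h3 ⊢
    have h4 : ‖aeval z p1‖ = ‖((-γ : ℝ) : ℂ) * aeval z q + aeval z p‖ := by
      rw [← one_mul ‖aeval z p1‖, ← hz, ← norm_mul, ← h3]; congr 1; push_cast; ring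
    rw [h4]
    refine h2.trans_eq ?_
    congr 1; push_cast; ring)
  refine ⟨φ, hφ, ?_⟩
  have hq0 : (q : PowerSeries ℝ) ≠ 0 := by
    intro h
    have : q = 0 := by simpa using h
    exact hq 0 (by simp) (by simp [this])
  have hq10 : ((q - C γ * p : ℝ[X]) : PowerSeries ℝ) ≠ 0 := by
    intro h
    have : q - C γ * p = 0 := by exact_mod_cast h
    exact hq1 0 (by simp) (by simp [this])
  apply mul_right_cancel₀ (mul_ne_zero hq0 hq10)
  have hp1' := congrArg (fun P : ℝ[X] => (P : PowerSeries ℝ)) hp1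
  simp only [Polynomial.coe_sub, Polynomial.coe_mul, Polynomial.coe_C, Polynomial.coe_X]
    at hp1' hφ' ⊢
  rw [Rel]
  linear_combination
    ((1 + PowerSeries.C γ * (PowerSeries.X * PowerSeries.mk φ)) * (↑q - PowerSeries.C γ * ↑p)) * hform
    + (PowerSeries.C γ * PowerSeries.X * ↑p - PowerSeries.X * ↑q) * hφ'
    - (PowerSeries.C γ * ↑p - ↑q) * hp1'

theorem rel_forward {γ : ℝ} {f g : PowerSeries ℝ} {p q : ℝ[X]} (hq : (q : PowerSeries ℝ) ≠ 0)
    (hg : g * (q : PowerSeries ℝ) = (p : PowerSeries ℝ)) :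
    Rel γ f g = 0 ↔ f * ((q + C γ * (X * p) : ℝ[X]) : PowerSeries ℝ)
      = ((C γ * q + X * p : ℝ[X]) : PowerSeries ℝ) := by
  have : Rel γ f g * q = f * ((q + C γ * (X * p) : ℝ[X]) : PowerSeries ℝ)
      - ((C γ * q + X * p : ℝ[X]) : PowerSeries ℝ) := by
    simp only [Polynomial.coe_add, Polynomial.coe_mul, Polynomial.coe_C, Polynomial.coe_X, Rel]
    rw [← hg]; ring
  rw [← sub_eq_zero (a := f * _), ← this, mul_eq_zero]
  simp [hq]

theorem Sch.forward {φ : ℕ → ℝ} (hφ : Sch φ) {γ : ℝ} (hγ : |γ| ≤ 1) :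
    ∃ c : ℕ → ℝ, Sch c ∧ Rel γ (PowerSeries.mk c) (PowerSeries.mk φ) = 0 := by
  obtain ⟨p, q, hq, hpq, hform⟩ := hφ
  have hq0 : (q : PowerSeries ℝ) ≠ 0 := by
    intro h
    have : q = 0 := by simpa using h
    exact hq 0 (by simp) (by simp [this])
  obtain ⟨c, hc, hc'⟩ := exists_sch (C γ * q + X * p) (q + C γ * (X * p)) (fun z hz h0 => by
    simp only [map_add, map_mul, aeval_C, aeval_X] at h0
    have e : (algebraMap ℝ ℂ) γ = (γ : ℂ) := rfl
    rw [e] at h0
    have h1 : aeval z q = -(γ * (z * aeval z p)) := by linear_combination h0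
    have h2 : ‖aeval z q‖ = |γ| * (‖z‖ * ‖aeval z p‖) := by
      rw [h1, norm_neg, norm_mul, norm_mul, Complex.norm_real, Real.norm_eq_abs]
    have h3 : 0 < ‖aeval z q‖ := norm_pos_iff.2 (hq z hz.le)
    have h4 := norm_le_on_disc hq hpq hz.le
    have h5 : ‖z‖ * ‖aeval z p‖ ≤ ‖z‖ * ‖aeval z q‖ := by gcongr
    have h6 : |γ| * (‖z‖ * ‖aeval z p‖) ≤ 1 * (‖z‖ * ‖aeval z q‖) := by gcongr
    nlinarith) (fun z hz => by
    have := norm_step_le hγ (P := z * aeval z p) (Q := aeval z q)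
      (by rw [norm_mul, hz, one_mul]; exact hpq z hz)
    simpa using this)
  exact ⟨c, hc, (rel_forward hq0 hform).2 hc'⟩

theorem agree_of_rel {γ : ℝ} {f f' g g' : PowerSeries ℝ} {N : ℕ}
    (h : PowerSeries.X ^ (N + 1) ∣ Rel γ f g) (h' : Rel γ f' g' = 0)
    (hg : PowerSeries.X ^ N ∣ g' - g) : PowerSeries.X ^ (N + 1) ∣ f' - f := by
  obtain ⟨A, hA⟩ := h
  obtain ⟨B, hB⟩ := hg
  have hu : IsUnit (1 + PowerSeries.C γ * (PowerSeries.X * g)) := by
    rw [PowerSeries.isUnit_iff_constantCoeff]; simp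
  rw [← hu.dvd_mul_right]
  refine ⟨B * (1 - f' * PowerSeries.C γ) - A, ?_⟩
  rw [Rel] at hA h'
  linear_combination h' - hA + (PowerSeries.X * (1 - f' * PowerSeries.C γ)) * hB

theorem dvd_sub_mk_iff {c c' : ℕ → ℝ} {N : ℕ} :
    (PowerSeries.X : PowerSeries ℝ) ^ N ∣ PowerSeries.mk c' - PowerSeries.mk c
      ↔ ∀ j < N, c' j = c j := by
  rw [PowerSeries.X_pow_dvd_iff]
  simp [sub_eq_zero]

/-- Coefficient body of order `N`. -/
def Body (N : ℕ) : Set (ℕ → ℝ) :=
  {c | (∀ j, |c j| ≤ 1) ∧ ∃ c', Sch c' ∧ ∀ j < N, c' j = c j}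

theorem isCompact_box : IsCompact {c : ℕ → ℝ | ∀ j, |c j| ≤ 1} := by
  have := isCompact_univ_pi (fun _ : ℕ => isCompact_Icc (a := (-1 : ℝ)) (b := 1))
  convert this using 1
  ext c; simp only [Set.mem_ofPred_eq, abs_le, Set.mem_pi, Set.mem_univ, Set.mem_Icc, true_imp_iff]

theorem isCompact_body (N : ℕ) : IsCompact (Body N) := by
  induction N with
  | zero =>
    convert isCompact_box using 1
    ext c
    refine ⟨fun h => h.1, fun h => ⟨h, 0, ⟨0, 1, by simp, by simp, ?_⟩, by simp⟩⟩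
    ext n; simp
  | succ N ih =>
    have hcl : IsClosed {x : (ℕ → ℝ) × (ℕ → ℝ) | ∀ j < N + 1,
        PowerSeries.coeff j (Rel (x.1 0) (PowerSeries.mk x.1) (PowerSeries.mk x.2)) = 0} := by
      simp only [Set.ofPred_forall]
      refine isClosed_iInter fun j => isClosed_iInter fun _ => isClosed_eq ?_ continuous_const
      simp only [Rel, map_sub, map_add, PowerSeries.coeff_mul, PowerSeries.coeff_mk,
        PowerSeries.coeff_C]
      refine Continuous.sub (continuous_finsetSum _ fun i _ => Continuous.mul (by fun_prop)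
        (Continuous.add continuous_const (continuous_finsetSum _ fun i _ => Continuous.mul ?_
          (continuous_finsetSum _ fun i _ => by fun_prop))))
        (Continuous.add ?_ (continuous_finsetSum _ fun i _ => by fun_prop))
      · split_ifs <;> fun_prop
      · split_ifs <;> fun_prop
    have hK := ((isCompact_box.prod ih).inter_right hcl).image continuous_fst
    convert hK using 1
    ext c
    constructor
    · rintro ⟨hb, c', hc', hag⟩
      obtain ⟨φ, hφ, hrel⟩ := hc'.backward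
      refine ⟨(c, φ), ⟨⟨hb, hφ.abs_le, φ, hφ, fun _ _ => rfl⟩, ?_⟩, rfl⟩
      rw [Set.mem_ofPred_eq, ← PowerSeries.X_pow_dvd_iff]
      obtain ⟨A, hA⟩ := dvd_sub_mk_iff.2 hag
      rw [hag 0 (Nat.succ_pos _)] at hrel
      refine ⟨-A * (1 + PowerSeries.C (c 0) * (PowerSeries.X * PowerSeries.mk φ)), ?_⟩
      simp only [Rel] at hrel ⊢
      linear_combination hrel - (1 + PowerSeries.C (c 0) * (PowerSeries.X * PowerSeries.mk φ)) * hA
    · rintro ⟨⟨c1, φ⟩, ⟨⟨hb, -, φ', hφ', hag⟩, hrel⟩, rfl⟩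
      rw [Set.mem_ofPred_eq, ← PowerSeries.X_pow_dvd_iff] at hrel
      obtain ⟨c', hc', hrel'⟩ := hφ'.forward (hb 0)
      exact ⟨hb, c', hc', dvd_sub_mk_iff.1 (agree_of_rel hrel hrel' (dvd_sub_mk_iff.2 hag))⟩

/-- Schur's dichotomy. -/
theorem Sch.dichotomy (N : ℕ) : ∀ {c : ℕ → ℝ}, Sch c →
    (∃ (n : ℕ) (ε : ℝ) (s : ℝ[X]), n < N ∧ (ε = 1 ∨ ε = -1) ∧ s.natDegree ≤ n ∧
      s.coeff 0 = 1 ∧ (∀ z : ℂ, ‖z‖ ≤ 1 → aeval z s ≠ 0) ∧
      PowerSeries.mk c * (s : PowerSeries ℝ) = ((C ε * reflect n s : ℝ[X]) : PowerSeries ℝ)) ∨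
    (∃ (c' : ℕ → ℝ) (p q : ℝ[X]), (∀ z : ℂ, ‖z‖ ≤ 1 → aeval z q ≠ 0) ∧
      (∀ z : ℂ, ‖z‖ = 1 → ‖aeval z p‖ < ‖aeval z q‖) ∧
      PowerSeries.mk c' * (q : PowerSeries ℝ) = (p : PowerSeries ℝ) ∧ ∀ j < N, c' j = c j) := by
  induction N with
  | zero =>
    intro c _
    right
    refine ⟨0, 0, 1, by simp, by simp, ?_, by simp⟩
    ext n; simp
  | succ N ih =>
    intro c hc
    rcases (hc.abs_le 0).eq_or_lt with h1 | h1
    · left
      refine ⟨0, c 0, 1, Nat.succ_pos _, eq_or_eq_neg_of_abs_eq h1, by simp, by simp, by simp, ?_⟩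
      rw [hc.const_of_abs h1]; simp
    obtain ⟨φ, hφ, hrel⟩ := hc.backward
    rcases ih hφ with ⟨n, ε, s, hn, hε, hs, hs1, hs0, hform⟩ | ⟨φ', p, q, hq, hpq, hform, hag⟩
    · left
      have hε1 : |ε| = 1 := by rcases hε with rfl | rfl <;> simp
      have hε2 : ε * ε = 1 := by rcases hε with rfl | rfl <;> simp
      have hs00 : (s : PowerSeries ℝ) ≠ 0 := by
        intro h
        have : s = 0 := by simpa using h
        exact hs0 0 (by simp) (by simp [this])
      have hdeg : (reflect n s).natDegree ≤ n := natDegree_reflect_le.trans (by simp [hs])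
      refine ⟨n + 1, ε, s + C (c 0) * (X * (C ε * reflect n s)), by omega, hε, ?_,
        by simp [hs1], ?_, ?_⟩
      · refine (natDegree_add_le _ _).trans (max_le (by omega) ?_)
        refine (natDegree_C_mul_le _ _).trans (natDegree_mul_le.trans ?_)
        have := natDegree_C_mul_le ε (reflect n s)
        rw [natDegree_X]; omega
      · intro z hz
        have h2 : ‖z * aeval z (C ε * reflect n s)‖ ≤ ‖aeval z s‖ := by
          have h3 := norm_le_on_disc (p := C ε * reflect n s) hs0 (fun w hw => by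
            rw [map_mul, norm_mul, norm_aeval_reflect s hs hw, aeval_C]
            simp [hε1]) hz
          rw [norm_mul]
          calc ‖z‖ * ‖aeval z (C ε * reflect n s)‖ ≤ 1 * ‖aeval z s‖ := by gcongr
            _ = _ := one_mul _
        have := step_ne_zero h1 (hs0 z hz) h2
        simpa using this
      · rw [(rel_forward hs00 hform).1 hrel]
        congr 1
        have e1 : reflect (n + 1) s = X * reflect n s := by
          have := reflect_mul s 1 hs (G := 1) (by simp)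
          rw [mul_one, reflect_one, pow_one] at this
          rw [this, mul_comm]
        have e2 : reflect (n + 1) (X * (C ε * reflect n s)) = C ε * s := by
          rw [mul_comm X, reflect_mul _ X ((natDegree_C_mul_le _ _).trans hdeg) (by simp),
            reflect_one_X, mul_one, reflect_C_mul, reflect_reflect]
        rw [reflect_add, reflect_C_mul, e1, e2]
        have e3 : (C ε * C ε : ℝ[X]) = 1 := by rw [← C_mul, hε2, C_1]
        linear_combination (-(C (c 0) * s)) * e3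
    · right
      have hq0 : (q : PowerSeries ℝ) ≠ 0 := by
        intro h
        have : q = 0 := by simpa using h
        exact hq 0 (by simp) (by simp [this])
      obtain ⟨c', -, hrel'⟩ := Sch.forward ⟨p, q, hq, fun z hz => (hpq z hz).le, hform⟩ h1.le
      refine ⟨c', C (c 0) * q + X * p, q + C (c 0) * (X * p), ?_, ?_,
        (rel_forward hq0 hform).1 hrel', ?_⟩
      · intro z hz
        have h2 : ‖z * aeval z p‖ ≤ ‖aeval z q‖ := by
          have h3 := norm_le_on_disc hq (fun z hz => (hpq z hz).le) hz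
          rw [norm_mul]
          calc ‖z‖ * ‖aeval z p‖ ≤ 1 * ‖aeval z q‖ := by gcongr
            _ = _ := one_mul _
        have := step_ne_zero h1 (hq z hz) h2
        simpa using this
      · intro z hz
        have := norm_step_lt h1 (P := z * aeval z p) (Q := aeval z q)
          (by rw [norm_mul, hz, one_mul]; exact hpq z hz)
        simpa using this
      · exact dvd_sub_mk_iff.1 (agree_of_rel (by rw [hrel]; exact dvd_zero _) hrel'
          (dvd_sub_mk_iff.2 hag))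

end Pool.Agent.Lib.MP_55068a_an
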