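import Mathlib
import Pool.Agent.Lib.MP_55068a_an.Schur

namespace Pool.Agent.Lib.MP_55068a_an

open Polynomial Metric ComplexConjugate

theorem coe_ne_zero_of_disc {q : ℝ[X]} (hq : ∀ z : ℂ, ‖z‖ ≤ 1 → aeval z q ≠ 0) :
    (q : PowerSeries ℝ) ≠ 0 := by
  intro h
  have : q = 0 := by simpa using h
  exact hq 0 (by simp) (by simp [this])

theorem constantCoeff_ne_zero_of_disc {q : ℝ[X]} (hq : ∀ z : ℂ, ‖z‖ ≤ 1 → aeval z q ≠ 0) :
    PowerSeries.constantCoeff (q : PowerSeries ℝ) ≠ 0 := by
  intro h0
  apply hq 0 (by simp)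
  rw [aeval_eq_eval_map, ← coeff_zero_eq_eval_zero]
  simpa using h0

theorem exists_pos_lower {g : ℂ → ℝ} (hg : Continuous g) (h : ∀ z : ℂ, ‖z‖ = 1 → 0 < g z) :
    ∃ δ : ℝ, 0 < δ ∧ ∀ z : ℂ, ‖z‖ = 1 → δ ≤ g z := by
  obtain ⟨δ, hδ, h2⟩ := (isCompact_sphere (0 : ℂ) 1).exists_forall_le' hg.continuousOn
    (a := 0) (fun z hz => h z (by simpa using hz))
  exact ⟨δ, hδ, fun z hz => h2 z (by simpa using hz)⟩

theorem exists_upper (P : ℝ[X]) : ∃ M : ℝ, 0 < M ∧ ∀ z : ℂ, ‖z‖ = 1 → ‖aeval z P‖ ≤ M := by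
  obtain ⟨M, hM⟩ := (isCompact_sphere (0 : ℂ) 1).exists_bound_of_continuousOn
    (differentiable_aeval P).continuous.continuousOn
  exact ⟨max M 1, by positivity, fun z hz => (hM z (by simpa using hz)).trans (le_max_left _ _)⟩

theorem Sch.combo {c c' : ℕ → ℝ} (hc : Sch c) (hc' : Sch c') {x y : ℝ} (hx : 0 ≤ x) (hy : 0 ≤ y)
    (hxy : x + y = 1) : Sch (fun j => x * c j + y * c' j) := by
  obtain ⟨p, q, hq, hpq, hform⟩ := hc
  obtain ⟨p', q', hq', hpq', hform'⟩ := hc'
  refine ⟨C x * p * q' + C y * p' * q, q * q', fun z hz => ?_, fun z hz => ?_, ?_⟩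
  · rw [map_mul]; exact mul_ne_zero (hq z hz) (hq' z hz)
  · simp only [map_add, map_mul, aeval_C]
    refine (norm_add_le _ _).trans ?_
    simp only [norm_mul, Complex.coe_algebraMap, Complex.norm_real, Real.norm_eq_abs,
      abs_of_nonneg hx, abs_of_nonneg hy]
    have h1 := hpq z hz
    have h2 := hpq' z hz
    calc x * ‖aeval z p‖ * ‖aeval z q'‖ + y * ‖aeval z p'‖ * ‖aeval z q‖
        ≤ x * ‖aeval z q‖ * ‖aeval z q'‖ + y * ‖aeval z q'‖ * ‖aeval z q‖ := by gcongr
      _ = (x + y) * (‖aeval z q‖ * ‖aeval z q'‖) := by ring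
      _ = _ := by rw [hxy, one_mul]
  · have : PowerSeries.mk (fun j => x * c j + y * c' j)
        = PowerSeries.C x * PowerSeries.mk c + PowerSeries.C y * PowerSeries.mk c' := by
      ext n; simp
    simp only [this, Polynomial.coe_add, Polynomial.coe_mul, Polynomial.coe_C]
    rw [← hform, ← hform']; ring

theorem sch_perturb_strict {c : ℕ → ℝ} {p q : ℝ[X]} (hq : ∀ z : ℂ, ‖z‖ ≤ 1 → aeval z q ≠ 0)
    (hpq : ∀ z : ℂ, ‖z‖ = 1 → ‖aeval z p‖ < ‖aeval z q‖)
    (hform : PowerSeries.mk c * (q : PowerSeries ℝ) = (p : PowerSeries ℝ)) (j : ℕ) :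
    ∃ t0 : ℝ, 0 < t0 ∧ ∀ t : ℝ, |t| ≤ t0 → Sch (fun i => c i + if i = j then t else 0) := by
  obtain ⟨δ, hδ, h1⟩ := exists_pos_lower (g := fun z => ‖aeval z q‖ - ‖aeval z p‖)
    ((differentiable_aeval q).continuous.norm.sub (differentiable_aeval p).continuous.norm)
    (fun z hz => sub_pos.2 (hpq z hz))
  obtain ⟨M, hM, h2⟩ := exists_upper q
  refine ⟨δ / M, by positivity, fun t ht => ⟨p + C t * X ^ j * q, q, hq, fun z hz => ?_, ?_⟩⟩
  · simp only [map_add, map_mul, aeval_C, map_pow, aeval_X]
    refine (norm_add_le _ _).trans ?_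
    simp only [norm_mul, norm_pow, hz, one_pow, mul_one, Complex.coe_algebraMap, Complex.norm_real,
      Real.norm_eq_abs]
    have h3 := h1 z hz
    have h4 : |t| * ‖aeval z q‖ ≤ δ / M * M := by
      have := h2 z hz
      gcongr
    rw [div_mul_cancel₀ _ hM.ne'] at h4
    linarith
  · have : PowerSeries.mk (fun i => c i + if i = j then t else 0)
        = PowerSeries.mk c + PowerSeries.C t * PowerSeries.X ^ j := by
      ext n; simp [PowerSeries.coeff_X_pow]
    simp only [this, Polynomial.coe_add, Polynomial.coe_mul, Polynomial.coe_C, Polynomial.coe_pow,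
      Polynomial.coe_X]
    rw [← hform]; ring

theorem coeff_mul_F (φ : PowerSeries ℝ) {k l : ℕ} (hkl : k ≤ l) (α β γ : ℝ) :
    PowerSeries.coeff l (φ * (PowerSeries.C γ + PowerSeries.C β * PowerSeries.X ^ (l - k)
      + PowerSeries.C α * PowerSeries.X ^ l))
      = γ * PowerSeries.coeff l φ + β * PowerSeries.coeff k φ + α * PowerSeries.coeff 0 φ := by
  have : φ * (PowerSeries.C γ + PowerSeries.C β * PowerSeries.X ^ (l - k)
      + PowerSeries.C α * PowerSeries.X ^ l) = PowerSeries.C γ * φ
      + PowerSeries.C β * (φ * PowerSeries.X ^ (l - k))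
      + PowerSeries.C α * (φ * PowerSeries.X ^ l) := by ring
  rw [this, map_add, map_add, PowerSeries.coeff_C_mul, PowerSeries.coeff_C_mul,
    PowerSeries.coeff_C_mul, PowerSeries.coeff_mul_X_pow', PowerSeries.coeff_mul_X_pow',
    if_pos (Nat.sub_le _ _), if_pos le_rfl, Nat.sub_sub_self hkl, Nat.sub_self]

theorem first_order {c : ℕ → ℝ} {s : ℝ[X]} {n l : ℕ} {ε : ℝ} (hε : ε = 1 ∨ ε = -1)
    (hs : s.natDegree ≤ n) (hs0 : ∀ z : ℂ, ‖z‖ ≤ 1 → aeval z s ≠ 0)
    (hform : PowerSeries.mk c * (s : PowerSeries ℝ)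
      = ((C ε * reflect n s : ℝ[X]) : PowerSeries ℝ))
    {F G : PowerSeries ℝ} (hG : G * (s : PowerSeries ℝ) ^ 2 = F)
    (hmax : ∀ c', Sch c' →
      PowerSeries.coeff l (PowerSeries.mk c' * F) ≤ PowerSeries.coeff l (PowerSeries.mk c * F))
    {N D : ℝ[X]} (hD : ∀ z : ℂ, ‖z‖ ≤ 1 → aeval z D ≠ 0)
    (hND : ∀ z : ℂ, ‖z‖ = 1 → 0 < (aeval z N / (aeval z D * z ^ n)).re)
    {E : PowerSeries ℝ} (hE : E * (D : PowerSeries ℝ) = N) :
    0 ≤ ε * PowerSeries.coeff l (E * G) := by
  have hε1 : |ε| = 1 := by rcases hε with rfl | rfl <;> simp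
  obtain ⟨δ, hδ, h1⟩ := exists_pos_lower
    (g := fun z => (aeval z (reflect n s * s * D) * conj (aeval z N)).re)
    (Complex.continuous_re.comp ((differentiable_aeval _).continuous.mul
      (Complex.continuous_conj.comp (differentiable_aeval _).continuous))) (fun z hz => by
      have hz0 := ne_zero_of_norm hz
      have hDz := hD z hz.le
      have e : aeval z (reflect n s * s * D) * conj (aeval z N)
          = ((Complex.normSq (aeval z s) * Complex.normSq (aeval z D * z ^ n) : ℝ) : ℂ)
            * conj (aeval z N / (aeval z D * z ^ n)) := by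
        have h0 : conj (aeval z D * z ^ n) ≠ 0 := by
          simpa using ⟨hDz, fun h => (hz0 h).elim⟩
        rw [map_mul, map_mul, aeval_reflect s hs hz, map_div₀]
        push_cast
        rw [Complex.normSq_eq_conj_mul_self, Complex.normSq_eq_conj_mul_self]
        generalize conj (aeval z D * z ^ n) = y at h0 ⊢
        field_simp
      rw [e, Complex.re_ofReal_mul, Complex.conj_re]
      have h2 := Complex.normSq_pos.2 (hs0 z hz.le)
      have h3 := Complex.normSq_pos.2 (mul_ne_zero hDz (pow_ne_zero n hz0))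
      have h4 := hND z hz
      positivity)
  obtain ⟨M, hM, h2⟩ := exists_upper N
  set t : ℝ := δ / M ^ 2 with ht
  have ht0 : 0 < t := by positivity
  have hq : ∀ z : ℂ, ‖z‖ ≤ 1 → aeval z (s ^ 2 * D) ≠ 0 := fun z hz => by
    rw [map_mul, map_pow]; exact mul_ne_zero (pow_ne_zero _ (hs0 z hz)) (hD z hz)
  obtain ⟨c', hc', hform'⟩ := exists_sch (C ε * (reflect n s * s * D - C t * N)) (s ^ 2 * D)
    (fun z hz => hq z hz.le) (fun z hz => by
      rw [map_mul, norm_mul, aeval_C, Complex.coe_algebraMap, Complex.norm_real, Real.norm_eq_abs,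
        hε1, one_mul, map_sub, map_mul (aeval z) (C t), aeval_C, Complex.coe_algebraMap]
      have e1 : ‖aeval z (s ^ 2 * D)‖ = ‖aeval z (reflect n s * s * D)‖ := by
        simp only [map_mul, norm_mul, norm_aeval_reflect s hs hz, pow_two]
      rw [e1]
      have h3 := h1 z hz
      have h4 := h2 z hz
      set A := aeval z (reflect n s * s * D)
      set B := aeval z N
      have h5 : Complex.normSq (A - t * B) ≤ Complex.normSq A := by
        rw [Complex.normSq_sub, Complex.normSq_mul, Complex.normSq_ofReal, map_mul,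
          Complex.conj_ofReal, mul_left_comm, Complex.re_ofReal_mul, Complex.normSq_eq_norm_sq B]
        have h6 : ‖B‖ ^ 2 ≤ M ^ 2 := by gcongr
        have h7 : t * M ^ 2 = δ := by rw [ht]; field_simp
        have h8 : t * ‖B‖ ^ 2 ≤ δ := by rw [← h7]; gcongr
        nlinarith
      rw [Complex.normSq_eq_norm_sq, Complex.normSq_eq_norm_sq] at h5
      exact (abs_le_of_sq_le_sq' h5 (norm_nonneg _)).2)
  have key : PowerSeries.mk c * F - PowerSeries.mk c' * F
      = PowerSeries.C (ε * t) * (E * G) := by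
    apply mul_right_cancel₀ (coe_ne_zero_of_disc hD)
    simp only [Polynomial.coe_sub, Polynomial.coe_mul, Polynomial.coe_C, Polynomial.coe_pow,
      map_mul] at hform hform' ⊢
    rw [← hG]
    linear_combination (G * ↑s * ↑D) * hform - G * hform'
      - (PowerSeries.C ε * PowerSeries.C t * G) * hE
  have h3 := congrArg (PowerSeries.coeff l) key
  rw [map_sub, PowerSeries.coeff_C_mul] at h3
  have h4 := hmax c' hc'
  have h5 : 0 ≤ t * (ε * PowerSeries.coeff l (E * G)) := by linarith
  exact nonneg_of_mul_nonneg_right h5 ht0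

theorem poisson_series (u : ℂ) :
    (PowerSeries.mk (fun i => if i = 0 then (1 : ℝ) else 2 * (u ^ i).re)) *
      ((1 - C (2 * u.re) * X + C (Complex.normSq u) * X ^ 2 : ℝ[X]) : PowerSeries ℝ)
      = ((1 - C (Complex.normSq u) * X ^ 2 : ℝ[X]) : PowerSeries ℝ) := by
  apply PowerSeries.map_injective (algebraMap ℝ ℂ) (algebraMap ℝ ℂ).injective
  have geo : ∀ v : ℂ, PowerSeries.mk (fun i => v ^ i) * (1 - PowerSeries.C v * PowerSeries.X)
      = 1 := by
    intro v
    have := congrArg (PowerSeries.rescale v) (PowerSeries.mk_one_mul_one_sub_eq_one ℂ)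
    simpa [PowerSeries.rescale_mk, PowerSeries.rescale_X] using this
  have e1 : PowerSeries.map (algebraMap ℝ ℂ)
      (PowerSeries.mk (fun i => if i = 0 then (1 : ℝ) else 2 * (u ^ i).re))
      = PowerSeries.mk (fun i => u ^ i) + PowerSeries.mk (fun i => (conj u) ^ i) - 1 := by
    ext i
    simp only [PowerSeries.coeff_map, PowerSeries.coeff_mk, map_sub, map_add,
      PowerSeries.coeff_one, Complex.coe_algebraMap]
    split_ifs with h
    · simp [h]
    · rw [← map_pow, Complex.add_conj]; simp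
  have e2 : (PowerSeries.C ((2 * u.re : ℝ) : ℂ) : PowerSeries ℂ)
      = PowerSeries.C u + PowerSeries.C (conj u) := by
    rw [← map_add, Complex.add_conj]
  have e3 : (PowerSeries.C ((Complex.normSq u : ℝ) : ℂ) : PowerSeries ℂ)
      = PowerSeries.C u * PowerSeries.C (conj u) := by
    rw [← map_mul, Complex.mul_conj]
  rw [map_mul, e1]
  simp only [Polynomial.coe_add, Polynomial.coe_sub, Polynomial.coe_mul, Polynomial.coe_C,
    Polynomial.coe_pow, Polynomial.coe_X, Polynomial.coe_one, map_add, map_sub, map_one, map_pow,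
    map_mul (PowerSeries.map (algebraMap ℝ ℂ)), PowerSeries.map_C, PowerSeries.map_X,
    Complex.coe_algebraMap]
  rw [e2, e3]
  linear_combination (1 - PowerSeries.C (conj u) * PowerSeries.X) * geo u
    + (1 - PowerSeries.C u * PowerSeries.X) * geo (conj u)

theorem re_cayley_pos {v : ℂ} (hv : ‖v‖ < 1) : 0 < ((1 + v) / (1 - v)).re := by
  have h0 : 1 - v ≠ 0 := by
    intro h
    have : v = 1 := by linear_combination -h
    simp [this] at hv
  rw [Complex.div_re, ← add_div]
  apply div_pos _ (Complex.normSq_pos.2 h0)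
  have : Complex.normSq v < 1 := by
    rw [Complex.normSq_eq_norm_sq]; nlinarith [norm_nonneg v]
  rw [Complex.normSq_apply] at this
  simp only [Complex.add_re, Complex.one_re, Complex.sub_re, Complex.add_im, Complex.one_im,
    Complex.sub_im]
  nlinarith

theorem exists_R {c : ℕ → ℝ} {s : ℝ[X]} {n r l : ℕ} (hl : n + r = l) {ε : ℝ}
    (hε : ε = 1 ∨ ε = -1)
    (hs : s.natDegree ≤ n) (hs0 : ∀ z : ℂ, ‖z‖ ≤ 1 → aeval z s ≠ 0)
    (hform : PowerSeries.mk c * (s : PowerSeries ℝ)
      = ((C ε * reflect n s : ℝ[X]) : PowerSeries ℝ))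
    {F : PowerSeries ℝ}
    (hmax : ∀ c', Sch c' →
      PowerSeries.coeff l (PowerSeries.mk c' * F) ≤ PowerSeries.coeff l (PowerSeries.mk c * F)) :
    ∃ R : ℝ[X], R.natDegree ≤ 2 * r ∧ (∀ z : ℂ, ‖z‖ = 1 → ∃ ρ : ℝ, 0 ≤ ρ ∧ (ε : ℂ) * aeval z R = ρ * z ^ r) ∧
      ∀ j ≤ l, (R * s ^ 2).coeff j = PowerSeries.coeff j F := by
  set G : PowerSeries ℝ := F * ((s : PowerSeries ℝ) ^ 2)⁻¹ with hGdef
  have hG : G * (s : PowerSeries ℝ) ^ 2 = F := by
    rw [hGdef, mul_assoc, PowerSeries.inv_mul_cancel, mul_one]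
    rw [map_pow]; exact pow_ne_zero _ (constantCoeff_ne_zero_of_disc hs0)
  have hε0 : ε ≠ 0 := by rcases hε with rfl | rfl <;> simp
  have weak : ∀ N : ℝ[X], (∀ z : ℂ, ‖z‖ = 1 → 0 ≤ (aeval z N / z ^ n).re) →
      0 ≤ ε * PowerSeries.coeff l ((N : PowerSeries ℝ) * G) := by
    intro N hN
    have h1 : ∀ η : ℝ, 0 < η → 0 ≤ ε * PowerSeries.coeff l ((N : PowerSeries ℝ) * G)
        + η * (ε * PowerSeries.coeff l (PowerSeries.X ^ n * G)) := by
      intro η hη
      have := first_order hε hs hs0 hform hG hmax (N := N + C η * X ^ n) (D := 1) (by simp)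
        (fun z hz => by
          have hz0 := pow_ne_zero n (ne_zero_of_norm hz)
          have := hN z hz
          simp only [map_add, map_mul, aeval_C, map_pow, aeval_X, map_one, one_mul,
            Complex.coe_algebraMap]
          rw [add_div, mul_div_assoc, div_self hz0, mul_one, Complex.add_re, Complex.ofReal_re]
          linarith) (E := ((N + C η * X ^ n : ℝ[X]) : PowerSeries ℝ)) (by simp)
      simp only [Polynomial.coe_add, Polynomial.coe_mul, Polynomial.coe_C, Polynomial.coe_pow,
        Polynomial.coe_X, add_mul, map_add, mul_assoc, PowerSeries.coeff_C_mul] at this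
      linarith
    have h2 : Filter.Tendsto (fun η : ℝ => ε * PowerSeries.coeff l ((N : PowerSeries ℝ) * G)
        + η * (ε * PowerSeries.coeff l (PowerSeries.X ^ n * G))) (nhdsWithin 0 (Set.Ioi 0))
        (nhds (ε * PowerSeries.coeff l ((N : PowerSeries ℝ) * G)
        + 0 * (ε * PowerSeries.coeff l (PowerSeries.X ^ n * G)))) :=
      (Continuous.tendsto (by fun_prop) 0).mono_left nhdsWithin_le_nhds
    have := ge_of_tendsto h2 (eventually_nhdsWithin_of_forall fun η hη => h1 η hη)
    simpa using this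
  have symm : ∀ i, i ≤ n → PowerSeries.coeff (r + i) G
      = if i ≤ r then PowerSeries.coeff (r - i) G else 0 := by
    intro i hi
    have hre : ∀ z : ℂ, ‖z‖ = 1 → ((z ^ (n + i) - z ^ (n - i)) / z ^ n).re = 0 := by
      intro z hz
      have hz0 := ne_zero_of_norm hz
      have : (z ^ (n + i) - z ^ (n - i)) / z ^ n = z ^ i - conj (z ^ i) := by
        rw [map_pow, ← inv_eq_conj_of_norm hz, pow_sub₀ z hz0 hi, pow_add, inv_pow]
        field_simp
      rw [this, Complex.sub_re, Complex.conj_re, sub_self]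
    have h1 := weak (X ^ (n + i) - X ^ (n - i)) (fun z hz => by simp [hre z hz])
    have h2 := weak (-(X ^ (n + i) - X ^ (n - i))) (fun z hz => by
      rw [map_neg, neg_div, Complex.neg_re]; simp [hre z hz])
    rw [Polynomial.coe_neg, neg_mul, map_neg, mul_neg] at h2
    have h3 : ε * PowerSeries.coeff l (((X ^ (n + i) - X ^ (n - i) : ℝ[X]) : PowerSeries ℝ) * G)
        = 0 := by linarith
    have h4 := (mul_eq_zero.1 h3).resolve_left hε0
    simp only [Polynomial.coe_sub, Polynomial.coe_pow, Polynomial.coe_X, sub_mul, map_sub,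
      PowerSeries.coeff_X_pow_mul'] at h4
    rw [if_pos (by omega : n - i ≤ l), show l - (n - i) = r + i by omega] at h4
    split_ifs with h
    · rw [if_pos (by omega), show l - (n + i) = r - i by omega] at h4
      linarith
    · rw [if_neg (by omega)] at h4
      linarith
  set A : ℝ[X] := PowerSeries.trunc (r + 1) G with hA
  have hAdeg : A.natDegree ≤ r := Nat.lt_succ_iff.1 (PowerSeries.natDegree_trunc_lt G r)
  have hAdeg' : (reflect r A).natDegree ≤ r := natDegree_reflect_le.trans (by simp [hAdeg])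
  have hpos : ∀ u : ℂ, ‖u‖ < 1 →
      0 ≤ ε * (2 * (aeval u (reflect r A)).re - PowerSeries.coeff r G) := by
    intro u hu
    have hfac : ∀ z : ℂ, aeval z (1 - C (2 * u.re) * X + C (Complex.normSq u) * X ^ 2 : ℝ[X])
        = (1 - u * z) * (1 - conj u * z) := by
      intro z
      simp only [map_add, map_sub, map_one, map_mul (aeval z), aeval_C, aeval_X, map_pow,
        Complex.coe_algebraMap]
      rw [← Complex.add_conj, ← Complex.mul_conj]; ring
    have hne : ∀ v z : ℂ, ‖v‖ < 1 → ‖z‖ ≤ 1 → ‖v * z‖ < 1 := by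
      intro v z hv hz
      rw [norm_mul]
      exact mul_lt_one_of_nonneg_of_lt_one_left (norm_nonneg _) hv hz
    have hne' : ∀ v : ℂ, ‖v‖ < 1 → 1 - v ≠ 0 := by
      intro v hv h
      have : v = 1 := by linear_combination -h
      simp [this] at hv
    have hu' : ‖conj u‖ < 1 := by simpa using hu
    have := first_order hε hs hs0 hform hG hmax
      (N := X ^ n * (1 - C (Complex.normSq u) * X ^ 2))
      (D := 1 - C (2 * u.re) * X + C (Complex.normSq u) * X ^ 2)
      (fun z hz => by
        rw [hfac]; exact mul_ne_zero (hne' _ (hne u z hu hz)) (hne' _ (hne _ z hu' hz)))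
      (fun z hz => by
        have h1 := re_cayley_pos (hne u z hu hz.le)
        have h2 := re_cayley_pos (hne _ z hu' hz.le)
        have h3 := hne' _ (hne u z hu hz.le)
        have h4 := hne' _ (hne _ z hu' hz.le)
        have hz0 := pow_ne_zero n (ne_zero_of_norm hz)
        have e : aeval z (X ^ n * (1 - C (Complex.normSq u) * X ^ 2) : ℝ[X]) /
            (aeval z (1 - C (2 * u.re) * X + C (Complex.normSq u) * X ^ 2 : ℝ[X]) * z ^ n)
            = ((1 / 2 : ℝ) : ℂ) * ((1 + u * z) / (1 - u * z) + (1 + conj u * z) / (1 - conj u * z))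
            := by
          rw [hfac]
          simp only [map_sub, map_one, map_mul (aeval z), aeval_C, aeval_X, map_pow,
            Complex.coe_algebraMap]
          rw [← Complex.mul_conj]
          push_cast
          field_simp
          ring
        rw [e, Complex.re_ofReal_mul, Complex.add_re]
        positivity)
      (E := PowerSeries.X ^ n * PowerSeries.mk (fun i => if i = 0 then (1 : ℝ) else 2 * (u ^ i).re))
      (by rw [mul_assoc, poisson_series]; simp)
    rw [mul_assoc, PowerSeries.coeff_X_pow_mul', if_pos (by omega), show l - n = r by omega,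
      PowerSeries.coeff_mul, Finset.Nat.sum_antidiagonal_eq_sum_range_succ_mk] at this
    convert this using 2
    rw [aeval_eq_sum_range' (Nat.lt_succ_of_le hAdeg'), Complex.re_sum, Finset.mul_sum,
      Finset.sum_range_succ', Finset.sum_range_succ']
    simp only [PowerSeries.coeff_mk, coeff_reflect, Nat.succ_ne_zero, if_false, if_true,
      Complex.real_smul, Complex.re_ofReal_mul, pow_zero, Complex.one_re, revAt_zero, Nat.sub_zero]
    have e1 : A.coeff r = PowerSeries.coeff r G := by simp [hA, PowerSeries.coeff_trunc]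
    rw [e1]
    have e2 : ∑ i ∈ Finset.range r, 2 * (A.coeff (revAt r (i + 1)) * (u ^ (i + 1)).re)
        = ∑ i ∈ Finset.range r, 2 * (u ^ (i + 1)).re * PowerSeries.coeff (r - (i + 1)) G := by
      apply Finset.sum_congr rfl
      intro i hi
      have hi' := Finset.mem_range.1 hi
      rw [revAt_le (by omega), hA, PowerSeries.coeff_trunc, if_pos (by omega)]
      ring
    rw [e2]; ring
  refine ⟨A + X ^ r * (reflect r A - C (PowerSeries.coeff r G)), ?_, fun w hw => ?_, ?_⟩
  · refine (natDegree_add_le _ _).trans (max_le (by omega) (natDegree_mul_le.trans ?_))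
    have h1 := natDegree_sub_le (reflect r A) (C (PowerSeries.coeff r G))
    rw [natDegree_C] at h1
    rw [natDegree_X_pow]
    omega
  · refine ⟨ε * (2 * (aeval w (reflect r A)).re - PowerSeries.coeff r G), ?_, ?_⟩
    · have h2 : Filter.Tendsto
          (fun τ : ℝ => ε * (2 * (aeval ((τ : ℂ) * w) (reflect r A)).re - PowerSeries.coeff r G))
          (nhdsWithin 1 (Set.Ioo 0 1))
          (nhds (ε * (2 * (aeval (((1 : ℝ) : ℂ) * w) (reflect r A)).re - PowerSeries.coeff r G))) := by
        refine (Continuous.tendsto ?_ 1).mono_left nhdsWithin_le_nhds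
        have := (differentiable_aeval (reflect r A)).continuous
        fun_prop
      have : (nhdsWithin (1 : ℝ) (Set.Ioo 0 1)).NeBot := right_nhdsWithin_Ioo_neBot one_pos
      have := ge_of_tendsto h2 (eventually_nhdsWithin_of_forall fun τ hτ => hpos _ (by
        rw [norm_mul, hw, mul_one, Complex.norm_real, Real.norm_eq_abs, abs_of_pos hτ.1]
        exact hτ.2))
      simpa using this
    · have h1 := aeval_reflect (reflect r A) hAdeg' hw
      rw [reflect_reflect] at h1
      simp only [map_add, map_mul, map_sub, map_pow, aeval_X, aeval_C, Complex.coe_algebraMap]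
      rw [h1]
      have h2 := Complex.add_conj (aeval w (reflect r A))
      push_cast at h2 ⊢
      rw [← h2]; ring
  · have hdvd : (PowerSeries.X : PowerSeries ℝ) ^ (l + 1) ∣
        ((A + X ^ r * (reflect r A - C (PowerSeries.coeff r G)) : ℝ[X]) : PowerSeries ℝ) - G := by
      rw [PowerSeries.X_pow_dvd_iff]
      intro j hj
      rw [map_sub, Polynomial.coeff_coe, coeff_add, coeff_X_pow_mul', coeff_sub, coeff_reflect,
        coeff_C, hA, PowerSeries.coeff_trunc, PowerSeries.coeff_trunc]
      by_cases h1 : j < r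
      · rw [if_pos (by omega), if_neg (by omega)]; ring
      by_cases h2 : j = r
      · subst h2
        simp
      · obtain ⟨i, rfl⟩ : ∃ i, j = r + i := ⟨j - r, by omega⟩
        rw [if_neg (by omega), if_pos (by omega), Nat.add_sub_cancel_left, if_neg (by omega : ¬ i = 0),
          symm i (by omega)]
        by_cases h3 : i ≤ r
        · rw [revAt_le h3, if_pos (by omega), if_pos h3]; ring
        · rw [revAt_eq_self_of_lt (by omega), if_neg (by omega), if_neg h3]; ring
    have h2 := PowerSeries.X_pow_dvd_iff.1 (hdvd.mul_right ((s : PowerSeries ℝ) ^ 2))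
    intro j hj
    have h3 := h2 j (by omega)
    rw [sub_mul, hG, map_sub, sub_eq_zero] at h3
    rw [← h3, ← Polynomial.coeff_coe, Polynomial.coe_mul, Polynomial.coe_pow]

end Pool.Agent.Lib.MP_55068a_an
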