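import Mathlib
import Pool.Agent.Lib.MP_55068a_an.Exist
import Pool.Agent.Lib.MP_55068a_an.DefsCert

namespace Pool.Agent.Lib.MP_55068a_an

open Polynomial Metric ComplexConjugate

theorem exists_support {k l : ℕ} (hk : 0 < k) (hkl : k < l) {c : ℕ → ℝ}
    (hmax : ∀ c', Sch c' → c' 0 = c 0 → c' k = c k → c' l ≤ c l) :
    ∃ α β γ : ℝ, 0 ≤ γ ∧ ¬ (α = 0 ∧ β = 0 ∧ γ = 0) ∧
      ∀ c', Sch c' → γ * c' l + β * c' k + α * c' 0 ≤ γ * c l + β * c k + α * c 0 := by
  set K : Set (ℝ × ℝ × ℝ) := {v | ∃ c', Sch c' ∧ v = (c' 0, c' k, c' l)} with hK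
  have hconv : Convex ℝ K := by
    rintro _ ⟨c1, h1, rfl⟩ _ ⟨c2, h2, rfl⟩ x y hx hy hxy
    exact ⟨_, h1.combo h2 hx hy hxy, by simp⟩
  have h0 : (0 : ℝ × ℝ × ℝ) ∈ interior K := by
    rw [mem_interior_iff_mem_nhds]
    apply Filter.mem_of_superset (ball_mem_nhds 0 (by norm_num : (0 : ℝ) < 1 / 3))
    rintro ⟨x, y, z⟩ hv
    simp only [mem_ball, dist_zero_right, Prod.norm_def, max_lt_iff, Real.norm_eq_abs] at hv
    refine ⟨(C x + C y * X ^ k + C z * X ^ l : ℝ[X]).coeff,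
      ⟨C x + C y * X ^ k + C z * X ^ l, 1, by simp, fun w hw => ?_, ?_⟩, ?_⟩
    · simp only [map_add, map_mul, aeval_C, map_pow, aeval_X, map_one, norm_one,
        Complex.coe_algebraMap]
      refine norm_add₃_le.trans ?_
      simp only [norm_mul, norm_pow, hw, one_pow, mul_one, Complex.norm_real, Real.norm_eq_abs]
      linarith [hv.1, hv.2.1, hv.2.2]
    · ext n; simp only [Polynomial.coe_one, mul_one, PowerSeries.coeff_mk, Polynomial.coeff_coe]
    · simp [coeff_C, coeff_X_pow, hk.ne, hk.ne', hkl.ne, hkl.ne', (hk.trans hkl).ne,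
        (hk.trans hkl).ne']
  set B : Set (ℝ × ℝ × ℝ) := {v | v.1 = c 0 ∧ v.2.1 = c k ∧ c l ≤ v.2.2} with hB
  have hBconv : Convex ℝ B := by
    rintro u ⟨u1, u2, u3⟩ v ⟨v1, v2, v3⟩ x y hx hy hxy
    refine ⟨?_, ?_, ?_⟩
    · simp only [Prod.fst_add, Prod.smul_fst, smul_eq_mul, u1, v1]
      rw [← add_mul, hxy, one_mul]
    · simp only [Prod.snd_add, Prod.smul_snd, Prod.fst_add, Prod.smul_fst, smul_eq_mul, u2, v2]
      rw [← add_mul, hxy, one_mul]
    · simp only [Prod.snd_add, Prod.smul_snd, smul_eq_mul]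
      calc c l = x * c l + y * c l := by rw [← add_mul, hxy, one_mul]
        _ ≤ _ := by gcongr
  have hdisj : Disjoint (interior K) B := by
    rw [Set.disjoint_left]
    rintro ⟨x, y, z⟩ hv ⟨h1, h2, h3⟩
    simp only at h1 h2 h3
    rw [mem_interior_iff_mem_nhds, Metric.mem_nhds_iff] at hv
    obtain ⟨η, hη, hv⟩ := hv
    have : ((x, y, z + η / 2) : ℝ × ℝ × ℝ) ∈ K := by
      apply hv
      simp only [mem_ball, Prod.dist_eq, dist_self, Real.dist_eq, add_sub_cancel_left, max_lt_iff]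
      refine ⟨hη, hη, ?_⟩
      rw [abs_of_pos (by linarith)]; linarith
    obtain ⟨c', hc', he⟩ := this
    simp only [Prod.mk.injEq] at he
    have := hmax c' hc' (by rw [← he.1, h1]) (by rw [← he.2.1, h2])
    linarith [he.2.2]
  obtain ⟨f, u, hf1, hf2⟩ := geometric_hahn_banach_open hconv.interior isOpen_interior hBconv hdisj
  have hlin : ∀ x y z : ℝ, f (x, y, z) = f (0, 0, 1) * z + f (0, 1, 0) * y + f (1, 0, 0) * x := by
    intro x y z
    have : ((x, y, z) : ℝ × ℝ × ℝ) = z • (0, 0, 1) + y • (0, 1, 0) + x • (1, 0, 0) := by simp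
    rw [this, map_add, map_add, map_smul, map_smul, map_smul]
    simp only [smul_eq_mul]; ring
  have hu : 0 < u := by simpa using hf1 0 h0
  have hP : u ≤ f (c 0, c k, c l) := hf2 _ ⟨rfl, rfl, le_rfl⟩
  refine ⟨f (1, 0, 0), f (0, 1, 0), f (0, 0, 1), ?_, ?_, ?_⟩
  · by_contra hneg
    push Not at hneg
    have h1 := hf2 (c 0, c k, c l + (f (c 0, c k, c l) - u + 1) / (-f (0, 0, 1)))
      ⟨rfl, rfl, by
        have : 0 ≤ (f (c 0, c k, c l) - u + 1) / (-f (0, 0, 1)) :=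
          div_nonneg (by linarith) (by linarith)
        simp only; linarith⟩
    rw [hlin, mul_add] at h1
    have h2 : f (0, 0, 1) * ((f (c 0, c k, c l) - u + 1) / (-f (0, 0, 1)))
        = -(f (c 0, c k, c l) - u + 1) := by
      have : f (0, 0, 1) ≠ 0 := hneg.ne
      field_simp
    rw [h2, hlin (c 0)] at h1
    linarith
  · rintro ⟨h1, h2, h3⟩
    rw [hlin, h1, h2, h3] at hP
    linarith
  · intro c' hc'
    rw [← hlin, ← hlin]
    refine le_trans ?_ hP
    have hmem : ((c' 0, c' k, c' l) : ℝ × ℝ × ℝ) ∈ K := ⟨c', hc', rfl⟩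
    have h1 : ∀ t ∈ Set.Ioo (0 : ℝ) 1, t * f (c' 0, c' k, c' l) ≤ u := by
      intro t ht
      have := hconv.combo_interior_self_mem_interior h0 hmem (a := 1 - t) (b := t)
        (by linarith [ht.2]) ht.1.le (by ring)
      have := (hf1 _ this).le
      rwa [smul_zero, zero_add, map_smul, smul_eq_mul] at this
    have h2 : Filter.Tendsto (fun t : ℝ => t * f (c' 0, c' k, c' l)) (nhdsWithin 1 (Set.Ioo 0 1))
        (nhds (1 * f (c' 0, c' k, c' l))) :=
      (Continuous.tendsto (by fun_prop) 1).mono_left nhdsWithin_le_nhds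
    have : (nhdsWithin (1 : ℝ) (Set.Ioo 0 1)).NeBot := right_nhdsWithin_Ioo_neBot one_pos
    have := le_of_tendsto h2 (eventually_nhdsWithin_of_forall h1)
    rwa [one_mul] at this

theorem abs_lt_one_of_inHR {c : ℕ → ℝ} (h : InHR c) : |c 0| < 1 := by
  obtain ⟨hc, n, hn, hn'⟩ := sch_of_inHR h
  refine lt_of_le_of_ne (hc.abs_le 0) fun h1 => hn' ?_
  have := congrArg (PowerSeries.coeff n) (hc.const_of_abs h1)
  simpa [PowerSeries.coeff_C, hn.ne'] using this

theorem nonconst_of_blaschke {c : ℕ → ℝ} {s : ℝ[X]} {n : ℕ} {ε : ℝ} (hε : ε = 1 ∨ ε = -1)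
    (hs : s.natDegree ≤ n) (hs0 : ∀ z : ℂ, ‖z‖ ≤ 1 → aeval z s ≠ 0)
    (hform : PowerSeries.mk c * (s : PowerSeries ℝ)
      = ((C ε * reflect n s : ℝ[X]) : PowerSeries ℝ)) (h0 : |c 0| < 1) :
    ∃ n, 0 < n ∧ c n ≠ 0 := by
  by_contra hcon
  push Not at hcon
  have e : PowerSeries.mk c = ((C (c 0) : ℝ[X]) : PowerSeries ℝ) := by
    ext n
    rcases Nat.eq_zero_or_pos n with rfl | hn
    · simp
    · simp [hcon n hn, PowerSeries.coeff_C, hn.ne']
  rw [e, ← Polynomial.coe_mul, Polynomial.coe_inj] at hform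
  have h1 := congrArg (fun P : ℝ[X] => ‖aeval (1 : ℂ) P‖) hform
  have hε1 : |ε| = 1 := by rcases hε with rfl | rfl <;> simp
  simp only [map_mul, norm_mul, norm_aeval_reflect s hs norm_one, aeval_C, Complex.coe_algebraMap,
    Complex.norm_real, Real.norm_eq_abs, hε1] at h1
  have := mul_right_cancel₀ (norm_ne_zero_iff.2 (hs0 1 (by simp))) h1
  linarith

theorem mk_eq_of_form {c : ℕ → ℝ} {s P : ℝ[X]} (hs0 : ∀ z : ℂ, ‖z‖ ≤ 1 → aeval z s ≠ 0)
    (hform : PowerSeries.mk c * (s : PowerSeries ℝ) = (P : PowerSeries ℝ)) (j : ℕ) :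
    PowerSeries.coeff j ((P : PowerSeries ℝ) * (s : PowerSeries ℝ)⁻¹) = c j := by
  rw [← hform, mul_assoc, PowerSeries.mul_inv_cancel _ (constantCoeff_ne_zero_of_disc hs0),
    mul_one, PowerSeries.coeff_mk]

theorem exists_extremal {k l : ℕ} (hk : 0 < k) (hkl : k < l) {a b : ℝ}
    (hne : (Vals k l a b).Nonempty) :
    ∃ x, ∃ R : ℝ[X], 0 ≤ R.coeff 0 ∧ Extremal k l a b x R := by
  obtain ⟨_, c0, hc0, ha, hb, -⟩ := hne
  have hcl : IsClosed {c : ℕ → ℝ | c 0 = a ∧ c k = b} :=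
    (isClosed_eq (continuous_apply 0) continuous_const).inter
      (isClosed_eq (continuous_apply k) continuous_const)
  have hs0 := (sch_of_inHR hc0).1
  obtain ⟨c1, ⟨⟨-, c, hc, hag⟩, h1a, h1b⟩, hmax1⟩ :=
    ((isCompact_body (l + 1)).inter_right hcl).exists_isMaxOn
      ⟨c0, ⟨hs0.abs_le, c0, hs0, fun _ _ => rfl⟩, ha, hb⟩ (continuous_apply l).continuousOn
  have hca : c 0 = a := by rw [hag 0 (by omega), h1a]
  have hcb : c k = b := by rw [hag k (by omega), h1b]
  have hmax : ∀ c', Sch c' → c' 0 = c 0 → c' k = c k → c' l ≤ c l := by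
    intro c' hc' h1 h2
    rw [hag l (by omega)]
    exact hmax1 ⟨⟨hc'.abs_le, c', hc', fun _ _ => rfl⟩, h1.trans hca, h2.trans hcb⟩
  obtain ⟨α, β, γ, hγ, hne, hsup⟩ := exists_support hk hkl hmax
  rcases hc.dichotomy (l + 1) with ⟨n, ε, s, hn, hε, hs, hs1, hs0, hform⟩ |
    ⟨c', p, q, hq, hpq, hform, hag'⟩
  · set F : PowerSeries ℝ := PowerSeries.C γ + PowerSeries.C β * PowerSeries.X ^ (l - k)
      + PowerSeries.C α * PowerSeries.X ^ l with hF
    obtain ⟨R, hRdeg, hR, hRF⟩ := exists_R (r := l - n) (l := l) (by omega) hε hs hs0 hform (F := F)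
      (fun c' hc' => by
        rw [hF, coeff_mul_F _ hkl.le, coeff_mul_F _ hkl.le]
        simpa using hsup c' hc')
    have hFc : ∀ j, PowerSeries.coeff j F = (if j = 0 then γ else 0)
        + β * (if j = l - k then 1 else 0) + α * (if j = l then 1 else 0) := by
      intro j
      rw [hF, map_add, map_add, PowerSeries.coeff_C, PowerSeries.coeff_C_mul,
        PowerSeries.coeff_C_mul, PowerSeries.coeff_X_pow, PowerSeries.coeff_X_pow]
    have hR0 : R.coeff 0 = γ := by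
      have := hRF 0 (Nat.zero_le _)
      rw [hFc, if_pos rfl, if_neg (by omega), if_neg (by omega), mul_coeff_zero, pow_two,
        mul_coeff_zero, hs1] at this
      linarith
    refine ⟨c l, R, hR0 ▸ hγ, n, l - n, ε, s, by omega, hε, hs, hs1, hs0, ?_, hRdeg, hR, ?_,
      (mk_eq_of_form hs0 hform 0).trans hca, (mk_eq_of_form hs0 hform k).trans hcb,
      mk_eq_of_form hs0 hform l⟩
    · rintro rfl
      apply hne
      have h1 := hRF l le_rfl
      have h2 := hRF (l - k) (Nat.sub_le _ _)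
      rw [hFc, if_neg (by omega), if_neg (by omega), if_pos rfl] at h1
      rw [hFc, if_neg (by omega), if_pos rfl, if_neg (by omega)] at h2
      simp only [zero_mul, coeff_zero, mul_zero, add_zero, zero_add, mul_one] at h1 h2 hR0
      exact ⟨h1.symm, h2.symm, hR0.symm⟩
    · intro j h0 hl hj
      rw [hRF j hl.le, hFc, if_neg (by omega), if_neg hj, if_neg (by omega)]; ring
  · exfalso
    apply hne
    have key : ∀ j, ∃ t0 : ℝ, 0 < t0 ∧ ∀ t : ℝ, |t| ≤ t0 →
        γ * (if l = j then t else 0) + β * (if k = j then t else 0)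
          + α * (if 0 = j then t else 0) ≤ 0 := by
      intro j
      obtain ⟨t0, ht0, h⟩ := sch_perturb_strict hq hpq hform j
      refine ⟨t0, ht0, fun t ht => ?_⟩
      have := hsup _ (h t ht)
      rw [hag' l (by omega), hag' k (by omega), hag' 0 (by omega)] at this
      linarith
    have fin : ∀ (y t0 : ℝ), 0 < t0 → (∀ t : ℝ, |t| ≤ t0 → y * t ≤ 0) → y = 0 := by
      intro y t0 ht0 h
      have h1 := h t0 (by rw [abs_of_pos ht0])
      have h2 := h (-t0) (by rw [abs_neg, abs_of_pos ht0])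
      have h3 : y * t0 = 0 := by linarith
      exact (mul_eq_zero.1 h3).resolve_right ht0.ne'
    refine ⟨?_, ?_, ?_⟩
    · obtain ⟨t0, ht0, h⟩ := key 0
      refine fin α t0 ht0 fun t ht => ?_
      have := h t ht
      rw [if_neg (by omega), if_neg (by omega), if_pos rfl] at this
      linarith
    · obtain ⟨t0, ht0, h⟩ := key k
      refine fin β t0 ht0 fun t ht => ?_
      have := h t ht
      rw [if_neg (by omega), if_pos rfl, if_neg (by omega)] at this
      linarith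
    · obtain ⟨t0, ht0, h⟩ := key l
      refine fin γ t0 ht0 fun t ht => ?_
      have := h t ht
      rw [if_pos rfl, if_neg (by omega), if_neg (by omega)] at this
      linarith

theorem coeff_three' (c : ℕ → ℝ) (Q : ℝ[X]) {k l : ℕ} (hk : 0 < k) (hkl : k < l)
    (hz : ∀ j, 0 < j → j < l → j ≠ l - k → Q.coeff j = 0) :
    PowerSeries.coeff l (PowerSeries.mk c * (Q : PowerSeries ℝ))
      = Q.coeff 0 * c l + Q.coeff (l - k) * c k + Q.coeff l * c 0 := by
  have h := coeff_three c ((Q : PowerSeries ℝ) + PowerSeries.C (1 - Q.coeff 0)) hk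
    (by omega : 0 < l - k) (by omega : l - k + k = l) (by simp) (fun j h0 hl hj => by
      rw [map_add, Polynomial.coeff_coe, hz j h0 hl hj, PowerSeries.coeff_C, if_neg h0.ne',
        add_zero])
  rw [mul_add, map_add, PowerSeries.coeff_mul_C, map_add, map_add, PowerSeries.coeff_C,
    PowerSeries.coeff_C, if_neg (by omega), if_neg (by omega), Polynomial.coeff_coe,
    Polynomial.coeff_coe, PowerSeries.coeff_mk] at h
  linarith

theorem isGreatest_of_extremal {k l : ℕ} (hk : 0 < k) (hkl : k < l) {a b x : ℝ} (ha : |a| < 1)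
    {R : ℝ[X]} (hR0 : 0 ≤ R.coeff 0) (h : Extremal k l a b x R) :
    IsGreatest (Vals k l a b) x := by
  obtain ⟨n, r, ε, s, hl, hε, hs, hs1, hs0, hRne, -, hR, hz, h0, hb, hx⟩ := h
  have hε1 : |ε| = 1 := by rcases hε with rfl | rfl <;> simp
  obtain ⟨c, hc, hform⟩ := exists_sch (C ε * reflect n s) s (fun z hz => hs0 z hz.le)
    (fun z hz => by
      rw [map_mul, norm_mul, norm_aeval_reflect s hs hz, aeval_C]
      simp [hε1])
  rw [mk_eq_of_form hs0 hform] at h0 hb hx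
  refine ⟨⟨c, inHR_of_sch hc (nonconst_of_blaschke hε hs hs0 hform (h0 ▸ ha)), h0, hb, hx⟩, ?_⟩
  rintro y ⟨c', hc', h0', hb', rfl⟩
  have hc'' := (sch_of_inHR hc').1
  have h1 := cert_bound hc'' s R hs hl hε1 hR
  have h2 := cert_eq s R hform l
  have h3 := coeff_three' c (R * s ^ 2) hk hkl hz
  have h4 := coeff_three' c' (R * s ^ 2) hk hkl hz
  have h5 : (R * s ^ 2).coeff 0 = R.coeff 0 := by
    rw [mul_coeff_zero, pow_two, mul_coeff_zero, hs1]; ring
  rw [h5, h0, hb, hx] at h3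
  rw [h5, h0', hb'] at h4
  rcases hR0.eq_or_lt with h6 | h6
  · have h7 := cert_unique hc'' s R hs hl hε1 hRne hR (by rw [← h2, h3, h4, ← h6]; ring)
    rw [← mk_eq_of_form hs0 h7 l, mk_eq_of_form hs0 hform l, hx]
  · have : R.coeff 0 * c' l ≤ R.coeff 0 * x := by linarith
    exact le_of_mul_le_mul_left this h6

theorem isLUB_iff_extremal {k l : ℕ} (hk : 0 < k) (hkl : k < l) {a b : ℝ}
    (hne : (Vals k l a b).Nonempty) (x : ℝ) :
    IsLUB (Vals k l a b) x ↔ ∃ R : ℝ[X], 0 ≤ R.coeff 0 ∧ Extremal k l a b x R := by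
  have ha : |a| < 1 := by
    obtain ⟨_, c0, hc0, ha, -⟩ := hne
    exact ha ▸ abs_lt_one_of_inHR hc0
  constructor
  · intro h
    obtain ⟨y, R, hR, hy⟩ := exists_extremal hk hkl hne
    rw [h.unique (isGreatest_of_extremal hk hkl ha hR hy).isLUB]
    exact ⟨R, hR, hy⟩
  · rintro ⟨R, hR, h⟩
    exact (isGreatest_of_extremal hk hkl ha hR h).isLUB

theorem Extremal.neg {k l : ℕ} {a b x : ℝ} {R : ℝ[X]} (h : Extremal k l a b x R) :
    Extremal k l (-a) (-b) (-x) (-R) := by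
  obtain ⟨n, r, ε, s, hl, hε, hs, hs1, hs0, hRne, hRd, hR, hz, h0, hb, hx⟩ := h
  have e : ((C (-ε) * reflect n s : ℝ[X]) : PowerSeries ℝ) * (s : PowerSeries ℝ)⁻¹
      = -(((C ε * reflect n s : ℝ[X]) : PowerSeries ℝ) * (s : PowerSeries ℝ)⁻¹) := by
    rw [C_neg, neg_mul, Polynomial.coe_neg, neg_mul]
  refine ⟨n, r, -ε, s, hl, ?_, hs, hs1, hs0, neg_ne_zero.2 hRne, by rwa [natDegree_neg], ?_, ?_,
    by rw [e, map_neg, h0], by rw [e, map_neg, hb], by rw [e, map_neg, hx]⟩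
  · rcases hε with rfl | rfl <;> simp
  · intro z hz
    simpa using hR z hz
  · intro j h1 h2 h3
    rw [neg_mul, coeff_neg, hz j h1 h2 h3, neg_zero]

theorem isGLB_iff_extremal {k l : ℕ} (hk : 0 < k) (hkl : k < l) {a b : ℝ}
    (hne : (Vals k l a b).Nonempty) (x : ℝ) :
    IsGLB (Vals k l a b) x ↔ ∃ R : ℝ[X], R.coeff 0 ≤ 0 ∧ Extremal k l a b x R := by
  have hne' : (Vals k l (-a) (-b)).Nonempty := by rw [vals_neg]; exact hne.neg
  have h := isGLB_vals_neg k l (-a) (-b) (-x)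
  rw [neg_neg, neg_neg, neg_neg] at h
  rw [h, isLUB_iff_extremal hk hkl hne']
  constructor
  · rintro ⟨R, hR, h⟩
    exact ⟨-R, by simpa using hR, by simpa using h.neg⟩
  · rintro ⟨R, hR, h⟩
    exact ⟨-R, by simpa using hR, h.neg⟩

end Pool.Agent.Lib.MP_55068a_an
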