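import Mathlib
import Pool.Agent.Lib.MP_55068a_an.Defs

namespace Pool.Agent.Lib.MP_55068a_an.Dy

/-- `x` is obtained from `a`, `b` and the constants in the field `K` by field operations and
radicals (complex radicals allowed). -/
def Rad (K : Type) [Field K] [Algebra K ℂ] (a b x : ℝ) : Prop :=
  (x : ℂ) ∈ solvableByRad (IntermediateField.adjoin K ({(a : ℂ), (b : ℂ)} : Set ℂ)) ℂ

/-- The largest real root of `p x^3 + q x^2 + r x + s`. -/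
noncomputable def top (p q r s : ℝ) : ℝ := sSup {x : ℝ | p * x ^ 3 + q * x ^ 2 + r * x + s = 0}

/-- Ratio `2`. -/
noncomputable def U2 (a b : ℝ) : ℝ := 1 - a ^ 2 - b ^ 2 / (1 - a)

/-- Ratio `3`. -/
noncomputable def U3 (a b : ℝ) : ℝ :=
  if |a| - 1 ≤ b then 1 - a ^ 2 - b ^ 2 else b ^ 3 / (1 - |a|) ^ 2 - (1 + 2 * |a|) * b

/-- Ratio `4`. -/
noncomputable def U4 (a b : ℝ) : ℝ :=
  if 0 ≤ a then 1 - a ^ 2 - b ^ 2 - (1 - a) * max 0 (b ^ 2 / (1 - a) ^ 2 - 1 - a) ^ 2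
  else
    let y := (-a + √(a ^ 2 + 3 + 6 * |b|)) / 3
    if y ≤ 1 then 1 - a ^ 2 - b ^ 2
    else -3 * y ^ 5 - 5 / 4 * a * y ^ 4 + 3 * y ^ 3 - 3 / 2 * a * y ^ 2 - 2 * a ^ 2 * y + 3 / 4 * a

open Classical in
/-- Ratio `5`. -/
noncomputable def U5 (a b : ℝ) : ℝ :=
  let t := |a|
  if t - 1 ≤ b then
    let g := top 2 (-3 * t) (-(1 + 3 * b)) t
    let d := g ^ 2 - t * g - b - 1
    1 - a ^ 2 - b ^ 2 - max 0 d ^ 2 * (2 + d + 9 * g ^ 2 * (1 + d) - 3 * g ^ 4)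
  else
    let s := -b / (1 - t)
    if ∀ c ∈ Set.Icc (-2 : ℝ) 2,
        0 ≤ c ^ 3 + 2 * s * c ^ 2 + (3 * s ^ 2 - 2 * t - 3) * c + 4 * s ^ 3 - 6 * t * s - 4 * s then
      (1 - t) * s * (-s ^ 4 + (4 * t + 1) * s ^ 2 - 3 * t ^ 2 - 2 * t)
    else
      let y := top 5 0 (-(3 + 2 * t)) (2 * b)
      (-75 * y ^ 7 + (111 + 14 * t) * y ^ 5 + (20 * t - 45) * y ^ 3
        + (9 - 18 * t - 16 * t ^ 2) * y) / 8

/-- Auxiliary root for ratio `3/2`. -/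
noncomputable def W (a b : ℝ) : ℝ := √((1 - a ^ 2 - b) / (1 - a))

/-- Ratio `3/2`. -/
noncomputable def U32 (a b : ℝ) : ℝ :=
  if W a b ≤ min (1 + a) |2 - √(3 - 2 * a)| then W a b * (1 - a) * |1 + 2 * a - W a b ^ 2|
  else if W (-a) (-b) ≤ min (1 - a) |2 - √(3 + 2 * a)| then
    W (-a) (-b) * (1 + a) * |1 - 2 * a - W (-a) (-b) ^ 2|
  else ⨅ u : ℝ, (1 - a ^ 2 + u ^ 2 / 4 + a * u ^ 3 / 8 + u ^ 4 / 64 - u * b)

/-- The five ratios `l / k = 3/2, 2, 3, 4, 5`. -/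
def Ratio (k l : ℕ) : Prop := 2 * l = 3 * k ∨ l = 2 * k ∨ l = 3 * k ∨ l = 4 * k ∨ l = 5 * k

/-- The closed form attached to the ratio `l / k`. -/
noncomputable def F (k l : ℕ) (a b : ℝ) : ℝ :=
  if 2 * l = 3 * k then U32 a b else if l = 2 * k then U2 a b else if l = 3 * k then U3 a b
  else if l = 4 * k then U4 a b else U5 a b

end Pool.Agent.Lib.MP_55068a_an.Dy
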