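import Mathlib
import Pool.Agent.Lib.MP_55068a_an.Complete

namespace Pool.Agent.Lib.MP_55068a_an

open Polynomial Metric ComplexConjugate

/-- No zero in the open unit disc. -/
def Stable (s : ℝ[X]) : Prop := ∀ z : ℂ, ‖z‖ < 1 → aeval z s ≠ 0

/-- A convenient sufficient certificate. -/
def Cert (k l : ℕ) (a b x : ℝ) : Prop :=
  ∃ (n r : ℕ) (ε α β : ℝ) (s R P : ℝ[X]), n + r = l ∧ (ε = 1 ∨ ε = -1) ∧ s.natDegree ≤ n ∧
    Stable s ∧ (∀ z : ℂ, ‖z‖ = 1 → ∃ ρ : ℝ, 0 ≤ ρ ∧ (ε : ℂ) * aeval z R = ρ * z ^ r) ∧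
    X ^ (l + 1) ∣ R * s ^ 2 - (1 + C β * X ^ (l - k) + C α * X ^ l) ∧
    X ^ (l + 1) ∣ P * s - C ε * reflect n s ∧ P.coeff 0 = a ∧ P.coeff k = b ∧ P.coeff l = x

theorem reflect_expand {g : ℕ} (hg : 0 < g) (n : ℕ) (s : ℝ[X]) :
    reflect (g * n) (expand ℝ g s) = expand ℝ g (reflect n s) := by
  ext j
  rw [coeff_reflect, coeff_expand hg, coeff_expand hg, coeff_reflect]
  by_cases hj : j ≤ g * n
  · rw [revAt_le hj]
    by_cases hd : g ∣ j
    · obtain ⟨i, rfl⟩ := hd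
      have hi : i ≤ n := Nat.le_of_mul_le_mul_left hj hg
      rw [← Nat.mul_sub, if_pos (dvd_mul_right _ _), if_pos (dvd_mul_right _ _),
        Nat.mul_div_cancel_left _ hg, Nat.mul_div_cancel_left _ hg, revAt_le hi]
    · rw [if_neg hd, if_neg]
      intro h
      exact hd ((Nat.dvd_sub_iff_right hj (dvd_mul_right g n)).1 h)
  · push Not at hj
    rw [revAt_eq_self_of_lt hj]
    by_cases hd : g ∣ j
    · obtain ⟨i, rfl⟩ := hd
      have hi : n < i := Nat.lt_of_mul_lt_mul_left hj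
      rw [if_pos (dvd_mul_right _ _), if_pos (dvd_mul_right _ _), Nat.mul_div_cancel_left _ hg,
        revAt_eq_self_of_lt hi]
    · rw [if_neg hd, if_neg hd]

theorem Cert.expand {k l : ℕ} {a b x : ℝ} (h : Cert k l a b x) {g : ℕ} (hg : 0 < g) :
    Cert (g * k) (g * l) a b x := by
  obtain ⟨n, r, ε, α, β, s, R, P, hl, hε, hs, hs0, hR, h1, h2, ha, hb, hx⟩ := h
  have hd : ∀ Q : ℝ[X], X ^ (l + 1) ∣ Q → X ^ (g * l + 1) ∣ Polynomial.expand ℝ g Q := by
    intro Q hQ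
    have := map_dvd (Polynomial.expand ℝ g) hQ
    rw [map_pow, expand_X, ← pow_mul] at this
    exact (pow_dvd_pow X (by nlinarith)).trans this
  refine ⟨g * n, g * r, ε, α, β, Polynomial.expand ℝ g s, Polynomial.expand ℝ g R,
    Polynomial.expand ℝ g P, by rw [← mul_add, hl], hε, ?_, ?_, ?_, ?_, ?_, ?_, ?_, ?_⟩
  · rw [natDegree_expand, mul_comm]; exact Nat.mul_le_mul_left _ hs
  · intro z hz
    rw [expand_aeval]
    exact hs0 _ (by rw [norm_pow]; exact pow_lt_one₀ (norm_nonneg _) hz hg.ne')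
  · intro z hz
    rw [expand_aeval, pow_mul]
    exact hR _ (by rw [norm_pow, hz, one_pow])
  · have := hd _ h1
    simpa [← pow_mul, Nat.mul_sub] using this
  · have := hd _ h2
    simpa [reflect_expand hg] using this
  · simpa [ha] using coeff_expand_mul' hg P 0
  · rw [coeff_expand_mul' hg, hb]
  · rw [coeff_expand_mul' hg, hx]

theorem Cert.isGreatest {k l : ℕ} (hkl : k < l) {a b x : ℝ} (ha : |a| < 1)
    (h : Cert k l a b x) : IsGreatest (Vals k l a b) x := by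
  obtain ⟨n, r, ε, α, β, s, R, P, hl, hε, hs, hs0, hR, h1, h2, h0, hb, hx⟩ := h
  have hε1 : |ε| = 1 := by rcases hε with rfl | rfl <;> simp
  obtain ⟨c, hc, hform⟩ := exists_sch (C ε * reflect n s) s hs0
    (fun z hz => by
      rw [map_mul, norm_mul, norm_aeval_reflect s hs hz, aeval_C]
      simp [hε1])
  have hsc : PowerSeries.constantCoeff (s : PowerSeries ℝ) ≠ 0 := by
    intro h0
    apply hs0 0 (by simp)
    rw [aeval_eq_eval_map, ← coeff_zero_eq_eval_zero]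
    simpa using h0
  have hag : ∀ j ≤ l, c j = P.coeff j := by
    obtain ⟨H, hH⟩ := h2
    have h3 := congrArg (fun Q : ℝ[X] => (Q : PowerSeries ℝ)) hH
    simp only [Polynomial.coe_sub, Polynomial.coe_mul P, ← hform, Polynomial.coe_mul (X ^ _),
      Polynomial.coe_pow, Polynomial.coe_X] at h3
    have hu : IsUnit (s : PowerSeries ℝ) := by
      rw [PowerSeries.isUnit_iff_constantCoeff]; exact hsc.isUnit
    have h4 : (PowerSeries.X : PowerSeries ℝ) ^ (l + 1) ∣ (P : PowerSeries ℝ) - PowerSeries.mk c := by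
      rw [← hu.dvd_mul_right, sub_mul, h3]; exact dvd_mul_right _ _
    intro j hj
    have := PowerSeries.X_pow_dvd_iff.1 h4 j (by omega)
    rw [map_sub, Polynomial.coeff_coe, PowerSeries.coeff_mk, sub_eq_zero] at this
    exact this.symm
  have hval : ∀ c' : ℕ → ℝ,
      PowerSeries.coeff l (PowerSeries.mk c' * ((R * s ^ 2 : ℝ[X]) : PowerSeries ℝ))
        = c' l + β * c' k + α * c' 0 := by
    intro c'
    obtain ⟨H, hH⟩ := h1
    have h3 := congrArg (fun Q : ℝ[X] => (Q : PowerSeries ℝ)) (sub_eq_iff_eq_add.1 hH)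
    simp only [Polynomial.coe_add, Polynomial.coe_mul (X ^ _), Polynomial.coe_mul (C _),
      Polynomial.coe_pow (φ := X), Polynomial.coe_X, Polynomial.coe_C, Polynomial.coe_one] at h3
    have h4 := coeff_mul_F (PowerSeries.mk c') hkl.le α β 1
    rw [h3, mul_add, map_add, mul_left_comm, PowerSeries.coeff_X_pow_mul', if_neg (by omega),
      zero_add]
    simpa using h4
  have ha' : c 0 = a := (hag 0 (by omega)).trans h0
  have hb' : c k = b := (hag k hkl.le).trans hb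
  have hx' : c l = x := (hag l le_rfl).trans hx
  refine ⟨⟨c, inHR_of_sch hc ?_, ha', hb', hx'⟩, ?_⟩
  · by_contra hcon
    push Not at hcon
    have e : PowerSeries.mk c = ((C (c 0) : ℝ[X]) : PowerSeries ℝ) := by
      ext n
      rcases Nat.eq_zero_or_pos n with rfl | hn
      · simp
      · simp [hcon n hn, PowerSeries.coeff_C, hn.ne']
    rw [e, ← Polynomial.coe_mul, Polynomial.coe_inj] at hform
    have e0 := congrArg (fun Q : ℝ[X] => Q.coeff 0) hform
    have en := congrArg (fun Q : ℝ[X] => Q.coeff n) hform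
    simp only [coeff_C_mul, coeff_reflect, revAt_zero, revAt_le le_rfl, Nat.sub_self, ha'] at e0 en
    have hs00 : s.coeff 0 ≠ 0 := by simpa using hsc
    have hε2 : ε * ε = 1 := by rcases hε with rfl | rfl <;> simp
    have : (a * a - 1) * s.coeff 0 = 0 := by
      linear_combination a * e0 + ε * en + s.coeff 0 * hε2
    have h5 := (mul_eq_zero.1 this).resolve_right hs00
    have h6 : |a| * |a| < 1 := mul_lt_one_of_nonneg_of_lt_one_left (abs_nonneg a) ha ha.le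
    rw [abs_mul_abs_self] at h6
    linarith
  · rintro y ⟨c', hc', h0', hb'', rfl⟩
    have h3 := cert_bound (sch_of_inHR hc').1 s R hs hl hε1 hR
    rw [← cert_eq s R hform l, hval, hval, ha', hb', hx', h0', hb''] at h3
    linarith

theorem Stable.step {s : ℝ[X]} {n : ℕ} (hs : s.natDegree ≤ n) (h : Stable s) {γ : ℝ}
    (hγ : |γ| ≤ 1) : Stable (s + C γ * (X * reflect n s)) := by
  obtain ⟨c, ⟨p, q, hq, hpq, hform⟩, hform'⟩ := exists_sch (reflect n s) s h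
    (fun z hz => (norm_aeval_reflect s hs hz).le)
  have e : p * s = reflect n s * q := by
    rw [← Polynomial.coe_inj, Polynomial.coe_mul, Polynomial.coe_mul, ← hform, ← hform']; ring
  intro z hz h0
  have h1 : ‖aeval z (reflect n s)‖ ≤ ‖aeval z s‖ := by
    have h2 := congrArg (fun Q : ℝ[X] => ‖aeval z Q‖) e
    simp only [map_mul, norm_mul] at h2
    have h3 := norm_le_on_disc hq hpq hz.le
    have h4 := norm_pos_iff.2 (hq z hz.le)
    have h5 : ‖aeval z (reflect n s)‖ * ‖aeval z q‖ ≤ ‖aeval z s‖ * ‖aeval z q‖ := by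
      rw [← h2, mul_comm]; gcongr
    exact le_of_mul_le_mul_right h5 h4
  simp only [map_add, map_mul, aeval_C, aeval_X, Complex.coe_algebraMap] at h0
  have h2 : aeval z s = -(γ * (z * aeval z (reflect n s))) := by linear_combination h0
  have h3 : ‖aeval z s‖ = |γ| * (‖z‖ * ‖aeval z (reflect n s)‖) := by
    rw [h2, norm_neg, norm_mul, norm_mul, Complex.norm_real, Real.norm_eq_abs]
  have h4 : 0 < ‖aeval z s‖ := norm_pos_iff.2 (h z hz)
  have h5 : ‖z‖ * ‖aeval z (reflect n s)‖ ≤ ‖z‖ * ‖aeval z s‖ := by gcongr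
  have h6 : |γ| * (‖z‖ * ‖aeval z (reflect n s)‖) ≤ 1 * (‖z‖ * ‖aeval z s‖) := by gcongr
  nlinarith

theorem reflect1 (s1 : ℝ) : reflect 1 (1 + C s1 * X : ℝ[X]) = C s1 + X := by
  rw [reflect_add, reflect_one, reflect_C_mul, reflect_one_X]; ring

theorem reflect2 (s1 s2 : ℝ) :
    reflect 2 (1 + C s1 * X + C s2 * X ^ 2 : ℝ[X]) = C s2 + C s1 * X + X ^ 2 := by
  rw [← pow_one (X : ℝ[X]), ← pow_mul]
  simp only [reflect_add, reflect_one, reflect_C_mul_X_pow]
  simp [revAt_le]; ring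

theorem reflect3 (s1 s2 s3 : ℝ) :
    reflect 3 (1 + C s1 * X + C s2 * X ^ 2 + C s3 * X ^ 3 : ℝ[X])
      = C s3 + C s2 * X + C s1 * X ^ 2 + X ^ 3 := by
  rw [← pow_one (X : ℝ[X]), ← pow_mul, ← pow_mul]
  simp only [reflect_add, reflect_one, reflect_C_mul_X_pow]
  simp [revAt_le]; ring

theorem reflect4 (s1 s2 s3 s4 : ℝ) :
    reflect 4 (1 + C s1 * X + C s2 * X ^ 2 + C s3 * X ^ 3 + C s4 * X ^ 4 : ℝ[X])
      = C s4 + C s3 * X + C s2 * X ^ 2 + C s1 * X ^ 3 + X ^ 4 := by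
  rw [← pow_one (X : ℝ[X]), ← pow_mul, ← pow_mul, ← pow_mul]
  simp only [reflect_add, reflect_one, reflect_C_mul_X_pow]
  simp [revAt_le]; ring

theorem stable1 {s1 : ℝ} (h : |s1| ≤ 1) : Stable (1 + C s1 * X) := by
  have := Stable.step (s := 1) (n := 0) (by simp) (fun z _ => by simp) h
  simpa using this

theorem stable2 {s1 s2 : ℝ} (h2 : |s2| ≤ 1) (h1 : |s1| ≤ 1 + s2) :
    Stable (1 + C s1 * X + C s2 * X ^ 2) := by
  obtain ⟨γ, hγ, rfl⟩ : ∃ γ : ℝ, |γ| ≤ 1 ∧ s1 = γ * (1 + s2) := by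
    rcases (le_trans (abs_nonneg _) h1).eq_or_lt with h | h
    · exact ⟨0, by simp, by rw [← h] at h1; simpa using h1⟩
    · exact ⟨s1 / (1 + s2), by rwa [abs_div, abs_of_pos h, div_le_one h], by field_simp⟩
  have := (stable1 hγ).step (n := 1) (by compute_degree) h2
  rw [reflect1] at this
  convert this using 1
  simp only [map_mul, map_add, map_one]; ring

theorem stable3 {s1 s2 s3 : ℝ} (h3 : |s3| < 1) (h2 : |s2 - s3 * s1| ≤ 1 - s3 ^ 2)
    (h1 : |s1 - s3 * s2| ≤ 1 - s3 ^ 2 + (s2 - s3 * s1)) :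
    Stable (1 + C s1 * X + C s2 * X ^ 2 + C s3 * X ^ 3) := by
  have hp : 0 < 1 - s3 ^ 2 := by rw [← sq_abs]; nlinarith [abs_nonneg s3]
  have := (stable2 (s1 := (s1 - s3 * s2) / (1 - s3 ^ 2)) (s2 := (s2 - s3 * s1) / (1 - s3 ^ 2))
    (by rwa [abs_div, abs_of_pos hp, div_le_one hp])
    (by rw [abs_div, abs_of_pos hp, div_le_iff₀ hp, add_mul, div_mul_cancel₀ _ hp.ne', one_mul]
        exact h1)).step (n := 2) (by compute_degree) h3.le
  rw [reflect2] at this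
  convert this using 1
  apply Polynomial.funext
  intro x
  simp only [eval_add, eval_mul, eval_C, eval_X, eval_pow, eval_one]
  field_simp
  ring

theorem stable4 {s1 s2 s3 s4 t1 t2 t3 : ℝ} (h4 : |s4| ≤ 1)
    (h : Stable (1 + C t1 * X + C t2 * X ^ 2 + C t3 * X ^ 3))
    (e1 : s1 = t1 + s4 * t3) (e2 : s2 = t2 + s4 * t2) (e3 : s3 = t3 + s4 * t1) :
    Stable (1 + C s1 * X + C s2 * X ^ 2 + C s3 * X ^ 3 + C s4 * X ^ 4) := by
  have := h.step (n := 3) (by compute_degree) h4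
  rw [reflect3] at this
  convert this using 1
  subst e1 e2 e3
  simp only [map_mul, map_add]; ring

theorem stable_diamond {a b : ℝ} (h : |a| + |b| ≤ 1) {m l : ℕ} (hm : m ≠ 0) (hl : l ≠ 0) :
    Stable (1 + C b * X ^ m + C a * X ^ l) := by
  intro z hz h0
  simp only [map_add, map_mul, map_one, aeval_C, map_pow, aeval_X, Complex.coe_algebraMap] at h0
  have h1 : (1 : ℂ) = -(b * z ^ m + a * z ^ l) := by linear_combination h0
  have h2 : (1 : ℝ) ≤ |b| * ‖z‖ ^ m + |a| * ‖z‖ ^ l := by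
    have := congrArg norm h1
    rw [norm_one, norm_neg] at this
    rw [this]
    refine (norm_add_le _ _).trans ?_
    simp
  have h3 : ‖z‖ ^ m ≤ ‖z‖ := pow_le_of_le_one (norm_nonneg _) hz.le hm
  have h4 : ‖z‖ ^ l ≤ ‖z‖ := pow_le_of_le_one (norm_nonneg _) hz.le hl
  have h5 : |b| * ‖z‖ ^ m ≤ |b| * ‖z‖ := by gcongr
  have h6 : |a| * ‖z‖ ^ l ≤ |a| * ‖z‖ := by gcongr
  have h7 : (|a| + |b|) * ‖z‖ ≤ 1 * ‖z‖ := by gcongr
  nlinarith

theorem circle_R0 : ∀ z : ℂ, ‖z‖ = 1 →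
    ∃ ρ : ℝ, 0 ≤ ρ ∧ ((1 : ℝ) : ℂ) * aeval z (1 : ℝ[X]) = ρ * z ^ 0 :=
  fun _ _ => ⟨1, zero_le_one, by simp⟩

theorem circle_R1 {ε y : ℝ} (hε : ε = 1 ∨ ε = -1) (hy : 1 ≤ y) : ∀ z : ℂ, ‖z‖ = 1 →
    ∃ ρ : ℝ, 0 ≤ ρ ∧ (ε : ℂ) * aeval z (1 + C (2 * ε * y) * X + X ^ 2 : ℝ[X]) = ρ * z ^ 1 := by
  intro z hz
  have h1 := conj_mul_self_of_norm hz
  have h2 := Complex.add_conj z
  have h3 : |z.re| ≤ 1 := hz ▸ Complex.abs_re_le_norm z
  rw [abs_le] at h3
  refine ⟨2 * y + 2 * ε * z.re, ?_, ?_⟩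
  · rcases hε with rfl | rfl <;> linarith [h3.1, h3.2]
  · simp only [map_add, map_one, map_mul (aeval z), aeval_C, map_pow, aeval_X,
      Complex.coe_algebraMap]
    have hε2 : (ε : ℂ) * ε = 1 := by rcases hε with rfl | rfl <;> simp
    push_cast at h2 ⊢
    linear_combination (2 * y * z) * hε2 + ε * z * h2 - ε * h1

theorem circle_R2 {p q : ℝ} (h : ∀ c : ℝ, 0 ≤ 4 * c ^ 2 + 2 * p * c + q - 2) :
    ∀ z : ℂ, ‖z‖ = 1 → ∃ ρ : ℝ, 0 ≤ ρ ∧ ((1 : ℝ) : ℂ) *
      aeval z (1 + C p * X + C q * X ^ 2 + C p * X ^ 3 + X ^ 4 : ℝ[X]) = ρ * z ^ 2 := by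
  intro z hz
  have h1 := conj_mul_self_of_norm hz
  have h2 := Complex.add_conj z
  refine ⟨4 * z.re ^ 2 + 2 * p * z.re + q - 2, h _, ?_⟩
  simp only [map_add, map_one, map_mul (aeval z), aeval_C, map_pow, aeval_X,
    Complex.coe_algebraMap]
  push_cast at h2 ⊢
  linear_combination (p * z ^ 2 + z ^ 2 * (z + conj z + 2 * z.re)) * h2
    - (p * z + 2 * z ^ 2 + conj z * z + 1) * h1

end Pool.Agent.Lib.MP_55068a_an
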