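import Mathlib
import Pool.Agent.Lib.MP_55068a_an.Small

namespace Pool.Agent.Lib.MP_55068a_an

open Polynomial

theorem cert13main (a b : ℝ) (h : Stable (1 + C 0 * X + C b * X ^ 2 + C a * X ^ 3)) :
    Cert 1 3 (a) (b) (1 - a ^ 2 - b ^ 2) := by
  refine ⟨3, 0, 1, 2 * a,
    2 * b,
    1 + C 0 * X + C b * X ^ 2 + C a * X ^ 3, 1,
    C (a) + C (b) * X + C ((-1) * a * b) * X ^ 2 + C (1 + (-1) * a ^ 2 + (-1) * b ^ 2) * X ^ 3,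
    rfl, Or.inl rfl, by compute_degree, h, circle_R0,
    ⟨C (b ^ 2) + C (2 * a * b) * X + C (a ^ 2) * X ^ 2, ?_⟩,
    ⟨C (a * b + (-1) * a * b ^ 2) + C ((-2) * a ^ 2 * b + b + (-1) * b ^ 3) * X + C (a + (-1) * a * b ^ 2 + (-1) * a ^ 3) * X ^ 2, ?_⟩, ?_, ?_, ?_⟩
  · apply Polynomial.funext
    intro x
    simp only [eval_add, eval_sub, eval_mul, eval_C, eval_X, eval_pow, eval_one]
    ring
  · rw [reflect3]
    apply Polynomial.funext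
    intro x
    simp only [eval_add, eval_sub, eval_mul, eval_C, eval_X, eval_pow, eval_one]
    ring
  all_goals
    simp only [coeff_add, coeff_C_mul, coeff_X_pow, coeff_C, coeff_X]
    norm_num
    try ring

theorem cert13p (t y : ℝ) (h : Stable (1 + C (-y) * X + C t * X ^ 2)) (hy : 1 ≤ y) :
    Cert 1 3 (t) (-((1 - t) * y)) ((1 - t) * y * (1 + 2 * t - y ^ 2)) := by
  refine ⟨2, 1, 1, 2 * t * y + (-2) * y + 2 * y ^ 3,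
    1 + 2 * t + (-3) * y ^ 2,
    1 + C (-y) * X + C t * X ^ 2, 1 + C (2 * (1) * y) * X + X ^ 2,
    C (t) + C (t * y + (-1) * y) * X + C (1 + t * y ^ 2 + (-1) * t ^ 2 + (-1) * y ^ 2) * X ^ 2 + C (t * y + t * y ^ 3 + (-2) * t ^ 2 * y + y + (-1) * y ^ 3) * X ^ 3,
    rfl, Or.inl rfl, by compute_degree, h, circle_R1 (Or.inl rfl) hy,
    ⟨C (2 * t + (-4) * t * y ^ 2 + t ^ 2 + y ^ 2) + C ((-2) * t * y + 2 * t ^ 2 * y) * X + C (t ^ 2) * X ^ 2, ?_⟩,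
    ⟨C (t + (-2) * t * y ^ 2 + (-1) * t * y ^ 4 + 3 * t ^ 2 * y ^ 2 + (-1) * t ^ 3 + (-1) * y ^ 2 + y ^ 4) + C (t * y + (-1) * t * y ^ 3 + t ^ 2 * y + t ^ 2 * y ^ 3 + (-2) * t ^ 3 * y) * X, ?_⟩, ?_, ?_, ?_⟩
  · apply Polynomial.funext
    intro x
    simp only [eval_add, eval_sub, eval_mul, eval_C, eval_X, eval_pow, eval_one]
    ring
  · rw [reflect2]
    apply Polynomial.funext
    intro x
    simp only [eval_add, eval_sub, eval_mul, eval_C, eval_X, eval_pow, eval_one]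
    ring
  all_goals
    simp only [coeff_add, coeff_C_mul, coeff_X_pow, coeff_C, coeff_X]
    norm_num
    try ring

theorem cert13m (t y : ℝ) (h : Stable (1 + C y * X + C t * X ^ 2)) (hy : 1 ≤ y) :
    Cert 1 3 (-t) (-((1 - t) * y)) ((1 - t) * y * (1 + 2 * t - y ^ 2)) := by
  refine ⟨2, 1, -1, (-2) * t * y + 2 * y + (-2) * y ^ 3,
    1 + 2 * t + (-3) * y ^ 2,
    1 + C y * X + C t * X ^ 2, 1 + C (2 * (-1) * y) * X + X ^ 2,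
    C ((-1) * t) + C (t * y + (-1) * y) * X + C ((-1) + (-1) * t * y ^ 2 + t ^ 2 + y ^ 2) * X ^ 2 + C (t * y + t * y ^ 3 + (-2) * t ^ 2 * y + y + (-1) * y ^ 3) * X ^ 3,
    rfl, Or.inr rfl, by compute_degree, h, circle_R1 (Or.inr rfl) hy,
    ⟨C (2 * t + (-4) * t * y ^ 2 + t ^ 2 + y ^ 2) + C (2 * t * y + (-2) * t ^ 2 * y) * X + C (t ^ 2) * X ^ 2, ?_⟩,
    ⟨C ((-1) * t + 2 * t * y ^ 2 + t * y ^ 4 + (-3) * t ^ 2 * y ^ 2 + t ^ 3 + y ^ 2 + (-1) * y ^ 4) + C (t * y + (-1) * t * y ^ 3 + t ^ 2 * y + t ^ 2 * y ^ 3 + (-2) * t ^ 3 * y) * X, ?_⟩, ?_, ?_, ?_⟩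
  · apply Polynomial.funext
    intro x
    simp only [eval_add, eval_sub, eval_mul, eval_C, eval_X, eval_pow, eval_one]
    ring
  · rw [reflect2]
    apply Polynomial.funext
    intro x
    simp only [eval_add, eval_sub, eval_mul, eval_C, eval_X, eval_pow, eval_one]
    ring
  all_goals
    simp only [coeff_add, coeff_C_mul, coeff_X_pow, coeff_C, coeff_X]
    norm_num
    try ring

theorem cert14main (a b : ℝ) (h : Stable (1 + C 0 * X + C 0 * X ^ 2 + C b * X ^ 3 + C a * X ^ 4)) :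
    Cert 1 4 (a) (b) (1 - a ^ 2 - b ^ 2) := by
  refine ⟨4, 0, 1, 2 * a,
    2 * b,
    1 + C 0 * X + C 0 * X ^ 2 + C b * X ^ 3 + C a * X ^ 4, 1,
    C (a) + C (b) * X + C (0) * X ^ 2 + C ((-1) * a * b) * X ^ 3 + C (1 + (-1) * a ^ 2 + (-1) * b ^ 2) * X ^ 4,
    rfl, Or.inl rfl, by compute_degree, h, circle_R0,
    ⟨C (0) + C (b ^ 2) * X + C (2 * a * b) * X ^ 2 + C (a ^ 2) * X ^ 3, ?_⟩,
    ⟨C (a * b) + C ((-1) * a * b ^ 2) * X + C ((-2) * a ^ 2 * b + b + (-1) * b ^ 3) * X ^ 2 + C (a + (-1) * a * b ^ 2 + (-1) * a ^ 3) * X ^ 3, ?_⟩, ?_, ?_, ?_⟩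
  · apply Polynomial.funext
    intro x
    simp only [eval_add, eval_sub, eval_mul, eval_C, eval_X, eval_pow, eval_one]
    ring
  · rw [reflect4]
    apply Polynomial.funext
    intro x
    simp only [eval_add, eval_sub, eval_mul, eval_C, eval_X, eval_pow, eval_one]
    ring
  all_goals
    simp only [coeff_add, coeff_C_mul, coeff_X_pow, coeff_C, coeff_X]
    norm_num
    try ring

theorem cert14two (a y : ℝ) (h : Stable (1 + C y * X + C a * X ^ 2)) (hy : 1 + a ≤ y ^ 2) :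
    Cert 1 4 (a) ((1 - a) * y) ((1 - a) * (-y ^ 4 + (1 + 3 * a) * y ^ 2 - a * (1 + a))) := by
  refine ⟨2, 2, 1, 1 + (-3) * a ^ 2 + (-4) * y ^ 2 + 3 * y ^ 4,
    (-6) * a * y + (-2) * y + 4 * y ^ 3,
    1 + C y * X + C a * X ^ 2, 1 + C (-2 * y) * X + C (3 * y ^ 2 - 2 * a) * X ^ 2 + C (-2 * y) * X ^ 3 + X ^ 4,
    C (a) + C ((-1) * a * y + y) * X + C (1 + a * y ^ 2 + (-1) * a ^ 2 + (-1) * y ^ 2) * X ^ 2 + C ((-1) * a * y + (-1) * a * y ^ 3 + 2 * a ^ 2 * y + (-1) * y + y ^ 3) * X ^ 3 + C ((-1) * a + 2 * a * y ^ 2 + a * y ^ 4 + (-3) * a ^ 2 * y ^ 2 + a ^ 3 + y ^ 2 + (-1) * y ^ 4) * X ^ 4,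
    rfl, Or.inl rfl, by compute_degree, h, circle_R2 (fun c => by nlinarith [sq_nonneg (2 * c - y)]),
    ⟨C ((-4) * a * y + 6 * a * y ^ 3 + (-6) * a ^ 2 * y + 2 * y + (-2) * y ^ 3) + C (2 * a + (-4) * a * y ^ 2 + 3 * a ^ 2 * y ^ 2 + (-2) * a ^ 3 + y ^ 2) * X + C (2 * a * y + (-2) * a ^ 2 * y) * X ^ 2 + C (a ^ 2) * X ^ 3, ?_⟩,
    ⟨C ((-2) * a * y + 3 * a * y ^ 3 + a * y ^ 5 + (-1) * a ^ 2 * y + (-4) * a ^ 2 * y ^ 3 + 3 * a ^ 3 * y + y ^ 3 + (-1) * y ^ 5) + C (a * y ^ 2 + (-1) * a * y ^ 4 + (-1) * a ^ 2 + 2 * a ^ 2 * y ^ 2 + a ^ 2 * y ^ 4 + (-3) * a ^ 3 * y ^ 2 + a ^ 4) * X, ?_⟩, ?_, ?_, ?_⟩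
  · apply Polynomial.funext
    intro x
    simp only [eval_add, eval_sub, eval_mul, eval_C, eval_X, eval_pow, eval_one]
    ring
  · rw [reflect2]
    apply Polynomial.funext
    intro x
    simp only [eval_add, eval_sub, eval_mul, eval_C, eval_X, eval_pow, eval_one]
    ring
  all_goals
    simp only [coeff_add, coeff_C_mul, coeff_X_pow, coeff_C, coeff_X]
    norm_num
    try ring

theorem cert14p (a y : ℝ) (h : Stable (1 + C (-y) * X + C ((3 * y ^ 2 - 1) / 2) * X ^ 2 + C a * X ^ 3)) (hy : 1 ≤ y) :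
    Cert 1 4 (a) ((3 * y ^ 2 - 1) / 2 + a * y) (-3 * y ^ 5 - 5 / 4 * a * y ^ 4 + 3 * y ^ 3 - 3 / 2 * a * y ^ 2 - 2 * a ^ 2 * y + 3 / 4 * a) := by
  refine ⟨3, 1, 1, (-3 / 4) + 2 * a * y + (9 / 2) * y ^ 2 + (-15 / 4) * y ^ 4,
    2 * a + (-3) * y + 5 * y ^ 3,
    1 + C (-y) * X + C ((3 * y ^ 2 - 1) / 2) * X ^ 2 + C a * X ^ 3, 1 + C (2 * (1) * y) * X + X ^ 2,
    C (a) + C ((-1 / 2) + a * y + (3 / 2) * y ^ 2) * X + C ((1 / 2) * a + (-1 / 2) * a * y ^ 2 + (-3 / 2) * y + (3 / 2) * y ^ 3) * X ^ 2 + C ((3 / 4) + a * y + (-2) * a * y ^ 3 + (-1) * a ^ 2 + (-3 / 4) * y ^ 4) * X ^ 3 + C ((3 / 4) * a + (-3 / 2) * a * y ^ 2 + (-5 / 4) * a * y ^ 4 + (-2) * a ^ 2 * y + 3 * y ^ 3 + (-3) * y ^ 5) * X ^ 4,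
    rfl, Or.inl rfl, by compute_degree, h, circle_R1 (Or.inl rfl) hy,
    ⟨C (a + (-1) * a * y ^ 2 + (3 / 2) * y + (-6) * y ^ 3 + (9 / 2) * y ^ 5) + C ((1 / 4) + (-4) * a * y + 6 * a * y ^ 3 + a ^ 2 + (-3 / 2) * y ^ 2 + (9 / 4) * y ^ 4) * X + C ((-1) * a + 3 * a * y ^ 2 + 2 * a ^ 2 * y) * X ^ 2 + C (a ^ 2) * X ^ 3, ?_⟩,
    ⟨C ((-3 / 8) + (-11 / 4) * a * y + (11 / 2) * a * y ^ 3 + (-7 / 4) * a * y ^ 5 + a ^ 2 + (9 / 8) * y ^ 2 + (-21 / 8) * y ^ 4 + (15 / 8) * y ^ 6) + C ((3 / 8) * a + (15 / 8) * a * y ^ 2 + (-19 / 8) * a * y ^ 4 + (-15 / 8) * a * y ^ 6 + 2 * a ^ 2 * y + (-5) * a ^ 2 * y ^ 3 + (-1) * a ^ 3 + (-3 / 2) * y ^ 3 + 6 * y ^ 5 + (-9 / 2) * y ^ 7) * X + C (3 * a * y ^ 3 + (-3) * a * y ^ 5 + (3 / 4) * a ^ 2 + (-3 / 2) * a ^ 2 * y ^ 2 + (-5 / 4) * a ^ 2 * y ^ 4 + (-2) * a ^ 3 * y) * X ^ 2, ?_⟩, ?_, ?_, ?_⟩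
  · apply Polynomial.funext
    intro x
    simp only [eval_add, eval_sub, eval_mul, eval_C, eval_X, eval_pow, eval_one]
    ring
  · rw [reflect3]
    apply Polynomial.funext
    intro x
    simp only [eval_add, eval_sub, eval_mul, eval_C, eval_X, eval_pow, eval_one]
    ring
  all_goals
    simp only [coeff_add, coeff_C_mul, coeff_X_pow, coeff_C, coeff_X]
    norm_num
    try ring

theorem cert14m (a y : ℝ) (h : Stable (1 + C y * X + C ((3 * y ^ 2 - 1) / 2) * X ^ 2 + C (-a) * X ^ 3)) (hy : 1 ≤ y) :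
    Cert 1 4 (a) (-((3 * y ^ 2 - 1) / 2 + a * y)) (-3 * y ^ 5 - 5 / 4 * a * y ^ 4 + 3 * y ^ 3 - 3 / 2 * a * y ^ 2 - 2 * a ^ 2 * y + 3 / 4 * a) := by
  refine ⟨3, 1, -1, (-3 / 4) + 2 * a * y + (9 / 2) * y ^ 2 + (-15 / 4) * y ^ 4,
    (-2) * a + 3 * y + (-5) * y ^ 3,
    1 + C y * X + C ((3 * y ^ 2 - 1) / 2) * X ^ 2 + C (-a) * X ^ 3, 1 + C (2 * (-1) * y) * X + X ^ 2,
    C (a) + C ((1 / 2) + (-1) * a * y + (-3 / 2) * y ^ 2) * X + C ((1 / 2) * a + (-1 / 2) * a * y ^ 2 + (-3 / 2) * y + (3 / 2) * y ^ 3) * X ^ 2 + C ((-3 / 4) + (-1) * a * y + 2 * a * y ^ 3 + a ^ 2 + (3 / 4) * y ^ 4) * X ^ 3 + C ((3 / 4) * a + (-3 / 2) * a * y ^ 2 + (-5 / 4) * a * y ^ 4 + (-2) * a ^ 2 * y + 3 * y ^ 3 + (-3) * y ^ 5) * X ^ 4,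
    rfl, Or.inr rfl, by compute_degree, h, circle_R1 (Or.inr rfl) hy,
    ⟨C ((-1) * a + a * y ^ 2 + (-3 / 2) * y + 6 * y ^ 3 + (-9 / 2) * y ^ 5) + C ((1 / 4) + (-4) * a * y + 6 * a * y ^ 3 + a ^ 2 + (-3 / 2) * y ^ 2 + (9 / 4) * y ^ 4) * X + C (a + (-3) * a * y ^ 2 + (-2) * a ^ 2 * y) * X ^ 2 + C (a ^ 2) * X ^ 3, ?_⟩,
    ⟨C ((3 / 8) + (11 / 4) * a * y + (-11 / 2) * a * y ^ 3 + (7 / 4) * a * y ^ 5 + (-1) * a ^ 2 + (-9 / 8) * y ^ 2 + (21 / 8) * y ^ 4 + (-15 / 8) * y ^ 6) + C ((3 / 8) * a + (15 / 8) * a * y ^ 2 + (-19 / 8) * a * y ^ 4 + (-15 / 8) * a * y ^ 6 + 2 * a ^ 2 * y + (-5) * a ^ 2 * y ^ 3 + (-1) * a ^ 3 + (-3 / 2) * y ^ 3 + 6 * y ^ 5 + (-9 / 2) * y ^ 7) * X + C ((-3) * a * y ^ 3 + 3 * a * y ^ 5 + (-3 / 4) * a ^ 2 + (3 / 2) * a ^ 2 * y ^ 2 + (5 / 4) * a ^ 2 * y ^ 4 + 2 * a ^ 3 * y) * X ^ 2, ?_⟩, ?_, ?_, ?_⟩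
  · apply Polynomial.funext
    intro x
    simp only [eval_add, eval_sub, eval_mul, eval_C, eval_X, eval_pow, eval_one]
    ring
  · rw [reflect3]
    apply Polynomial.funext
    intro x
    simp only [eval_add, eval_sub, eval_mul, eval_C, eval_X, eval_pow, eval_one]
    ring
  all_goals
    simp only [coeff_add, coeff_C_mul, coeff_X_pow, coeff_C, coeff_X]
    norm_num
    try ring

end Pool.Agent.Lib.MP_55068a_an
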