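import Mathlib
import Pool.Agent.Lib.MP_55068a_an.Small

/-!
The value of the extremal problem for `l = 7 k` at a rational point generates an `S 5` quintic field.
-/

namespace Pool.Agent.Lib.MP_55068a_an.H98

open Polynomial

/-- the reversed quintic -/
noncomputable def M (R : Type) [CommRing R] : R[X] :=
  C 22 * X ^ 5 + C (-55) * X ^ 4 + C 350 * X ^ 2 + C (-315)

lemma map_M {R S : Type} [CommRing R] [CommRing S] (f : R →+* S) : (M R).map f = M S := by
  simp [M, map_ofNat]

lemma natDegree_M (R : Type) [Field R] [CharZero R] : (M R).natDegree = 5 := by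
  unfold M
  compute_degree!

lemma degree_MZ : (M ℤ).degree = 5 := by
  unfold M
  compute_degree!

lemma aeval_M {R : Type} [CommRing R] [Algebra ℚ R] (w : R) :
    aeval w (M ℚ) = 22 * w ^ 5 - 55 * w ^ 4 + 350 * w ^ 2 - 315 := by
  simp only [M, map_add, map_mul, map_pow, aeval_X, map_neg, map_ofNat]
  ring

lemma irreducible_M : Irreducible (M ℚ) := by
  have hc : ∀ n, (M ℤ).coeff n = if n = 5 then 22 else if n = 4 then -55 else if n = 2 then 350
      else if n = 0 then -315 else 0 := fun n => by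
    simp only [M, coeff_add, coeff_C_mul, coeff_X_pow, coeff_C]
    split_ifs <;> omega
  have hp : (M ℤ).IsPrimitive := by
    rw [isPrimitive_iff_isUnit_of_C_dvd]
    intro r hr
    rw [C_dvd_iff_dvd_coeff] at hr
    have h1 := hr 5
    have h2 := hr 0
    rw [hc] at h1 h2
    refine isUnit_of_dvd_one ?_
    have := (h1.mul_left (-43)).add (h2.mul_left (-3))
    norm_num at this ⊢
    exact this
  rw [← map_M (Int.castRingHom ℚ), ← IsPrimitive.Int.irreducible_iff_irreducible_map_cast hp]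
  refine irreducible_of_eisenstein_criterion (P := Ideal.span {5}) ?_ ?_ ?_ ?_ ?_ hp
  · rw [Ideal.span_singleton_prime (by norm_num)]
    exact Int.prime_ofNat_iff.2 Nat.prime_five
  · rw [leadingCoeff, natDegree_eq_of_degree_eq_some (n := 5) degree_MZ, hc,
      Ideal.mem_span_singleton]
    norm_num
  · intro n hn
    rw [degree_MZ] at hn
    norm_cast at hn
    rw [Ideal.mem_span_singleton, hc]
    interval_cases n <;> norm_num
  · rw [degree_MZ]; norm_num
  · rw [hc, Ideal.span_singleton_pow, Ideal.mem_span_singleton]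
    norm_num

lemma real_roots_le : Fintype.card ((M ℚ).rootSet ℝ) ≤ 3 := by
  refine (card_rootSet_le_derivative _).trans
    (Nat.succ_le_succ ((card_rootSet_le_derivative _).trans (Nat.succ_le_succ ?_)))
  have key : ∀ w ∈ (derivative (derivative (M ℚ))).rootSet ℝ, 22 * w ^ 3 - 33 * w ^ 2 + 35 = 0 := by
    intro w hw
    have := aeval_eq_zero_of_mem_rootSet hw
    simp [M, map_ofNat] at this
    linarith
  rw [Fintype.card_le_one_iff]
  rintro ⟨u, hu⟩ ⟨v, hv⟩
  have h1 := key u hu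
  have h2 := key v hv
  have neg : ∀ w : ℝ, 22 * w ^ 3 - 33 * w ^ 2 + 35 = 0 → w < 0 := fun w hw => by
    by_contra! h
    nlinarith [mul_nonneg h (sq_nonneg (w - 1)), sq_nonneg (w - 1)]
  have h3 := neg u h1
  have h4 := neg v h2
  have h5 : (u - v) * (22 * (u ^ 2 + u * v + v ^ 2) - 33 * (u + v)) = 0 := by
    linear_combination h1 - h2
  have h6 : 0 < 22 * (u ^ 2 + u * v + v ^ 2) - 33 * (u + v) := by
    nlinarith [mul_pos_of_neg_of_neg h3 h4]
  exact Subtype.ext (sub_eq_zero.1 ((mul_eq_zero.1 h5).resolve_right h6.ne'))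

lemma real_roots_ge : 2 ≤ Fintype.card ((M ℚ).rootSet ℝ) := by
  have hc : ∀ s : Set ℝ, ContinuousOn (fun w : ℝ => aeval w (M ℚ)) s :=
    fun s => (M ℚ).continuousOn_aeval
  obtain ⟨x, hx1, hx⟩ := intermediate_value_Icc (zero_le_one' ℝ) (hc _)
    (show (0 : ℝ) ∈ _ by simp only [aeval_M, Set.mem_Icc]; norm_num)
  obtain ⟨y, hy1, hy⟩ := intermediate_value_Icc' (show (-13 / 10 : ℝ) ≤ -1 by norm_num) (hc _)
    (show (0 : ℝ) ∈ _ by simp only [aeval_M, Set.mem_Icc]; norm_num)
  rw [Nat.succ_le_iff, Fintype.one_lt_card_iff]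
  refine ⟨⟨x, (mem_rootSet_of_ne irreducible_M.ne_zero).2 hx⟩,
    ⟨y, (mem_rootSet_of_ne irreducible_M.ne_zero).2 hy⟩, fun h => ?_⟩
  have := congrArg Subtype.val h
  simp only at this
  linarith [hx1.1, hy1.2]

attribute [local instance] Gal.splits_ℚ_ℂ

lemma not_solvable {w : ℂ} (hw : aeval w (M ℚ) = 0) : w ∉ solvableByRad ℚ ℂ := by
  have hc : Fintype.card ((M ℚ).rootSet ℂ) = 5 :=
    (card_rootSet_eq_natDegree irreducible_M.separable (IsAlgClosed.splits _)).trans (natDegree_M ℚ)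
  have hb : Function.Bijective (Gal.galActionHom (M ℚ) ℂ) := by
    apply Gal.galActionHom_bijective_of_prime_degree' irreducible_M
    · rw [natDegree_M]; exact Nat.prime_five
    · rw [hc]; linarith [real_roots_le]
    · rw [hc]; linarith [real_roots_ge]
  intro h
  have := isSolvable_gal_of_irreducible h irreducible_M hw
  refine Equiv.Perm.not_isSolvable _ (le_of_eq ?_) (Group.isSolvable_of_surjective hb.2)
  rw_mod_cast [Cardinal.mk_fintype, hc]

lemma step {γ μ : ℝ} (hγ : |γ| ≤ 1) {z A B : ℂ} (hz : ‖z‖ ≤ 1) (h : ‖B‖ ≤ ‖A‖ ∧ μ ≤ ‖A‖) :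
    ‖γ * A + z * B‖ ≤ ‖A + γ * (z * B)‖ ∧ (1 - |γ|) * μ ≤ ‖A + γ * (z * B)‖ := by
  have h1 : ‖z * B‖ ≤ ‖A‖ := by
    rw [norm_mul]
    exact (mul_le_of_le_one_left (norm_nonneg _) hz).trans h.1
  refine ⟨norm_step_le hγ h1, ?_⟩
  have h2 := norm_sub_le (A + γ * (z * B)) (γ * (z * B))
  rw [add_sub_cancel_right, norm_mul, Complex.norm_real, Real.norm_eq_abs] at h2
  nlinarith [mul_le_mul_of_nonneg_left h1 (abs_nonneg γ),
    mul_le_mul_of_nonneg_left h.2 (sub_nonneg.2 hγ)]

lemma lower {z : ℂ} (hz : ‖z‖ ≤ 1) : (27 / 1000 : ℝ) ≤ ‖1 + (50161 / 50000) * z + (25262526673 / 25000000000) * z ^ 2 +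
    (255255446095089 / 250000000000000) * z ^ 3 + (51717825523 / 50000000000) * z ^ 4 + (6571 / 6250) * z ^ 5 + (1 / 2) * z ^ 6‖ := by
  have h := (step (γ := 1 / 2) (by rw [abs_le]; norm_num) hz
    (step (γ := 733 / 1000) (by rw [abs_le]; norm_num) hz
    (step (γ := 516 / 1000) (by rw [abs_le]; norm_num) hz
    (step (γ := 403 / 1000) (by rw [abs_le]; norm_num) hz
    (step (γ := 246 / 1000) (by rw [abs_le]; norm_num) hz
    (step (γ := -(39 / 1000)) (μ := 1) (A := 1) (B := 1) (by rw [abs_le]; norm_num) hz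
      (by simp))))))).2
  refine le_trans (le_trans ?_ h) (le_of_eq ?_)
  · simp only [abs_neg]
    repeat rw [abs_of_pos (by norm_num)]
    norm_num
  · congr 1
    push_cast
    ring

lemma stable {y : ℝ} (h1 : 10034 / 10000 ≤ y) (h2 : y ≤ 10035 / 10000) :
    Stable (C ((1)) +
      C ((1) * y) * X +
      C ((-1 / 2) + (3 / 2) * y ^ 2) * X ^ 2 +
      C ((-3 / 2) * y + (5 / 2) * y ^ 3) * X ^ 3 +
      C ((3 / 8) + (-15 / 4) * y ^ 2 + (35 / 8) * y ^ 4) * X ^ 4 +
      C ((15 / 8) * y + (-35 / 4) * y ^ 3 + (63 / 8) * y ^ 5) * X ^ 5 +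
      C ((1 / 2)) * X ^ 6) := by
  intro z hz h0
  have hy : 0 ≤ y := by linarith
  have l2 := pow_le_pow_left₀ (by norm_num) h1 2
  have l3 := pow_le_pow_left₀ (by norm_num) h1 3
  have l4 := pow_le_pow_left₀ (by norm_num) h1 4
  have l5 := pow_le_pow_left₀ (by norm_num) h1 5
  have u2 := pow_le_pow_left₀ hy h2 2
  have u3 := pow_le_pow_left₀ hy h2 3
  have u4 := pow_le_pow_left₀ hy h2 4
  have u5 := pow_le_pow_left₀ hy h2 5
  have b : ∀ (e : ℝ) (n : ℕ), |e| ≤ 1 / 250 → ‖(e : ℂ) * z ^ n‖ ≤ 1 / 250 := fun e n he => by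
    rw [norm_mul, norm_pow, Complex.norm_real, Real.norm_eq_abs]
    exact (mul_le_of_le_one_right (abs_nonneg _) (pow_le_one₀ (norm_nonneg _) hz.le)).trans he
  have b1 := b ((50161 / 50000) - ((1) * y)) 1 (by rw [abs_le]; constructor <;> linarith)
  have b2 := b ((25262526673 / 25000000000) - ((-1 / 2) + (3 / 2) * y ^ 2)) 2 (by rw [abs_le]; constructor <;> linarith)
  have b3 := b ((255255446095089 / 250000000000000) - ((-3 / 2) * y + (5 / 2) * y ^ 3)) 3 (by rw [abs_le]; constructor <;> linarith)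
  have b4 := b ((51717825523 / 50000000000) - ((3 / 8) + (-15 / 4) * y ^ 2 + (35 / 8) * y ^ 4)) 4 (by rw [abs_le]; constructor <;> linarith)
  have b5 := b (((6571 / 6250) - ((15 / 8) * y + (-35 / 4) * y ^ 3 + (63 / 8) * y ^ 5)) / 2) 5 (by rw [abs_le]; constructor <;> linarith)
  have h3 := norm_add_le_of_le (norm_add_le_of_le (norm_add_le_of_le b1 b2)
    (norm_add_le_of_le b3 b4)) (norm_add_le_of_le b5 b5)
  refine absurd ((lower hz.le).trans ((le_of_eq ?_).trans h3)) (by norm_num)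
  congr 1
  simp only [map_add, map_mul, map_pow, aeval_C, aeval_X, Complex.coe_algebraMap] at h0
  push_cast at h0 ⊢
  linear_combination h0

lemma reflect6 (s0 s1 s2 s3 s4 s5 s6 : ℝ) :
    reflect 6 (C s0 + C s1 * X + C s2 * X ^ 2 + C s3 * X ^ 3 + C s4 * X ^ 4 + C s5 * X ^ 5 +
      C s6 * X ^ 6 : ℝ[X]) = C s6 + C s5 * X + C s4 * X ^ 2 + C s3 * X ^ 3 + C s2 * X ^ 4 +
      C s1 * X ^ 5 + C s0 * X ^ 6 := by
  rw [← pow_one (X : ℝ[X]), ← pow_mul, ← pow_mul, ← pow_mul, ← pow_mul, ← pow_mul]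
  simp only [reflect_add, reflect_C, reflect_C_mul_X_pow]
  simp [revAt_le]; ring

lemma cert {y : ℝ} (h1 : 10034 / 10000 ≤ y) (h2 : y ≤ 10035 / 10000)
    (hm : 315 * y ^ 5 - 350 * y ^ 3 + 55 * y - 22 = 0) :
    Cert 1 7 (-1 / 2) (-11 / 20) ((588577 / 816480) + (-29381 / 408240) * y + (-106711 / 45360) * y ^ 2 + (2719 / 10206) * y ^ 3 + (539 / 288) * y ^ 4) := by
  refine ⟨6, 1, -1, (11 / 4) * y + (-105 / 4) * y ^ 3 + (189 / 4) * y ^ 5 + (-99 / 4) * y ^ 7,
    (13 / 8) + (-105 / 8) * y ^ 2 + (315 / 8) * y ^ 4 + (-231 / 8) * y ^ 6,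
    C ((1)) +
      C ((1) * y) * X +
      C ((-1 / 2) + (3 / 2) * y ^ 2) * X ^ 2 +
      C ((-3 / 2) * y + (5 / 2) * y ^ 3) * X ^ 3 +
      C ((3 / 8) + (-15 / 4) * y ^ 2 + (35 / 8) * y ^ 4) * X ^ 4 +
      C ((15 / 8) * y + (-35 / 4) * y ^ 3 + (63 / 8) * y ^ 5) * X ^ 5 +
      C ((1 / 2)) * X ^ 6,
    1 + C (2 * (-1) * y) * X + X ^ 2,
    C ((-1 / 2)) +
      C ((-11 / 8) * y + (35 / 4) * y ^ 3 + (-63 / 8) * y ^ 5) * X +
      C ((-5 / 8) + (47 / 8) * y ^ 2 + (-105 / 8) * y ^ 4 + (63 / 8) * y ^ 6) * X ^ 2 +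
      C ((11 / 16) * y + (-11 / 16) * y ^ 3 + (-63 / 16) * y ^ 5 + (63 / 16) * y ^ 7) * X ^ 3 +
      C ((3 / 8) + (-9 / 4) * y ^ 2 + (65 / 16) * y ^ 4 + (-49 / 8) * y ^ 6 + (63 / 16) * y ^ 8) * X ^ 4 +
      C ((-33 / 64) * y + (-25 / 16) * y ^ 3 + (203 / 32) * y ^ 5 + (-147 / 16) * y ^ 7 + (315 / 64) * y ^ 9) * X ^ 5 +
      C ((-21 / 64) + (-135 / 64) * y ^ 2 + (175 / 32) * y ^ 4 + (147 / 32) * y ^ 6 + (-945 / 64) * y ^ 8 + (441 / 64) * y ^ 10) * X ^ 6 +
      C ((143 / 64) * y + (-1295 / 64) * y ^ 3 + (2961 / 32) * y ^ 5 + (-7269 / 32) * y ^ 7 + (16415 / 64) * y ^ 9 + (-6615 / 64) * y ^ 11) * X ^ 7,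
    rfl, Or.inr rfl, by compute_degree, stable h1 h2, circle_R1 (Or.inr rfl) (by linarith),
    ⟨C ((17 / 64) + (127 / 16) * y ^ 2 + (-1365 / 32) * y ^ 4 + (1071 / 16) * y ^ 6 + (-2079 / 64) * y ^ 8) +
      C ((-11 / 8) * y + (93 / 4) * y ^ 3 + (-84) * y ^ 5 + (441 / 4) * y ^ 7 + (-385 / 8) * y ^ 9) * X +
      C ((1 / 64) + (-447 / 64) * y ^ 2 + (1945 / 32) * y ^ 4 + (-5439 / 32) * y ^ 6 + (12285 / 64) * y ^ 8 + (-4851 / 64) * y ^ 10) * X ^ 2 +
      C ((33 / 32) * y + (-845 / 32) * y ^ 3 + (2443 / 16) * y ^ 5 + (-5565 / 16) * y ^ 7 + (11025 / 32) * y ^ 9 + (-3969 / 32) * y ^ 11) * X ^ 3 +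
      C ((5 / 8) + (-255 / 64) * y ^ 2 + (-175 / 16) * y ^ 4 + (2891 / 32) * y ^ 6 + (-2205 / 16) * y ^ 8 + (3969 / 64) * y ^ 10) * X ^ 4 +
      C ((11 / 8) * y + (-35 / 4) * y ^ 3 + (63 / 8) * y ^ 5) * X ^ 5 +
      C ((1 / 4)) * X ^ 6, ?_⟩,
    ⟨C ((-1 / 128) + (355 / 64) * y ^ 2 + (-875 / 32) * y ^ 4 + (525 / 8) * y ^ 6 + (-13389 / 128) * y ^ 8 + (5985 / 64) * y ^ 10 + (-2079 / 64) * y ^ 12) +
      C ((117 / 512) * y + (2385 / 256) * y ^ 3 + (-28581 / 512) * y ^ 5 + (20775 / 128) * y ^ 7 + (-142501 / 512) * y ^ 9 + (63441 / 256) * y ^ 11 + (-43659 / 512) * y ^ 13) * X +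
      C ((33 / 512) + (-1281 / 256) * y ^ 2 + (24615 / 512) * y ^ 4 + (-12733 / 64) * y ^ 6 + (250959 / 512) * y ^ 8 + (-188157 / 256) * y ^ 10 + (302281 / 512) * y ^ 12 + (-24255 / 128) * y ^ 14) * X ^ 2 +
      C ((-9 / 256) * y + (-4565 / 256) * y ^ 3 + (38311 / 256) * y ^ 5 + (-148773 / 256) * y ^ 7 + (340605 / 256) * y ^ 9 + (-464919 / 256) * y ^ 11 + (341285 / 256) * y ^ 13 + (-101871 / 256) * y ^ 15) * X ^ 3 +
      C ((-21 / 128) + (1605 / 512) * y ^ 2 + (-28035 / 512) * y ^ 4 + (189665 / 512) * y ^ 6 + (-717975 / 512) * y ^ 8 + (1638735 / 512) * y ^ 10 + (-2164169 / 512) * y ^ 12 + (1497195 / 512) * y ^ 14 + (-416745 / 512) * y ^ 16) * X ^ 4 +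
      C ((143 / 128) * y + (-1295 / 128) * y ^ 3 + (2961 / 64) * y ^ 5 + (-7269 / 64) * y ^ 7 + (16415 / 128) * y ^ 9 + (-6615 / 128) * y ^ 11) * X ^ 5, ?_⟩, ?_, ?_, ?_⟩
  · apply Polynomial.funext
    intro x
    simp only [eval_add, eval_sub, eval_mul, eval_C, eval_X, eval_pow, eval_one]
    ring
  · rw [reflect6]
    apply Polynomial.funext
    intro x
    simp only [eval_add, eval_sub, eval_mul, eval_C, eval_X, eval_pow]
    ring
  · simp only [coeff_add, coeff_C_mul, coeff_X_pow, coeff_C, coeff_X]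
    norm_num
  · simp only [coeff_add, coeff_C_mul, coeff_X_pow, coeff_C, coeff_X]
    norm_num
    linear_combination ((-1 / 40)) * hm
  · simp only [coeff_add, coeff_C_mul, coeff_X_pow, coeff_C, coeff_X]
    norm_num
    linear_combination ((53507 / 1632960) + (-11 / 480) * y + (-29797 / 181440) * y ^ 2 + (259 / 576) * y ^ 4 + (-21 / 64) * y ^ 6) * hm

lemma inverse {y x : ℂ} (hm : 315 * y ^ 5 - 350 * y ^ 3 + 55 * y - 22 = 0)
    (hx : x = (588577 / 816480) + (-29381 / 408240) * y + (-106711 / 45360) * y ^ 2 + (2719 / 10206) * y ^ 3 + (539 / 288) * y ^ 4) :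
    y = (-1242164304242731527936837738462355777764825661941080312 / 1473503863883931282259408757232113440858626498711280341) + (45636001075118626217552445095105338844980165860892431200 / 16208542502723244104853496329553247849444891485824083751) * x + (3472700522254742852728131136163172050028060270486895888000 / 178293967529955685153388459625085726343893806344064921261) * x ^ 2 + (-9200486532997209351771886782299801255876047408980480000 / 163722651542659031362156528581345937873180722079031149) * x ^ 3 + (851685548272620906054114665089267780674341804961792000000 / 19810440836661742794820939958342858482654867371562769029) * x ^ 4 := by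
  rw [hx]
  linear_combination (-((-2923438946352837069382262962906892421437515899514205876150051 / 34455536144758974281309787771496430361427370304471347570860764) + (-4873439090906839908865923953604375829805322283513026073280953 / 34455536144758974281309787771496430361427370304471347570860764) * y + (1773605095459316833057228259094646268828359953057980120616875 / 3828392904973219364589976419055158929047485589385705285651196) * y ^ 2 + (85762185564688933743957645833029948332201722659418857150988275 / 44589517363805731422871490057230674585376596864609979209349224) * y ^ 3 + (-19042957560268541230763604819027610993201777979710570007375 / 12890211801256630857205307808266528380631264610726280423068) * y ^ 4 + (-67405572206981292001551399358651718486609806653200893389435575 / 10528080488676353252622435152401687054880585370810689535540789) * y ^ 5 + (69028547485836755915421265994926589229313278349799995835875 / 23632054968970489904876397648488635364490651786331514108958)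 * y ^ 6 + (87125369802958909497692060585501752955256271607052952192756625 / 9358293767712314002331053468801499604338298107387279587147368) * y ^ 7 + (-3642258290426371233158275480611762861120191524427522123750 / 1312891942720582772493133202693813075805036210351750783831) * y ^ 8 + (-367217928377685796831718271146435997703105676317935625 / 57784465250350246363114068911063272190534372498481582) * y ^ 9 + (14190350936436200075587907145921209900540654438850000 / 14883877412969002851105138961940539806652792916275559) * y ^ 10 + (99686367247542212525299904987734891534891757654934375 / 59535509651876011404420555847762159226611171665102236) * y ^ 11)) * hm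

theorem no_radicals {k : ℕ} (hk : 0 < k) : ∃ x : ℝ, IsGreatest (Vals k (7 * k) (-1 / 2) (-11 / 20)) x ∧
    (x : ℂ) ∉ solvableByRad ℚ ℂ := by
  obtain ⟨y, hy, hm⟩ := intermediate_value_Icc (show (10034 / 10000 : ℝ) ≤ 10035 / 10000 by norm_num)
    (f := fun y => 315 * y ^ 5 - 350 * y ^ 3 + 55 * y - 22) (by fun_prop)
    (show (0 : ℝ) ∈ _ by simp only [Set.mem_Icc]; norm_num)
  have h := ((cert hy.1 hy.2 hm).expand hk).isGreatest (by omega) (by rw [abs_lt]; norm_num)
  rw [mul_one, mul_comm] at h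
  refine ⟨_, h, fun hx => ?_⟩
  have hm' : 315 * (y : ℂ) ^ 5 - 350 * y ^ 3 + 55 * y - 22 = 0 := by exact_mod_cast hm
  have hy0 : (y : ℂ) ≠ 0 := by
    rw [Complex.ofReal_ne_zero]; linarith [hy.1]
  refine not_solvable (w := (y : ℂ)⁻¹) ?_ (inv_mem ?_)
  · rw [aeval_M]
    field_simp
    linear_combination -hm'
  · generalize hX : ((_ : ℝ) : ℂ) = x at hx
    rw [inverse hm' (x := x) (by rw [← hX]; push_cast; ring)]
    have c : ∀ n : ℕ, (n : ℂ) ∈ solvableByRad ℚ ℂ := fun n => natCast_mem _ n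
    have c' : ∀ (n : ℕ) [n.AtLeastTwo], (OfNat.ofNat n : ℂ) ∈ solvableByRad ℚ ℂ := fun n _ => c n
    refine add_mem (add_mem (add_mem (add_mem ?_ (mul_mem ?_ hx)) (mul_mem ?_ (pow_mem hx _)))
      (mul_mem ?_ (pow_mem hx _))) (mul_mem ?_ (pow_mem hx _))
    all_goals first
      | exact div_mem (c' _) (c' _)
      | exact div_mem (neg_mem (c' _)) (c' _)

end Pool.Agent.Lib.MP_55068a_an.H98
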