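import Mathlib

namespace Pool.Agent.Lib.MP_55068a_an.Lv

/-- Functions of two real variables on `B` that are representable by quadratures: complex valued
functions obtained from complex constants and the two coordinates by sums, products, reciprocals,
exponentials, and by taking real-analytic `n`-th roots, logarithms and primitives. The only
algebraic steps allowed are `n`-th roots. -/
inductive Liouv (B : Set (ℝ × ℝ)) : (ℝ × ℝ → ℂ) → Prop
  | const (c : ℂ) : Liouv B fun _ => c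
  | fst : Liouv B fun p => (p.1 : ℂ)
  | snd : Liouv B fun p => (p.2 : ℂ)
  | add {f g : ℝ × ℝ → ℂ} : Liouv B f → Liouv B g → Liouv B fun p => f p + g p
  | mul {f g : ℝ × ℝ → ℂ} : Liouv B f → Liouv B g → Liouv B fun p => f p * g p
  | inv {g : ℝ × ℝ → ℂ} : Liouv B g → (∀ p ∈ B, g p ≠ 0) → Liouv B fun p => (g p)⁻¹
  | exp {g : ℝ × ℝ → ℂ} : Liouv B g → Liouv B fun p => Complex.exp (g p)
  | root {f g : ℝ × ℝ → ℂ} (n : ℕ) : n ≠ 0 → AnalyticOnNhd ℝ f B → Liouv B g →
      (∀ p ∈ B, f p ^ n = g p) → Liouv B f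
  | log {f g : ℝ × ℝ → ℂ} : AnalyticOnNhd ℝ f B → Liouv B g →
      (∀ p ∈ B, Complex.exp (f p) = g p) → Liouv B f
  | prim {f g h : ℝ × ℝ → ℂ} : AnalyticOnNhd ℝ f B → Liouv B g → Liouv B h →
      (∀ p ∈ B, fderiv ℝ f p (1, 0) = g p) → (∀ p ∈ B, fderiv ℝ f p (0, 1) = h p) → Liouv B f

end Pool.Agent.Lib.MP_55068a_an.Lv
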